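import Mathlib
import Pool.Agent.N445.VW.Lt

/-! # Packing of integer points -/

set_option autoImplicit false

namespace Pool.Agent.N445.DF

open MvPolynomial Pool.Agent.TH910.Voj Pool.Agent.H813R3.Voj Pool.Agent.N445.VW

variable {N : ℕ}

/-- the points of the box which agree with `z` outside `J` -/
noncomputable def sbox (J : Finset (Fin N)) (z : Fin N → ℤ) (B : ℕ) : Finset (Fin N → ℤ) :=
  Fintype.piFinset fun i => if i ∈ J then Finset.Icc (-(B : ℤ)) B else {z i}

theorem mem_sbox {J : Finset (Fin N)} {z : Fin N → ℤ} {B : ℕ} {x : Fin N → ℤ} :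
    x ∈ sbox J z B ↔ (∀ i ∈ J, |x i| ≤ B) ∧ ∀ i, i ∉ J → x i = z i := by
  unfold sbox
  rw [Fintype.mem_piFinset]
  constructor
  · intro h
    refine ⟨fun i hi => ?_, fun i hi => ?_⟩
    · have := h i
      rw [if_pos hi, Finset.mem_Icc, ← abs_le] at this
      exact this
    · have := h i
      rw [if_neg hi, Finset.mem_singleton] at this
      exact this
  · rintro ⟨h1, h2⟩ i
    by_cases hi : i ∈ J
    · rw [if_pos hi, Finset.mem_Icc, ← abs_le]; exact h1 i hi
    · rw [if_neg hi, Finset.mem_singleton]; exact h2 i hi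

theorem card_sbox (J : Finset (Fin N)) (z : Fin N → ℤ) (B : ℕ) :
    (sbox J z B).card = (2 * B + 1) ^ J.card := by
  unfold sbox
  rw [Fintype.card_piFinset]
  have h1 : ∀ i, (if i ∈ J then Finset.Icc (-(B : ℤ)) B else {z i}).card =
      if i ∈ J then 2 * B + 1 else 1 := by
    intro i
    split_ifs
    · exact card_Icc_int B
    · exact Finset.card_singleton _
  simp only [h1]
  rw [Finset.prod_ite_mem, Finset.univ_inter, Finset.prod_const]

/-- Cells. -/
theorem card_cells (J : Finset (Fin N)) (A : Finset (Fin N → ℤ)) (B h : ℕ) (hh : 1 ≤ h)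
    (hA : ∀ x ∈ A, ∀ i ∈ J, |x i| ≤ B)
    (hinj : ∀ x ∈ A, ∀ y ∈ A, (∀ i ∈ J, |x i - y i| < h) → x = y) :
    A.card ≤ (2 * (B / h) + 2) ^ J.card := by
  classical
  have hh0 : (0 : ℤ) < h := by exact_mod_cast hh
  set T : Finset ({i // i ∈ J} → ℤ) :=
    Fintype.piFinset fun _ => Finset.Icc (-((B / h : ℕ) : ℤ) - 1) ((B / h : ℕ) : ℤ) with hT
  have hTc : T.card = (2 * (B / h) + 2) ^ J.card := by
    rw [hT, Fintype.card_piFinset, Finset.prod_const, Finset.card_univ, Fintype.card_coe,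
      Int.card_Icc]
    congr 1
    omega
  rw [← hTc]
  refine Finset.card_le_card_of_injOn (fun x (i : {i // i ∈ J}) => x i / (h : ℤ)) ?_ ?_
  · intro x hx
    rw [hT, Finset.mem_coe, Fintype.mem_piFinset]
    intro i
    have h1 := hA x hx i i.2
    rw [abs_le] at h1
    rw [Finset.mem_Icc]
    have h2 : ((B / h : ℕ) : ℤ) = (B : ℤ) / h := by push_cast; rfl
    rw [h2]
    constructor
    · have h3 : -((B : ℤ) / h) - 1 ≤ -(B : ℤ) / h := by
        rw [Int.le_ediv_iff_mul_le hh0]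
        have := Int.lt_ediv_add_one_mul_self (B : ℤ) hh0
        nlinarith
      exact h3.trans (Int.ediv_le_ediv hh0 h1.1)
    · exact Int.ediv_le_ediv hh0 h1.2
  · intro x hx y hy hxy
    refine hinj x hx y hy fun i hi => ?_
    have h1 := congrFun hxy ⟨i, hi⟩
    simp only at h1
    have h2 := Int.emod_add_mul_ediv (x i) h
    have h3 := Int.emod_add_mul_ediv (y i) h
    have h4 := Int.emod_nonneg (x i) hh0.ne'
    have h5 := Int.emod_lt_of_pos (x i) hh0
    have h6 := Int.emod_nonneg (y i) hh0.ne'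
    have h7 := Int.emod_lt_of_pos (y i) hh0
    rw [h1] at h2
    rw [abs_lt]
    constructor <;> linarith

/-- Points of a set without small differences. -/
theorem card_sep (J : Finset (Fin N)) (z : Fin N → ℤ) (B U : ℕ) (hU : 1 ≤ U)
    (A : Finset (Fin N → ℤ)) (hA : A ⊆ sbox J z B)
    (hsep : ∀ x ∈ A, ∀ y ∈ A, x ≠ y → ∃ i, (U : ℤ) ≤ |x i - y i|) :
    A.card ≤ (2 * (B / U) + 2) ^ J.card := by
  refine card_cells J A B U hU (fun x hx i hi => (mem_sbox.1 (hA hx)).1 i hi) ?_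
  intro x hx y hy h
  by_contra hne
  obtain ⟨i, hi⟩ := hsep x hx y hy hne
  by_cases hiJ : i ∈ J
  · exact absurd (h i hiJ) (not_lt.2 hi)
  · rw [(mem_sbox.1 (hA hx)).2 i hiJ, (mem_sbox.1 (hA hy)).2 i hiJ, sub_self, abs_zero] at hi
    have : (1 : ℤ) ≤ U := by exact_mod_cast hU
    omega

/-- Points on a hyperplane. -/
theorem card_hyper (J : Finset (Fin N)) (z : Fin N → ℤ) (B lam : ℕ) (hlam : 1 ≤ lam)
    (hlamB : lam ≤ B) (A : Finset (Fin N → ℤ)) (hA : A ⊆ sbox J z B)
    (hsep : ∀ x ∈ A, ∀ y ∈ A, x ≠ y → ∃ i, (lam : ℤ) ≤ |x i - y i|)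
    (l : Fin N → ℂ) (hl : ∃ j ∈ J, l j ≠ 0)
    (hlA : ∀ x ∈ A, ∀ y ∈ A, ∑ j ∈ J, l j * ((x j - y j : ℤ) : ℂ) = 0) :
    (A.card : ℝ) ≤ (4 * N * ((B : ℝ) / lam)) ^ (J.card - 1) := by
  classical
  obtain ⟨j0, hj0, hlj0⟩ := hl
  obtain ⟨i0, hi0, hmax⟩ := Finset.exists_max_image J (fun j => ‖l j‖) ⟨j0, hj0⟩
  have hli0 : 0 < ‖l i0‖ := lt_of_lt_of_le (norm_pos_iff.2 hlj0) (hmax j0 hj0)
  have hN : 1 ≤ N := by
    rcases Nat.eq_zero_or_pos N with h | h
    · subst h; exact i0.elim0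
    · exact h
  set h := (lam - 1) / N + 1 with hh
  have hN0 : (0 : ℝ) < N := by exact_mod_cast hN
  have hlam0 : (0 : ℝ) < lam := by exact_mod_cast hlam
  have hB0 : (0 : ℝ) < B := by exact_mod_cast (hlam.trans hlamB)
  have hNh : N * (h - 1) < lam := by
    have : N * ((lam - 1) / N) ≤ lam - 1 := Nat.mul_div_le _ _
    rw [hh, Nat.add_sub_cancel]
    omega
  have h1 := card_cells (J.erase i0) A B h (by rw [hh]; exact Nat.le_add_left 1 _)
    (fun x hx i hi => (mem_sbox.1 (hA hx)).1 i (Finset.mem_of_mem_erase hi)) (by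
    intro x hx y hy hxy
    by_contra hne
    have hJ' : ∀ i ∈ J.erase i0, |x i - y i| ≤ ((h - 1 : ℕ) : ℤ) := by
      intro i hi
      have := hxy i hi
      omega
    have hcard : (J.erase i0).card ≤ N - 1 := by
      rw [Finset.card_erase_of_mem hi0]
      have := Finset.card_le_univ J
      rw [Fintype.card_fin] at this
      omega
    have hi0b : |x i0 - y i0| ≤ (((N - 1) * (h - 1) : ℕ) : ℤ) := by
      have h2 := hlA x hx y hy
      rw [← Finset.add_sum_erase J _ hi0] at h2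
      have h3 : l i0 * ((x i0 - y i0 : ℤ) : ℂ) =
          -∑ j ∈ J.erase i0, l j * ((x j - y j : ℤ) : ℂ) := by
        linear_combination h2
      have h4 : ‖l i0‖ * |((x i0 - y i0 : ℤ) : ℝ)| ≤ ‖l i0‖ * ((N - 1) * (h - 1) : ℕ) := by
        calc ‖l i0‖ * |((x i0 - y i0 : ℤ) : ℝ)| = ‖l i0 * ((x i0 - y i0 : ℤ) : ℂ)‖ := by
              rw [norm_mul, Complex.norm_intCast]
          _ = ‖∑ j ∈ J.erase i0, l j * ((x j - y j : ℤ) : ℂ)‖ := by rw [h3, norm_neg]
          _ ≤ ∑ j ∈ J.erase i0, ‖l j * ((x j - y j : ℤ) : ℂ)‖ := norm_sum_le _ _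
          _ ≤ ∑ _j ∈ J.erase i0, ‖l i0‖ * ((h - 1 : ℕ) : ℝ) := by
              refine Finset.sum_le_sum fun j hj => ?_
              rw [norm_mul, Complex.norm_intCast]
              refine mul_le_mul (hmax j (Finset.mem_of_mem_erase hj)) ?_ (abs_nonneg _)
                (norm_nonneg _)
              have := hJ' j hj
              exact_mod_cast this
          _ = (J.erase i0).card * (‖l i0‖ * ((h - 1 : ℕ) : ℝ)) := by
              rw [Finset.sum_const, nsmul_eq_mul]
          _ ≤ ((N - 1 : ℕ) : ℝ) * (‖l i0‖ * ((h - 1 : ℕ) : ℝ)) := by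
              refine mul_le_mul_of_nonneg_right (by exact_mod_cast hcard) (by positivity)
          _ = _ := by push_cast; ring
      have h5 := le_of_mul_le_mul_left h4 hli0
      exact_mod_cast h5
    obtain ⟨i, hi⟩ := hsep x hx y hy hne
    by_cases hiJ : i ∈ J
    · by_cases hii : i = i0
      · rw [hii] at hi
        have h6 : lam ≤ (N - 1) * (h - 1) := by exact_mod_cast hi.trans hi0b
        have h7 : (N - 1) * (h - 1) ≤ N * (h - 1) := Nat.mul_le_mul_right _ (by omega)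
        omega
      · have h6 := hJ' i (Finset.mem_erase.2 ⟨hii, hiJ⟩)
        have h7 : lam ≤ h - 1 := by exact_mod_cast hi.trans h6
        have h8 : h - 1 ≤ N * (h - 1) := Nat.le_mul_of_pos_left _ hN
        omega
    · rw [(mem_sbox.1 (hA hx)).2 i hiJ, (mem_sbox.1 (hA hy)).2 i hiJ, sub_self, abs_zero] at hi
      have : (1 : ℤ) ≤ lam := by exact_mod_cast hlam
      omega)
  rw [Finset.card_erase_of_mem hi0] at h1
  have h2 : (A.card : ℝ) ≤ (2 * ((B / h : ℕ) : ℝ) + 2) ^ (J.card - 1) := by exact_mod_cast h1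
  refine h2.trans (pow_le_pow_left₀ (by positivity) ?_ _)
  have hlh : (lam : ℝ) ≤ N * h := by
    have : lam ≤ N * h := by
      have h3 : lam - 1 < N * ((lam - 1) / N + 1) := Nat.lt_mul_div_succ (lam - 1) hN
      rw [hh]
      calc lam = lam - 1 + 1 := by omega
        _ ≤ N * ((lam - 1) / N + 1) := Nat.succ_le_of_lt h3
    exact_mod_cast this
  have hh0 : (0 : ℝ) < h := by rw [hh]; positivity
  have h3 : ((B / h : ℕ) : ℝ) ≤ N * ((B : ℝ) / lam) := by
    refine Nat.cast_div_le.trans ?_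
    rw [← mul_div_assoc, div_le_div_iff₀ hh0 hlam0]
    nlinarith
  have h4 : 1 ≤ N * ((B : ℝ) / lam) := by
    have h5 : 1 ≤ (B : ℝ) / lam := by
      rw [one_le_div hlam0]; exact_mod_cast hlamB
    have h6 : (1 : ℝ) ≤ N := by exact_mod_cast hN
    nlinarith
  linarith

end Pool.Agent.N445.DF
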