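import Mathlib
import Pool.Agent.N445.DF.A1

/-! # Points in a coset of a lattice: the spanning case -/

set_option autoImplicit false

namespace Pool.Agent.N445.DF

open MvPolynomial Pool.Agent.TH910.Voj Pool.Agent.H813R3.Voj Pool.Agent.N445.VW

variable {N : ℕ}

/-- rational vectors supported in `J` -/
def VJ (J : Finset (Fin N)) : Submodule ℚ (Fin N → ℚ) where
  carrier := {u | ∀ i, i ∉ J → u i = 0}
  add_mem' := by
    intro a b ha hb i hi
    rw [Pi.add_apply, ha i hi, hb i hi, add_zero]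
  zero_mem' := fun i _ => rfl
  smul_mem' := by
    intro c a ha i hi
    rw [Pi.smul_apply, ha i hi, smul_zero]

theorem span_or_hyper (J : Finset (Fin N)) (A : Finset (Fin N → ℤ)) (z : Fin N → ℤ)
    (hA : ∀ x ∈ A, ∀ i, i ∉ J → x i = z i) :
    (∃ l : Fin N → ℂ, (∃ j ∈ J, l j ≠ 0) ∧
      ∀ x ∈ A, ∀ y ∈ A, ∑ j ∈ J, l j * ((x j - y j : ℤ) : ℂ) = 0) ∨
    (∃ r : ℕ, r ≤ N ∧ ∃ d : Fin r → (Fin N → ℤ), (∀ s, ∃ x ∈ A, ∃ y ∈ A, d s = x - y) ∧
      ∀ a : Fin N → ℤ, (∀ i, i ∉ J → a i = 0) →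
        ∃ c : Fin r → ℚ, ∀ i, (a i : ℚ) = ∑ s, c s * (d s i : ℚ)) := by
  classical
  set S : Set (Fin N → ℚ) := {v | ∃ x ∈ A, ∃ y ∈ A, v = fun i => ((x i - y i : ℤ) : ℚ)} with hS
  by_cases hW : VJ J ≤ Submodule.span ℚ S
  · right
    obtain ⟨f, hf1, hf2, -⟩ := Submodule.exists_fun_fin_finrank_span_eq ℚ S
    choose x hx y hy hxy using hf1
    refine ⟨_, ?_, fun s => x s - y s, fun s => ⟨x s, hx s, y s, hy s, rfl⟩, ?_⟩
    · refine (Submodule.finrank_le _).trans ?_
      rw [Module.finrank_fintype_fun_eq_card, Fintype.card_fin]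
    · intro a ha
      have h1 : (fun i => (a i : ℚ)) ∈ Submodule.span ℚ S :=
        hW (fun i hi => by show ((a i : ℤ) : ℚ) = 0; rw [ha i hi]; rfl)
      rw [← hf2, Submodule.mem_span_range_iff_exists_fun] at h1
      obtain ⟨c, hc⟩ := h1
      refine ⟨c, fun i => ?_⟩
      have h2 := congrFun hc i
      simp only [Finset.sum_apply, Pi.smul_apply, smul_eq_mul] at h2
      rw [← h2]
      refine Finset.sum_congr rfl fun s _ => ?_
      rw [hxy s]
      simp
  · left
    rw [SetLike.not_le_iff_exists] at hW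
    obtain ⟨w, hwJ, hw⟩ := hW
    obtain ⟨f, hfw, hf⟩ := Submodule.exists_le_ker_of_notMem hw
    have hfe : ∀ v : Fin N → ℚ, (∀ i, i ∉ J → v i = 0) →
        f v = ∑ j ∈ J, f (Pi.single j 1) * v j := by
      intro v hv
      have h1 : v = ∑ j ∈ J, v j • (Pi.single j (1 : ℚ) : Fin N → ℚ) := by
        funext i
        rw [Finset.sum_apply]
        simp only [Pi.smul_apply, smul_eq_mul, Pi.single_apply, mul_ite, mul_one, mul_zero]
        rw [Finset.sum_ite_eq]
        split_ifs with h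
        · rfl
        · exact hv i h
      conv_lhs => rw [h1]
      rw [map_sum]
      refine Finset.sum_congr rfl fun j _ => ?_
      rw [map_smul, smul_eq_mul, mul_comm]
    refine ⟨fun j => ((f (Pi.single j 1) : ℚ) : ℂ), ?_, ?_⟩
    · by_contra hcon
      push Not at hcon
      apply hfw
      rw [hfe w hwJ]
      refine Finset.sum_eq_zero fun j hj => ?_
      have := hcon j hj
      rw [Rat.cast_eq_zero] at this
      rw [this, zero_mul]
    · intro x hx y hy
      have h1 : (fun i => ((x i - y i : ℤ) : ℚ)) ∈ LinearMap.ker f :=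
        hf (Submodule.subset_span ⟨x, hx, y, hy, rfl⟩)
      rw [LinearMap.mem_ker, hfe _ (fun i hi => by
        show ((x i - y i : ℤ) : ℚ) = 0; rw [hA x hx i hi, hA y hy i hi, sub_self]; rfl)] at h1
      have h2 := congrArg (fun t : ℚ => (t : ℂ)) h1
      simp only [Rat.cast_sum, Rat.cast_mul, Rat.cast_intCast, Rat.cast_zero] at h2
      exact h2

/-- The spanning case. -/
theorem card_spanning (J : Finset (Fin N)) (z : Fin N → ℤ) (B : ℕ) (A : Finset (Fin N → ℤ))
    (hA : A ⊆ sbox J z B) (Lam : AddSubgroup (Fin N → ℤ)) (hAL : ∀ x ∈ A, ∀ y ∈ A, x - y ∈ Lam)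
    (r : ℕ) (hr : r ≤ N) (d : Fin r → (Fin N → ℤ)) (hd : ∀ s, ∃ x ∈ A, ∃ y ∈ A, d s = x - y)
    (hspan : ∀ a : Fin N → ℤ, (∀ i, i ∉ J → a i = 0) →
        ∃ c : Fin r → ℚ, ∀ i, (a i : ℚ) = ∑ s, c s * (d s i : ℚ))
    (a : Fin N → ℤ) (ha : ∀ i, i ∉ J → a i = 0) (q : ℕ)
    (hq : ∀ t : ℤ, t • a ∈ Lam → (q : ℤ) ∣ t) :
    q * A.card ≤ (2 * ((2 * N + 1) * B) + 1) ^ J.card := by
  classical
  have hdL : ∀ s, d s ∈ Lam := by
    intro s
    obtain ⟨x, hx, y, hy, h⟩ := hd s
    rw [h]; exact hAL x hx y hy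
  have hdJ : ∀ s i, i ∉ J → d s i = 0 := by
    intro s i hi
    obtain ⟨x, hx, y, hy, h⟩ := hd s
    rw [h, Pi.sub_apply, (mem_sbox.1 (hA hx)).2 i hi, (mem_sbox.1 (hA hy)).2 i hi, sub_self]
  have hdB : ∀ s i, |d s i| ≤ 2 * (B : ℤ) := by
    intro s i
    by_cases hi : i ∈ J
    · obtain ⟨x, hx, y, hy, h⟩ := hd s
      rw [h, Pi.sub_apply]
      have h1 := (mem_sbox.1 (hA hx)).1 i hi
      have h2 := (mem_sbox.1 (hA hy)).1 i hi
      have h3 := abs_sub (x i) (y i)
      linarith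
    · rw [hdJ s i hi, abs_zero]; positivity
  have hc : ∀ t : ℕ, ∃ c : Fin r → ℚ, ∀ i, ((((t : ℤ) • a) i : ℤ) : ℚ) = ∑ s, c s * (d s i : ℚ) :=
    fun t => hspan ((t : ℤ) • a) fun i hi => by rw [Pi.smul_apply, ha i hi, smul_zero]
  choose c hc using hc
  set w : ℕ → (Fin N → ℤ) := fun t => ∑ s, ⌊c t s⌋ • d s with hw
  have hwL : ∀ t, w t ∈ Lam := fun t => AddSubgroup.sum_mem _ fun s _ =>
    AddSubgroup.zsmul_mem _ (hdL s) _
  set y : ℕ → (Fin N → ℤ) := fun t => (t : ℤ) • a - w t with hy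
  have hyJ : ∀ t i, i ∉ J → y t i = 0 := by
    intro t i hi
    rw [hy]
    simp only [Pi.sub_apply, Pi.smul_apply, ha i hi, smul_zero, hw, Finset.sum_apply]
    rw [Finset.sum_eq_zero fun s _ => by rw [hdJ s i hi, smul_zero], sub_zero]
  have hyB : ∀ t i, |y t i| ≤ 2 * (N * B : ℕ) := by
    intro t i
    have h1 : ((y t i : ℤ) : ℚ) = ∑ s, Int.fract (c t s) * (d s i : ℚ) := by
      rw [hy]
      simp only [Pi.sub_apply]
      rw [Int.cast_sub, hc t i, hw]
      simp only [Finset.sum_apply, Pi.smul_apply, smul_eq_mul]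
      push_cast
      rw [← Finset.sum_sub_distrib]
      refine Finset.sum_congr rfl fun s _ => ?_
      rw [← sub_mul]
      rfl
    have h2 : |((y t i : ℤ) : ℚ)| ≤ 2 * (N * B : ℕ) := by
      rw [h1]
      calc |∑ s, Int.fract (c t s) * (d s i : ℚ)| ≤ ∑ s, |Int.fract (c t s) * (d s i : ℚ)| :=
            Finset.abs_sum_le_sum_abs _ _
        _ ≤ ∑ _s : Fin r, (2 * B : ℚ) := by
            refine Finset.sum_le_sum fun s _ => ?_
            rw [abs_mul, abs_of_nonneg (Int.fract_nonneg _)]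
            have h3 : |((d s i : ℤ) : ℚ)| ≤ 2 * B := by exact_mod_cast hdB s i
            calc Int.fract (c t s) * |((d s i : ℤ) : ℚ)| ≤ 1 * |((d s i : ℤ) : ℚ)| :=
                  mul_le_mul_of_nonneg_right (Int.fract_lt_one _).le (abs_nonneg _)
              _ ≤ 2 * B := by rw [one_mul]; exact h3
        _ = r * (2 * B) := by rw [Finset.sum_const, Finset.card_univ, Fintype.card_fin, nsmul_eq_mul]
        _ ≤ N * (2 * B) := by
            have : (r : ℚ) ≤ N := by exact_mod_cast hr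
            exact mul_le_mul_of_nonneg_right this (by positivity)
        _ = _ := by push_cast; ring
    exact_mod_cast h2
  have hcard : ((Finset.range q) ×ˢ A).card ≤ (sbox J z ((2 * N + 1) * B)).card := by
    refine Finset.card_le_card_of_injOn (fun p => p.2 + y p.1) ?_ ?_
    · rintro ⟨t, x⟩ hp
      rw [Finset.mem_coe, Finset.mem_product] at hp
      rw [Finset.mem_coe, mem_sbox]
      have hx := mem_sbox.1 (hA hp.2)
      refine ⟨fun i hi => ?_, fun i hi => ?_⟩
      · simp only [Pi.add_apply]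
        have h1 := hx.1 i hi
        have h2 := hyB t i
        have h3 := abs_add_le (x i) (y t i)
        push_cast at h2 ⊢
        simp only at h1
        linarith
      · simp only [Pi.add_apply]
        rw [hyJ t i hi, add_zero]
        exact hx.2 i hi
    · rintro ⟨t, x⟩ hp ⟨t', x'⟩ hp' heq
      rw [Finset.mem_coe, Finset.mem_product, Finset.mem_range] at hp hp'
      simp only at hp hp' heq
      have h1 : ((t : ℤ) - t') • a = (w t - w t') + (x' - x) := by
        rw [sub_smul]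
        have h2 : (t : ℤ) • a = y t + w t := by rw [hy]; simp
        have h3 : (t' : ℤ) • a = y t' + w t' := by rw [hy]; simp
        rw [h2, h3]
        have h4 : y t = x' + y t' - x := by rw [← heq]; abel
        rw [h4]; abel
      have h2 : (q : ℤ) ∣ (t : ℤ) - t' := hq _ (by
        rw [h1]
        exact AddSubgroup.add_mem _ (AddSubgroup.sub_mem _ (hwL t) (hwL t')) (hAL x' hp'.2 x hp.2))
      have h3 : t = t' := by
        have h4 : (t : ℤ) - t' = 0 := by
          refine Int.eq_zero_of_abs_lt_dvd h2 ?_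
          rw [abs_lt]
          constructor <;> omega
        omega
      subst h3
      exact Prod.ext rfl (add_right_cancel heq)
  rw [Finset.card_product, Finset.card_range, card_sbox] at hcard
  exact hcard

end Pool.Agent.N445.DF
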