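import Mathlib
import Pool.Agent.H510R2.Div

/-! # The number of ideals containing an integer of a number field -/

set_option autoImplicit false

namespace Pool.Agent.N445.DF

open UniqueFactorizationMonoid NumberField

variable (E : Type) [Field E] [NumberField E]

theorem ideal_count (ε : ℝ) (hε : 0 < ε) :
    ∃ C : ℝ, 0 < C ∧ ∀ b : Ideal (𝓞 E), b ≠ ⊥ → ∀ T : Finset (Ideal (𝓞 E)),
      (∀ I ∈ T, I ∣ b) → (T.card : ℝ) ≤ C * (Ideal.absNorm b : ℝ) ^ ε := by
  classical
  obtain ⟨C, hC1, hC⟩ := H510R2.prime_pow_aux ε hε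
  obtain ⟨P, hP⟩ := exists_nat_ge ((2:ℝ) ^ (1/ε))
  have hfin : {I : Ideal (𝓞 E) | Ideal.absNorm I ≤ P}.Finite := Ideal.finite_setOfPred_absNorm_le P
  set S0 : Finset (Ideal (𝓞 E)) := hfin.toFinset with hS0
  refine ⟨C ^ S0.card, by positivity, fun b hb T hT => ?_⟩
  have hb0 : b ≠ 0 := hb
  -- the number of divisors
  have hcard : T.card ≤ ∏ p ∈ (normalizedFactors b).toFinset, ((normalizedFactors b).count p + 1) := by
    rw [← Multiset.card_Iic]
    refine Finset.card_le_card_of_injOn (fun I => normalizedFactors I) ?_ ?_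
    · intro I hI
      have h1 := hT I hI
      have hI0 : I ≠ 0 := ne_zero_of_dvd_ne_zero hb0 h1
      rw [Finset.mem_coe, Finset.mem_Iic]
      exact (dvd_iff_normalizedFactors_le_normalizedFactors hI0 hb0).1 h1
    · intro I hI I' hI' heq
      have hI0 : I ≠ 0 := ne_zero_of_dvd_ne_zero hb0 (hT I hI)
      have hI0' : I' ≠ 0 := ne_zero_of_dvd_ne_zero hb0 (hT I' hI')
      simp only at heq
      have h1 : (normalizedFactors I).prod = I := Ideal.prod_normalizedFactors_eq_self hI0
      have h2 : (normalizedFactors I').prod = I' := Ideal.prod_normalizedFactors_eq_self hI0'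
      rw [← h1, ← h2, heq]
  have hnorm : (Ideal.absNorm b : ℝ) = ∏ p ∈ (normalizedFactors b).toFinset,
      (Ideal.absNorm p : ℝ) ^ (normalizedFactors b).count p := by
    conv_lhs => rw [← Ideal.prod_normalizedFactors_eq_self hb0]
    rw [map_multiset_prod, Finset.prod_multiset_map_count]
    push_cast
    rfl
  have hprime : ∀ p ∈ (normalizedFactors b).toFinset, 2 ≤ Ideal.absNorm p := by
    intro p hp
    rw [Multiset.mem_toFinset] at hp
    have h1 := prime_of_normalized_factor p hp
    have h2 : Ideal.absNorm p ≠ 0 := by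
      rw [Ne, Ideal.absNorm_eq_zero_iff]; exact h1.ne_zero
    have h3 : Ideal.absNorm p ≠ 1 := by
      rw [Ne, Ideal.absNorm_eq_one_iff]
      intro h4
      exact h1.not_isUnit (by rw [h4, ← Ideal.one_eq_top]; exact isUnit_one)
    omega
  have hterm : ∀ p ∈ (normalizedFactors b).toFinset, (((normalizedFactors b).count p : ℝ) + 1) ≤
      (if p ∈ S0 then C else 1) * ((Ideal.absNorm p : ℝ) ^ ((normalizedFactors b).count p)) ^ ε := by
    intro p hp
    have hp2 := hprime p hp
    split_ifs with h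
    · exact hC _ hp2 _
    · rw [hS0, Set.Finite.mem_toFinset] at h
      have hpP : (P : ℝ) ≤ Ideal.absNorm p := by
        have : ¬ Ideal.absNorm p ≤ P := h
        exact_mod_cast (by omega : P ≤ Ideal.absNorm p)
      rw [one_mul]
      have h1 : (2 : ℝ) ≤ (Ideal.absNorm p : ℝ) ^ ε := by
        have h2 : ((2 : ℝ) ^ (1 / ε)) ^ ε = 2 := by
          rw [← Real.rpow_mul (by norm_num), one_div_mul_cancel hε.ne', Real.rpow_one]
        calc (2 : ℝ) = ((2 : ℝ) ^ (1 / ε)) ^ ε := h2.symm
          _ ≤ (Ideal.absNorm p : ℝ) ^ ε :=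
              Real.rpow_le_rpow (by positivity) (hP.trans hpP) hε.le
      have h3 : ((Ideal.absNorm p : ℝ) ^ ((normalizedFactors b).count p)) ^ ε =
          ((Ideal.absNorm p : ℝ) ^ ε) ^ ((normalizedFactors b).count p) := by
        rw [← Real.rpow_natCast, ← Real.rpow_mul (Nat.cast_nonneg _), mul_comm,
          Real.rpow_mul (Nat.cast_nonneg _), Real.rpow_natCast]
      rw [h3]
      calc (((normalizedFactors b).count p : ℝ) + 1) ≤ 2 ^ ((normalizedFactors b).count p) := by
            exact_mod_cast Nat.lt_two_pow_self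
        _ ≤ _ := pow_le_pow_left₀ (by norm_num) h1 _
  have hkey : (T.card : ℝ) ≤ ∏ p ∈ (normalizedFactors b).toFinset,
      (((normalizedFactors b).count p : ℝ) + 1) := by exact_mod_cast hcard
  refine hkey.trans ((Finset.prod_le_prod (fun p _ => by positivity) hterm).trans ?_)
  rw [Finset.prod_mul_distrib, Real.finsetProd_rpow _ _ (fun p _ => by positivity), ← hnorm]
  refine mul_le_mul_of_nonneg_right ?_ (by positivity)
  rw [Finset.prod_ite, Finset.prod_const_one, mul_one, Finset.prod_const]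
  refine pow_le_pow_right₀ hC1 (Finset.card_le_card ?_)
  intro p hp
  exact (Finset.mem_filter.1 hp).2

/-- ideals containing a nonzero element -/
theorem ideal_count_mem (ε : ℝ) (hε : 0 < ε) :
    ∃ C : ℝ, 0 < C ∧ ∀ β : 𝓞 E, β ≠ 0 → ∀ T : Finset (Ideal (𝓞 E)),
      (∀ I ∈ T, β ∈ I) → (T.card : ℝ) ≤ C * ((Algebra.norm ℤ β).natAbs : ℝ) ^ ε := by
  obtain ⟨C, hC0, hC⟩ := ideal_count E ε hε
  refine ⟨C, hC0, fun β hβ T hT => ?_⟩
  have h1 := hC (Ideal.span {β}) (by rwa [Ne, Ideal.span_singleton_eq_bot]) T (fun I hI => by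
    rw [Ideal.dvd_span_singleton]; exact hT I hI)
  rwa [Ideal.absNorm_span_singleton] at h1

end Pool.Agent.N445.DF
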