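import Mathlib
import Pool.Agent.N445.VW.Fib
import Pool.Agent.N445.VW.Pair

/-! # Norm forms: divisibility and ideals -/

set_option autoImplicit false

namespace Pool.Agent.N445.DF

open MvPolynomial Pool.Agent.TH910.Voj Pool.Agent.H813R3.Voj Pool.Agent.N445.VW NumberField

set_option linter.unusedSectionVars false

variable {E : Type} [Field E] [NumberField E] {N : ℕ}

/-- the linear form -/
noncomputable def Lf (α : Fin N → 𝓞 E) (x : Fin N → ℤ) : 𝓞 E := ∑ i, (x i : 𝓞 E) * α i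

theorem Lf_add (α : Fin N → 𝓞 E) (x y : Fin N → ℤ) : Lf α (x + y) = Lf α x + Lf α y := by
  unfold Lf
  rw [← Finset.sum_add_distrib]
  refine Finset.sum_congr rfl fun i _ => ?_
  rw [Pi.add_apply]; push_cast; ring

theorem Lf_smul (α : Fin N → 𝓞 E) (t : ℤ) (y : Fin N → ℤ) :
    Lf α (t • y) = (t : 𝓞 E) * Lf α y := by
  unfold Lf
  rw [Finset.mul_sum]
  refine Finset.sum_congr rfl fun i _ => ?_
  rw [Pi.smul_apply, smul_eq_mul]; push_cast; ring

theorem Lf_sub (α : Fin N → 𝓞 E) (x y : Fin N → ℤ) : Lf α (x - y) = Lf α x - Lf α y := by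
  unfold Lf
  rw [← Finset.sum_sub_distrib]
  refine Finset.sum_congr rfl fun i _ => ?_
  rw [Pi.sub_apply]; push_cast; ring

theorem Lf_zero (α : Fin N → 𝓞 E) : Lf α 0 = 0 := by
  unfold Lf
  simp

/-- `F` is a multiple of a norm form -/
structure NF (F : MvPolynomial (Fin N) ℤ) (α : Fin N → 𝓞 E) (d c : ℤ) : Prop where
  hd : d ≠ 0
  hc : c ≠ 0
  eq : ∀ x : Fin N → ℤ, d * eval x F = c * Algebra.norm ℤ (Lf α x)

theorem norm_congr (m : ℕ) (β γ : 𝓞 E) :
    (m : ℤ) ∣ Algebra.norm ℤ (β + (m : 𝓞 E) * γ) - Algebra.norm ℤ β := by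
  classical
  set b := RingOfIntegers.basis E with hb
  rw [Algebra.norm_eq_matrix_det b, Algebra.norm_eq_matrix_det b]
  rw [← ZMod.intCast_zmod_eq_zero_iff_dvd, Int.cast_sub, sub_eq_zero]
  have h1 : Algebra.leftMulMatrix b (β + (m : 𝓞 E) * γ) =
      Algebra.leftMulMatrix b β + (m : ℤ) • Algebra.leftMulMatrix b γ := by
    rw [map_add]
    congr 1
    have h2 : (m : 𝓞 E) * γ = (m : ℤ) • γ := by rw [zsmul_eq_mul]; push_cast; rfl
    rw [h2, map_zsmul]
  rw [h1]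
  have h3 : ∀ M : Matrix (Module.Free.ChooseBasisIndex ℤ (𝓞 E)) (Module.Free.ChooseBasisIndex ℤ (𝓞 E)) ℤ,
      ((M.det : ℤ) : ZMod m) = (M.map (Int.castRingHom (ZMod m))).det := fun M =>
    RingHom.map_det (Int.castRingHom (ZMod m)) M
  rw [h3, h3]
  congr 1
  ext i j
  rw [Matrix.map_apply, Matrix.map_apply, Matrix.add_apply, Matrix.smul_apply]
  simp only [eq_intCast, smul_eq_mul, Int.cast_add, Int.cast_mul, Int.cast_natCast,
    CharP.cast_eq_zero, zero_mul, add_zero]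

theorem norm_one_add (q : ℕ) (w : 𝓞 E) :
    ∃ t r : ℤ, Algebra.norm ℤ (1 + (q : 𝓞 E) * w) = 1 + t * q + r * (q : ℤ) ^ 2 := by
  obtain ⟨r, hr⟩ := Algebra.norm_one_add_smul (A := ℤ) (q : ℤ) w
  refine ⟨Algebra.trace ℤ (𝓞 E) w, r, ?_⟩
  rw [← hr]
  congr 2
  rw [zsmul_eq_mul]; push_cast; rfl

/-- **The key divisibility.** -/
theorem key_dvd (F : MvPolynomial (Fin N) ℤ) (α : Fin N → 𝓞 E) (d c : ℤ) (hF : NF F α d c)
    (x : Fin N → ℤ) (q : ℕ) (hq : 1 ≤ q) (hqc : IsCoprime (q : ℤ) c) (hqF : (q : ℤ) ∣ eval x F)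
    (y : Fin N → ℤ) (hy : Lf α y ∈ Ideal.span {(q : 𝓞 E), Lf α x}) :
    (q : ℤ) ∣ d * eval x (dder y F) := by
  rw [Ideal.mem_span_pair] at hy
  obtain ⟨z, w, hzw⟩ := hy
  have hqN : (q : ℤ) ∣ Algebra.norm ℤ (Lf α x) := by
    have h1 : (q : ℤ) ∣ c * Algebra.norm ℤ (Lf α x) := by
      rw [← hF.eq x]; exact hqF.mul_left _
    exact hqc.dvd_of_dvd_mul_left h1
  have h1 : Lf α (x + (q : ℤ) • y) = Lf α x * (1 + (q : 𝓞 E) * w) + ((q ^ 2 : ℕ) : 𝓞 E) * z := by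
    rw [Lf_add, Lf_smul, ← hzw]
    push_cast
    ring
  have h2 : ((q ^ 2 : ℕ) : ℤ) ∣ Algebra.norm ℤ (Lf α (x + (q : ℤ) • y)) -
      Algebra.norm ℤ (Lf α x) := by
    have h3 := norm_congr (q ^ 2) (Lf α x * (1 + (q : 𝓞 E) * w)) z
    rw [← h1, map_mul] at h3
    obtain ⟨t, r, htr⟩ := norm_one_add q w
    rw [htr] at h3
    obtain ⟨m, hm⟩ := hqN
    have h4 : ((q ^ 2 : ℕ) : ℤ) ∣ Algebra.norm ℤ (Lf α x) * (1 + t * q + r * (q : ℤ) ^ 2) -
        Algebra.norm ℤ (Lf α x) := by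
      refine ⟨m * t + Algebra.norm ℤ (Lf α x) * r, ?_⟩
      rw [hm]
      push_cast
      ring
    have := dvd_add h3 h4
    simpa using this
  -- the Taylor expansion
  obtain ⟨κ, hκ⟩ := Polynomial.binomExpansion (onLine F x y) 0 (q : ℤ)
  rw [zero_add, derivative_onLine, eval_onLine, eval_onLine, eval_onLine] at hκ
  have e1 : (fun i => x i + (q : ℤ) * y i) = x + (q : ℤ) • y := by
    funext i; simp
  have e2 : (fun i => x i + (0 : ℤ) * y i) = x := by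
    funext i; simp
  rw [e1, e2] at hκ
  have e3 : ∀ (G : MvPolynomial (Fin N) ℤ) (v : Fin N → ℤ), (aeval v G : ℤ) = eval v G :=
    fun _ _ => rfl
  rw [e3, e3, e3] at hκ
  have h5 : ((q ^ 2 : ℕ) : ℤ) ∣ d * (eval x (dder y F) * q) := by
    have h6 : d * eval (x + (q : ℤ) • y) F - d * eval x F =
        c * (Algebra.norm ℤ (Lf α (x + (q : ℤ) • y)) - Algebra.norm ℤ (Lf α x)) := by
      rw [hF.eq, hF.eq]; ring
    have h7 : ((q ^ 2 : ℕ) : ℤ) ∣ d * eval (x + (q : ℤ) • y) F - d * eval x F := by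
      rw [h6]; exact h2.mul_left _
    rw [hκ] at h7
    have h8 : d * (eval x (dder y F) * q) = (d * (eval x F + eval x (dder y F) * q + κ * q ^ 2) -
        d * eval x F) - ((q ^ 2 : ℕ) : ℤ) * (d * κ) := by
      push_cast; ring
    rw [h8]
    exact dvd_sub h7 (Dvd.intro _ rfl)
  have hq0 : (q : ℤ) ≠ 0 := by exact_mod_cast (by omega : q ≠ 0)
  obtain ⟨m, hm⟩ := h5
  refine ⟨m, mul_right_cancel₀ hq0 ?_⟩
  push_cast at hm
  linear_combination hm

/-- the lattice of the vectors supported in `J` at which the linear form is in the ideal -/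
def Lat (J : Finset (Fin N)) (α : Fin N → 𝓞 E) (I : Ideal (𝓞 E)) : AddSubgroup (Fin N → ℤ) where
  carrier := {y | (∀ i, i ∉ J → y i = 0) ∧ Lf α y ∈ I}
  add_mem' := by
    rintro a b ⟨h1, h2⟩ ⟨h3, h4⟩
    refine ⟨fun i hi => by rw [Pi.add_apply, h1 i hi, h3 i hi, add_zero], ?_⟩
    rw [Lf_add]; exact I.add_mem h2 h4
  zero_mem' := ⟨fun i _ => rfl, by rw [Lf_zero]; exact I.zero_mem⟩
  neg_mem' := by
    rintro a ⟨h1, h2⟩
    refine ⟨fun i hi => by rw [Pi.neg_apply, h1 i hi, neg_zero], ?_⟩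
    have h3 : Lf α (-a) = -Lf α a := by
      have := Lf_smul α (-1) a
      simpa using this
    rw [h3]; exact I.neg_mem h2

theorem mem_Lat {J : Finset (Fin N)} {α : Fin N → 𝓞 E} {I : Ideal (𝓞 E)} {y : Fin N → ℤ} :
    y ∈ Lat J α I ↔ (∀ i, i ∉ J → y i = 0) ∧ Lf α y ∈ I := Iff.rfl

theorem dder_smul (F : MvPolynomial (Fin N) ℤ) (x a : Fin N → ℤ) (t : ℤ) :
    eval x (dder (t • a) F) = t * eval x (dder a F) := by
  unfold dder
  simp only [map_sum, map_mul, eval_C, Pi.smul_apply, smul_eq_mul]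
  rw [Finset.mul_sum]
  exact Finset.sum_congr rfl fun i _ => by ring

/-- the index of the lattice is a multiple of the modulus -/
theorem Lat_index (F : MvPolynomial (Fin N) ℤ) (α : Fin N → 𝓞 E) (d c : ℤ) (hF : NF F α d c)
    (J : Finset (Fin N)) (a x : Fin N → ℤ) (q : ℕ) (hq : 1 ≤ q)
    (hns : IsCoprime (q : ℤ) (d * c * eval x (dder a F))) (hqF : (q : ℤ) ∣ eval x F)
    (t : ℤ) (ht : t • a ∈ Lat J α (Ideal.span {(q : 𝓞 E), Lf α x})) : (q : ℤ) ∣ t := by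
  have hqc : IsCoprime (q : ℤ) c := by
    have h1 : IsCoprime (q : ℤ) (d * c) := IsCoprime.of_mul_right_left hns
    exact IsCoprime.of_mul_right_right h1
  have h1 := key_dvd F α d c hF x q hq hqc hqF (t • a) ht.2
  rw [dder_smul] at h1
  have h2 : (q : ℤ) ∣ t * (d * c * eval x (dder a F)) := by
    have h3 : t * (d * c * eval x (dder a F)) = c * (d * (t * eval x (dder a F))) := by ring
    rw [h3]
    exact h1.mul_left _
  exact hns.dvd_of_dvd_mul_right h2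

end Pool.Agent.N445.DF
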