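import Mathlib
import Pool.Agent.N445.VW.Phi
import Pool.Agent.N445.VW.Ln
import Pool.Agent.N445.DF.A4

/-! # Norm forms: the degenerate points are in few hyperplanes -/

set_option autoImplicit false

namespace Pool.Agent.N445.DF

open MvPolynomial Pool.Agent.TH910.Voj Pool.Agent.H813R3.Voj Pool.Agent.N445.VW NumberField

set_option linter.unusedSectionVars false

variable {E : Type} [Field E] [NumberField E] {N : ℕ}

theorem val_add (x y : 𝓞 E) : ((x + y : 𝓞 E) : E) = (x : E) + (y : E) :=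
  map_add (algebraMap (𝓞 E) E) x y

theorem val_mul (x y : 𝓞 E) : ((x * y : 𝓞 E) : E) = (x : E) * (y : E) :=
  map_mul (algebraMap (𝓞 E) E) x y

theorem val_int (t : ℤ) : ((t : 𝓞 E) : E) = (t : E) :=
  map_intCast (algebraMap (𝓞 E) E) t

theorem norm_emb (β : 𝓞 E) :
    ((Algebra.norm ℤ β : ℤ) : ℂ) = ∏ σ : E →ₐ[ℚ] ℂ, σ (β : E) := by
  have h1 := Algebra.coe_norm_int β
  have h2 := Algebra.norm_eq_prod_embeddings ℚ ℂ (β : E)
  rw [← h2, ← h1]
  simp

theorem prod_formula (F : MvPolynomial (Fin N) ℤ) (α : Fin N → 𝓞 E) (d c : ℤ) (hF : NF F α d c)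
    (x u : Fin N → ℤ) :
    Polynomial.C (d : ℂ) * (onLine F x u).map (Int.castRingHom ℂ) =
      Polynomial.C (c : ℂ) * ∏ σ : E →ₐ[ℚ] ℂ,
        (Polynomial.C (σ (Lf α x : E)) + Polynomial.C (σ (Lf α u : E)) * Polynomial.X) := by
  refine Polynomial.eq_of_infinite_eval_eq _ _ ?_
  refine Set.Infinite.mono ?_ (Set.infinite_range_of_injective (Int.cast_injective (α := ℂ)))
  rintro _ ⟨t, rfl⟩
  rw [Set.mem_ofPred_eq]
  simp only [Polynomial.eval_mul, Polynomial.eval_C, Polynomial.eval_prod, Polynomial.eval_add,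
    Polynomial.eval_X]
  have h1 : ((onLine F x u).map (Int.castRingHom ℂ)).eval (t : ℂ) =
      (((onLine F x u).eval t : ℤ) : ℂ) := Polynomial.eval_map_apply (Int.castRingHom ℂ) t
  have h2 : (onLine F x u).eval t = eval (x + t • u) F := by
    rw [eval_onLine]
    have : (fun i => x i + t * u i) = x + t • u := by funext i; simp
    rw [this]
    rfl
  rw [h1, h2]
  have h3 := congrArg (fun z : ℤ => (z : ℂ)) (hF.eq (x + t • u))
  simp only [Int.cast_mul] at h3
  rw [h3, norm_emb]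
  congr 1
  refine Finset.prod_congr rfl fun σ _ => ?_
  rw [Lf_add, Lf_smul]
  rw [val_add, val_mul, map_add, map_mul]
  have h4 : σ (((t : 𝓞 E) : 𝓞 E) : E) = (t : ℂ) := by
    rw [val_int, map_intCast]
  rw [h4, mul_comm (t : ℂ)]

theorem Phi_ne_of_sep {n : ℕ} {L : Type*} [Field L] [CharZero L] (F : MvPolynomial (Fin n) ℤ)
    {k : ℕ} (hk : F.IsHomogeneous k) (hk1 : 1 ≤ k) (u y : Fin n → ℤ) (hu : eval u F ≠ 0)
    (hsep : ((onLine F y u).map (Int.castRingHom L)).Separable) :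
    eval (Fin.append u y) (Phi F k) ≠ 0 := by
  rw [eval_Phi]
  refine mul_ne_zero hu fun h2 => ?_
  have hfc : (onLine F y u).coeff k = eval u F := (onLine_spec F hk y u).2
  have hfd : (onLine F y u).natDegree = k := by
    refine le_antisymm (onLine_spec F hk y u).1 (Polynomial.le_natDegree_of_ne_zero ?_)
    rw [hfc]; exact hu
  have h3 := Polynomial.resultant_map_map (onLine F y u)
    (Polynomial.derivative (onLine F y u)) k (k - 1) (Int.castRingHom L)
  rw [h2, map_zero, ← Polynomial.derivative_map] at h3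
  set g := (onLine F y u).map (Int.castRingHom L) with hg
  have hgd : g.natDegree = k := by
    rw [hg, Polynomial.natDegree_map_eq_of_injective (RingHom.injective_int _), hfd]
  have hgd' : (Polynomial.derivative g).natDegree = k - 1 := by
    have := Polynomial.degree_derivative (p := g) (by omega)
    rw [hgd] at this
    exact Polynomial.natDegree_eq_of_degree_eq_some this
  have h4 := Polynomial.resultant_ne_zero g (Polynomial.derivative g) hsep
  rw [hgd, hgd'] at h4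
  exact h4 h3

/-- in the direction `u` some line is not degenerate -/
theorem exists_Phi {n : ℕ} (F : MvPolynomial (Fin (n + 1)) ℤ) {k : ℕ} (hk : F.IsHomogeneous k)
    (hk1 : 1 ≤ k) (hirr : Irreducible (toQ F)) (u : Fin (n + 1) → ℤ) (hu : eval u F ≠ 0) :
    ∃ y : Fin (n + 1) → ℤ, eval (Fin.append u y) (Phi F k) ≠ 0 := by
  obtain ⟨i₀, hi₀⟩ : ∃ i, u i ≠ 0 := by
    by_contra hcon
    push Not at hcon
    have h1 : u = fun i => 0 * u i := by funext i; rw [hcon i]; simp
    have h2 := aeval_mul_hom (R := ℤ) F hk 0 u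
    rw [← h1, zero_pow (by omega), zero_mul] at h2
    exact hu h2
  obtain ⟨r, U, V, hr, hr0⟩ := elimination F (dder u F) hk hirr (not_dvd_dder u F hk hk1 hu) u i₀ hu
    hi₀
  obtain ⟨x, hx⟩ : ∃ x : Fin (n + 1) → ℤ, eval x (bind₁ (lin u i₀) r) ≠ 0 := by
    by_contra hcon
    push Not at hcon
    exact hr0 (MvPolynomial.funext fun x => by rw [hcon x, map_zero])
  set y : Fin (n + 1) → ℤ := fun i => u i₀ * x i - u i * x i₀ with hy
  have hy0 : y i₀ = 0 := by simp [hy]
  have hry : eval y r ≠ 0 := by rw [← eval_bind_lin u i₀ r x y rfl]; exact hx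
  exact ⟨y, Phi_ne_of_sep F hk hk1 u y hu
    (onLine_separable F hk hk1 u i₀ hi₀ r U V hr y hy0 hry)⟩

/-- `σ L(x) τ L(u) - τ L(x) σ L(u)` -/
noncomputable def ell (α : Fin N → 𝓞 E) (u : Fin N → ℤ) (σ τ : E →ₐ[ℚ] ℂ) (β : 𝓞 E) : ℂ :=
  σ (β : E) * τ (Lf α u : E) - τ (β : E) * σ (Lf α u : E)

theorem ell_Lf (α : Fin N → 𝓞 E) (u : Fin N → ℤ) (σ τ : E →ₐ[ℚ] ℂ) (x : Fin N → ℤ) :
    ell α u σ τ (Lf α x) = ∑ i, ell α u σ τ (α i) * ((x i : ℤ) : ℂ) := by
  have h1 : ∀ σ : E →ₐ[ℚ] ℂ, σ (Lf α x : E) = ∑ i, ((x i : ℤ) : ℂ) * σ (α i : E) := by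
    intro σ
    unfold Lf
    have h2 : ((∑ i, (x i : 𝓞 E) * α i : 𝓞 E) : E) = ∑ i, (x i : E) * (α i : E) := by
      refine (map_sum (algebraMap (𝓞 E) E) _ _).trans ?_
      refine Finset.sum_congr rfl fun i _ => ?_
      refine (map_mul (algebraMap (𝓞 E) E) _ _).trans ?_
      rw [map_intCast]
    rw [h2, map_sum]
    refine Finset.sum_congr rfl fun i _ => ?_
    rw [map_mul, map_intCast]
  unfold ell
  rw [h1 σ, h1 τ, Finset.sum_mul, Finset.sum_mul, ← Finset.sum_sub_distrib]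
  refine Finset.sum_congr rfl fun i _ => ?_
  ring

theorem emb_ne_zero (F : MvPolynomial (Fin N) ℤ) (α : Fin N → 𝓞 E) (d c : ℤ) (hF : NF F α d c)
    (u : Fin N → ℤ) (hu : eval u F ≠ 0) (σ : E →ₐ[ℚ] ℂ) : σ (Lf α u : E) ≠ 0 := by
  intro h
  have h1 : (Lf α u : E) = 0 := (map_eq_zero σ).1 h
  have h2 : Lf α u = 0 := by
    exact_mod_cast h1
  have h3 := hF.eq u
  rw [h2] at h3
  have h4 : Algebra.norm ℤ (0 : 𝓞 E) = 0 := by
    rw [Algebra.norm_zero]
  rw [h4, mul_zero] at h3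
  rcases mul_eq_zero.1 h3 with h5 | h5
  · exact hF.hd h5
  · exact hu h5

theorem Phi_zero_cases {n : ℕ} (F : MvPolynomial (Fin n) ℤ) {k : ℕ} (hk : F.IsHomogeneous k)
    (hk1 : 1 ≤ k) (α : Fin n → 𝓞 E) (d c : ℤ) (hF : NF F α d c) (u x : Fin n → ℤ)
    (hu : eval u F ≠ 0) (h0 : eval (Fin.append u x) (Phi F k) = 0) :
    ∃ σ τ : E →ₐ[ℚ] ℂ, σ ≠ τ ∧ ell α u σ τ (Lf α x) = 0 := by
  by_contra hcon
  push Not at hcon
  refine Phi_ne_of_sep (L := ℂ) F hk hk1 u x hu ?_ h0
  have hd : (d : ℂ) ≠ 0 := by exact_mod_cast hF.hd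
  have hc : (c : ℂ) ≠ 0 := by exact_mod_cast hF.hc
  have h1 := prod_formula F α d c hF x u
  have h2 : (Polynomial.C (d : ℂ) * (onLine F x u).map (Int.castRingHom ℂ)).Separable := by
    rw [h1]
    refine Polynomial.Separable.unit_mul (Polynomial.isUnit_C.2 (IsUnit.mk0 _ hc)) ?_
    refine Polynomial.separable_prod ?_ ?_
    · intro σ τ hστ
      have h3 := hcon σ τ hστ
      unfold ell at h3
      refine ⟨Polynomial.C ((σ (Lf α x : E) * τ (Lf α u : E) - τ (Lf α x : E) * σ (Lf α u : E))⁻¹ *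
        τ (Lf α u : E)), Polynomial.C (-(σ (Lf α x : E) * τ (Lf α u : E) -
          τ (Lf α x : E) * σ (Lf α u : E))⁻¹ * σ (Lf α u : E)), ?_⟩
      have h4 : ∀ (e a b p q : ℂ), a * q - b * p = e → e ≠ 0 →
          Polynomial.C (e⁻¹ * q) * (Polynomial.C a + Polynomial.C p * Polynomial.X) +
          Polynomial.C (-e⁻¹ * p) * (Polynomial.C b + Polynomial.C q * Polynomial.X) = 1 := by
        intro e a b p q he he0
        have h5 : e⁻¹ * e = 1 := inv_mul_cancel₀ he0
        have h6 : (Polynomial.C (e⁻¹ * q) * (Polynomial.C a + Polynomial.C p * Polynomial.X) +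
            Polynomial.C (-e⁻¹ * p) * (Polynomial.C b + Polynomial.C q * Polynomial.X) :
            Polynomial ℂ) = Polynomial.C (e⁻¹ * (a * q - b * p)) := by
          simp only [Polynomial.C_mul, Polynomial.C_neg, Polynomial.C_sub]
          ring
        rw [h6, he, h5, Polynomial.C_1]
      exact h4 _ _ _ _ _ rfl h3
    · intro σ
      have h3 := emb_ne_zero F α d c hF u hu σ
      rw [Polynomial.separable_def]
      refine ⟨0, Polynomial.C ((σ (Lf α u : E))⁻¹), ?_⟩
      simp only [Polynomial.derivative_add, Polynomial.derivative_C, Polynomial.derivative_mul,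
        Polynomial.derivative_X, zero_mul, zero_add, mul_one]
      rw [← Polynomial.C_mul, inv_mul_cancel₀ h3, Polynomial.C_1]
  exact (Polynomial.Separable.of_mul_right h2)

theorem ell_ne {n : ℕ} (F : MvPolynomial (Fin (n + 1)) ℤ) {k : ℕ} (hk : F.IsHomogeneous k)
    (hk1 : 1 ≤ k) (hirr : Irreducible (toQ F)) (α : Fin (n + 1) → 𝓞 E) (d c : ℤ) (hF : NF F α d c)
    (J : Finset (Fin (n + 1)))
    (hJ : ∀ i, (α i : E) ∈ Submodule.span ℚ ((fun j => (α j : E)) '' (J : Set (Fin (n + 1)))))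
    (u : Fin (n + 1) → ℤ) (hu : eval u F ≠ 0) (σ τ : E →ₐ[ℚ] ℂ) (hστ : σ ≠ τ) :
    ∃ j ∈ J, ell α u σ τ (α j) ≠ 0 := by
  by_contra hcon
  push Not at hcon
  obtain ⟨y, hy⟩ := exists_Phi F hk hk1 hirr u hu
  -- the form vanishes
  have h1 : ∀ i, ell α u σ τ (α i) = 0 := by
    intro i
    have h2 : ∀ β ∈ Submodule.span ℚ ((fun j => (α j : E)) '' (J : Set (Fin (n + 1)))),
        σ β * τ (Lf α u : E) - τ β * σ (Lf α u : E) = 0 := by
      intro β hβ
      induction hβ using Submodule.span_induction with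
      | mem x h =>
        obtain ⟨j, hj, rfl⟩ := h
        exact hcon j hj
      | zero => simp
      | add x y _ _ hx hy =>
        rw [map_add, map_add]
        linear_combination hx + hy
      | smul a x _ hx =>
        rw [Rat.smul_def, map_mul, map_mul, map_ratCast, map_ratCast]
        linear_combination (a : ℂ) * hx
    exact h2 _ (hJ i)
  have h2 : ell α u σ τ (Lf α y) = 0 := by
    rw [ell_Lf]
    exact Finset.sum_eq_zero fun i _ => by rw [h1 i, zero_mul]
  -- a double root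
  have hL : ((eval (Fin.append u y) (Phi F k) : ℤ) : ℂ) ≠ 0 := by exact_mod_cast hy
  obtain ⟨-, h3⟩ := Phi_simple F hk hk1 u y hL
  have hσ := emb_ne_zero F α d c hF u hu σ
  have hτ := emb_ne_zero F α d c hF u hu τ
  set t : ℂ := -(σ (Lf α y : E)) / σ (Lf α u : E) with ht
  have h4 : σ (Lf α y : E) + σ (Lf α u : E) * t = 0 := by
    rw [ht]; field_simp; ring
  have h5 : τ (Lf α y : E) + τ (Lf α u : E) * t = 0 := by
    unfold ell at h2
    have h6 : σ (Lf α u : E) * (τ (Lf α y : E) + τ (Lf α u : E) * t) = 0 := by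
      linear_combination τ (Lf α u : E) * h4 - h2
    exact (mul_eq_zero.1 h6).resolve_left hσ
  have hd : (d : ℂ) ≠ 0 := by exact_mod_cast hF.hd
  have h6 := prod_formula F α d c hF y u
  rw [map_cast_onLine] at h6
  have h7 : (Polynomial.C (c : ℂ) * ∏ σ : E →ₐ[ℚ] ℂ,
        (Polynomial.C (σ (Lf α y : E)) + Polynomial.C (σ (Lf α u : E)) * Polynomial.X)).eval t = 0 ∧
      (Polynomial.derivative (Polynomial.C (c : ℂ) * ∏ σ : E →ₐ[ℚ] ℂ,
        (Polynomial.C (σ (Lf α y : E)) + Polynomial.C (σ (Lf α u : E)) * Polynomial.X))).eval t = 0 := by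
    classical
    set P : (E →ₐ[ℚ] ℂ) → Polynomial ℂ := fun σ => (Polynomial.C (σ (Lf α y : E)) +
      Polynomial.C (σ (Lf α u : E)) * Polynomial.X) with hP
    have e1 : (P σ).eval t = 0 := by
      rw [hP]; simpa using h4
    have e2 : (P τ).eval t = 0 := by
      rw [hP]; simpa using h5
    have e3 : ∏ σ, P σ = P σ * (P τ * ∏ ρ ∈ (Finset.univ.erase σ).erase τ, P ρ) := by
      rw [Finset.mul_prod_erase _ _ (Finset.mem_erase.2 ⟨hστ.symm, Finset.mem_univ τ⟩),
        Finset.mul_prod_erase _ _ (Finset.mem_univ σ)]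
    rw [e3]
    constructor
    · rw [Polynomial.eval_mul, Polynomial.eval_mul, e1, zero_mul, mul_zero]
    · rw [Polynomial.derivative_C_mul, Polynomial.derivative_mul, Polynomial.eval_C_mul,
        Polynomial.eval_add, Polynomial.eval_mul, Polynomial.eval_mul, Polynomial.eval_mul, e1, e2]
      ring
  rw [← h6] at h7
  obtain ⟨h8, h9⟩ := h7
  rw [Polynomial.eval_C_mul] at h8
  rw [Polynomial.derivative_C_mul, Polynomial.eval_C_mul] at h9
  exact h3 t ((mul_eq_zero.1 h8).resolve_left hd) ((mul_eq_zero.1 h9).resolve_left hd)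

end Pool.Agent.N445.DF
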