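import Mathlib
import Pool.Agent.N445.DF.A1
import Pool.Agent.N445.DF.A3
import Pool.Agent.N445.DF.A5

/-! # Sums over pairs of a modulus and an ideal -/

set_option autoImplicit false

namespace Pool.Agent.N445.DF

open MvPolynomial Pool.Agent.TH910.Voj Pool.Agent.H813R3.Voj Pool.Agent.N445.VW NumberField

set_option linter.unusedSectionVars false

variable {E : Type} [Field E] [NumberField E] {N : ℕ}

/-- a minimal vector -/
theorem exists_min (Lam : AddSubgroup (Fin N → ℤ)) (U : ℕ) :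
    (∀ v ∈ Lam, v ≠ 0 → ∃ i, (U : ℤ) ≤ |v i|) ∨
    ∃ lam : ℕ, 1 ≤ lam ∧ lam < U ∧ ∃ u ∈ Lam, u ≠ 0 ∧ (∀ i, |u i| ≤ lam) ∧
      (∃ i, |u i| = lam) ∧ ∀ v ∈ Lam, v ≠ 0 → ∃ i, (lam : ℤ) ≤ |v i| := by
  classical
  by_cases h : ∀ v ∈ Lam, v ≠ 0 → ∃ i, (U : ℤ) ≤ |v i|
  · exact Or.inl h
  · right
    push Not at h
    obtain ⟨v0, hv0, hv00, hv0U⟩ := h
    set nrm : (Fin N → ℤ) → ℕ := fun v => Finset.univ.sup fun i => (v i).natAbs with hnrm
    have hle : ∀ v i, |v i| ≤ nrm v := by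
      intro v i
      have : (v i).natAbs ≤ nrm v := Finset.le_sup (f := fun i => (v i).natAbs) (Finset.mem_univ i)
      rw [Int.abs_eq_natAbs]
      exact_mod_cast this
    have hex : ∃ m : ℕ, ∃ v ∈ Lam, v ≠ 0 ∧ nrm v = m := ⟨_, v0, hv0, hv00, rfl⟩
    obtain ⟨u, hu, hu0, hum⟩ := Nat.find_spec hex
    have hmin : ∀ v ∈ Lam, v ≠ 0 → nrm u ≤ nrm v := by
      intro v hv hv'
      rw [hum]
      exact Nat.find_min' hex ⟨v, hv, hv', rfl⟩
    have hatt : ∀ v : Fin N → ℤ, v ≠ 0 → ∃ i, |v i| = nrm v := by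
      intro v hv
      obtain ⟨i1, hi1⟩ := Function.ne_iff.1 hv
      obtain ⟨i, -, hi⟩ := Finset.exists_mem_eq_sup Finset.univ ⟨i1, Finset.mem_univ i1⟩
        (fun i => (v i).natAbs)
      refine ⟨i, ?_⟩
      rw [Int.abs_eq_natAbs, hnrm]
      simp only
      rw [hi]
    refine ⟨nrm u, ?_, ?_, u, hu, hu0, hle u, hatt u hu0, ?_⟩
    · by_contra hcon
      apply hu0
      funext i
      have h1 := hle u i
      have h2 : nrm u = 0 := by omega
      rw [h2] at h1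
      have : |u i| = 0 := le_antisymm (by exact_mod_cast h1) (abs_nonneg _)
      exact abs_eq_zero.1 this
    · refine lt_of_le_of_lt (hmin v0 hv0 hv00) ?_
      obtain ⟨i, hi⟩ := hatt v0 hv00
      have := hv0U i
      rw [hi] at this
      exact_mod_cast this
    · intro v hv hv'
      obtain ⟨i, hi⟩ := hatt v hv'
      refine ⟨i, ?_⟩
      rw [hi]
      exact_mod_cast hmin v hv hv'

/-- the vectors of norm `lam` supported in `J` -/
noncomputable def sphere (J : Finset (Fin N)) (lam : ℕ) : Finset (Fin N → ℤ) :=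
  (sbox J 0 lam).filter fun u => ∃ j ∈ J, |u j| = lam

theorem mem_sphere {J : Finset (Fin N)} {lam : ℕ} {u : Fin N → ℤ} :
    u ∈ sphere J lam ↔ ((∀ i ∈ J, |u i| ≤ lam) ∧ ∀ i, i ∉ J → u i = 0) ∧ ∃ j ∈ J, |u j| = lam := by
  unfold sphere
  rw [Finset.mem_filter, mem_sbox]
  rfl

theorem card_sphere (J : Finset (Fin N)) (lam : ℕ) (hlam : 1 ≤ lam) :
    ((sphere J lam).card : ℝ) ≤ 2 * N * (3 * (lam : ℝ)) ^ (J.card - 1) := by
  classical
  have hsub : sphere J lam ⊆ J.biUnion fun j =>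
      sbox (J.erase j) (Pi.single j (lam : ℤ)) lam ∪ sbox (J.erase j) (Pi.single j (-(lam : ℤ))) lam := by
    intro u hu
    obtain ⟨⟨h1, h2⟩, j, hj, h3⟩ := mem_sphere.1 hu
    rw [Finset.mem_biUnion]
    refine ⟨j, hj, ?_⟩
    rw [Finset.mem_union, mem_sbox, mem_sbox]
    have key : ∀ t : ℤ, u j = t → (∀ i ∈ J.erase j, |u i| ≤ lam) ∧
        ∀ i, i ∉ J.erase j → u i = (Pi.single j t : Fin N → ℤ) i := by
      intro t ht
      refine ⟨fun i hi => h1 i (Finset.mem_of_mem_erase hi), fun i hi => ?_⟩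
      by_cases hij : i = j
      · rw [hij, Pi.single_eq_same, ht]
      · rw [Pi.single_eq_of_ne hij]
        exact h2 i fun h => hi (Finset.mem_erase.2 ⟨hij, h⟩)
    rcases abs_choice (u j) with h | h
    · left; exact key _ (by rw [← h]; exact h3)
    · right; exact key _ (by rw [← h3, h, neg_neg])
  have h1 : (sphere J lam).card ≤ ∑ _j ∈ J, 2 * (2 * lam + 1) ^ (J.card - 1) := by
    refine (Finset.card_le_card hsub).trans (Finset.card_biUnion_le.trans ?_)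
    refine Finset.sum_le_sum fun j hj => ?_
    refine (Finset.card_union_le _ _).trans ?_
    rw [card_sbox, card_sbox, Finset.card_erase_of_mem hj]
    exact (two_mul _).ge
  rw [Finset.sum_const, smul_eq_mul] at h1
  have h2 : J.card ≤ N := by
    have := Finset.card_le_univ J
    rwa [Fintype.card_fin] at this
  have h3 : ((sphere J lam).card : ℝ) ≤ J.card * (2 * (2 * lam + 1) ^ (J.card - 1)) := by
    exact_mod_cast h1
  have hl : (1 : ℝ) ≤ lam := by exact_mod_cast hlam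
  calc ((sphere J lam).card : ℝ) ≤ J.card * (2 * (2 * lam + 1) ^ (J.card - 1)) := h3
    _ ≤ N * (2 * (3 * lam) ^ (J.card - 1)) := by
        refine mul_le_mul (by exact_mod_cast h2) ?_ (by positivity) (by positivity)
        refine mul_le_mul_of_nonneg_left ?_ (by norm_num)
        exact pow_le_pow_left₀ (by positivity) (by linarith) _
    _ = _ := by ring

theorem norm_nat (q : ℕ) : ∃ g : ℕ, g = Module.finrank ℤ (𝓞 E) ∧
    Algebra.norm ℤ (q : 𝓞 E) = (q : ℤ) ^ g := by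
  refine ⟨_, rfl, ?_⟩
  have h1 := Algebra.norm_algebraMap_of_basis (RingOfIntegers.basis E) (q : ℤ)
  rw [Module.finrank_eq_card_basis (RingOfIntegers.basis E), ← h1]
  simp

/-- the number of ideals containing a natural number -/
theorem count_q (A0 : ℕ) (ε : ℝ) (hε : 0 < ε) : ∃ C : ℝ, 0 < C ∧ ∀ B : ℕ, 1 ≤ B →
    ∀ q : ℕ, 1 ≤ q → q ≤ B ^ A0 → ∀ T : Finset (Ideal (𝓞 E)), (∀ I ∈ T, (q : 𝓞 E) ∈ I) →
      (T.card : ℝ) ≤ C * (B : ℝ) ^ ε := by
  set g := Module.finrank ℤ (𝓞 E) with hg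
  have hε1 : 0 < ε / (A0 * g + 1) := by positivity
  obtain ⟨C, hC0, hC⟩ := ideal_count_mem E (ε / (A0 * g + 1)) hε1
  refine ⟨C, hC0, fun B hB q hq hqB T hT => ?_⟩
  have hq0 : (q : 𝓞 E) ≠ 0 := by exact_mod_cast (by omega : q ≠ 0)
  refine (hC (q : 𝓞 E) hq0 T hT).trans (mul_le_mul_of_nonneg_left ?_ hC0.le)
  obtain ⟨g', hg', hn⟩ := norm_nat (E := E) q
  rw [← hg] at hg'
  subst hg'
  rw [hn]
  have hB1 : (1 : ℝ) ≤ B := by exact_mod_cast hB
  have h1 : ((((q : ℤ) ^ g).natAbs : ℕ) : ℝ) ≤ (B : ℝ) ^ (A0 * g) := by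
    rw [Int.natAbs_pow, Int.natAbs_natCast, pow_mul]
    push_cast
    exact pow_le_pow_left₀ (by positivity) (by exact_mod_cast hqB) _
  calc ((((q : ℤ) ^ g).natAbs : ℕ) : ℝ) ^ (ε / (A0 * g + 1)) ≤
        ((B : ℝ) ^ (A0 * g)) ^ (ε / (A0 * g + 1)) :=
        Real.rpow_le_rpow (by positivity) h1 hε1.le
    _ = (B : ℝ) ^ ((A0 * g : ℝ) * (ε / (A0 * g + 1))) := by
        rw [← Real.rpow_natCast, ← Real.rpow_mul (by positivity)]
        push_cast
        rfl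
    _ ≤ (B : ℝ) ^ ε := by
        refine Real.rpow_le_rpow_of_exponent_le hB1 ?_
        rw [mul_div_assoc', div_le_iff₀ (by positivity)]
        nlinarith

/-- the number of ideals containing the value of the linear form at a small vector -/
theorem count_u (F : MvPolynomial (Fin N) ℤ) {k : ℕ} (hk : F.IsHomogeneous k)
    (α : Fin N → 𝓞 E) (d c : ℤ) (hF : NF F α d c) (ε : ℝ) (hε : 0 < ε) :
    ∃ C : ℝ, 0 < C ∧ ∀ B : ℕ, 1 ≤ B → ∀ u : Fin N → ℤ, (∀ i, |u i| ≤ B) → Lf α u ≠ 0 →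
      ∀ T : Finset (Ideal (𝓞 E)), (∀ I ∈ T, Lf α u ∈ I) → (T.card : ℝ) ≤ C * (B : ℝ) ^ ε := by
  obtain ⟨c0, hc1, hc0⟩ := exists_eval_bound F (hk.totalDegree_le)
  have hε1 : 0 < ε / (k + 1) := by positivity
  obtain ⟨C, hC0, hC⟩ := ideal_count_mem E (ε / (k + 1)) hε1
  refine ⟨C * ((d.natAbs : ℝ) * c0 + 1) ^ (ε / (k + 1)), by positivity,
    fun B hB u hu hu0 T hT => ?_⟩
  refine (hC _ hu0 T hT).trans ?_
  rw [mul_assoc]
  refine mul_le_mul_of_nonneg_left ?_ hC0.le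
  have hB1 : (1 : ℝ) ≤ B := by exact_mod_cast hB
  have h1 : ((Algebra.norm ℤ (Lf α u)).natAbs : ℝ) ≤ ((d.natAbs : ℝ) * c0 + 1) * (B : ℝ) ^ k := by
    have h2 : (Algebra.norm ℤ (Lf α u)).natAbs ≤ d.natAbs * (eval u F).natAbs := by
      have h3 := congrArg Int.natAbs (hF.eq u)
      rw [Int.natAbs_mul, Int.natAbs_mul] at h3
      rw [h3]
      exact Nat.le_mul_of_pos_left _ (Int.natAbs_pos.2 hF.hc)
    have h3 : ((eval u F).natAbs : ℝ) ≤ c0 * (B : ℝ) ^ k := by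
      exact_mod_cast hc0 B hB u (mem_box.2 hu)
    calc ((Algebra.norm ℤ (Lf α u)).natAbs : ℝ) ≤ d.natAbs * (eval u F).natAbs := by
          exact_mod_cast h2
      _ ≤ d.natAbs * (c0 * (B : ℝ) ^ k) := mul_le_mul_of_nonneg_left h3 (Nat.cast_nonneg _)
      _ ≤ ((d.natAbs : ℝ) * c0 + 1) * (B : ℝ) ^ k := by
          have : 0 ≤ (B : ℝ) ^ k := by positivity
          nlinarith
  calc ((Algebra.norm ℤ (Lf α u)).natAbs : ℝ) ^ (ε / (k + 1)) ≤
        (((d.natAbs : ℝ) * c0 + 1) * (B : ℝ) ^ k) ^ (ε / (k + 1)) :=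
        Real.rpow_le_rpow (by positivity) h1 hε1.le
    _ = ((d.natAbs : ℝ) * c0 + 1) ^ (ε / (k + 1)) * (B : ℝ) ^ ((k : ℝ) * (ε / (k + 1))) := by
        rw [Real.mul_rpow (by positivity) (by positivity), ← Real.rpow_natCast,
          ← Real.rpow_mul (by positivity)]
    _ ≤ _ := by
        refine mul_le_mul_of_nonneg_left ?_ (by positivity)
        refine Real.rpow_le_rpow_of_exponent_le hB1 ?_
        rw [mul_div_assoc', div_le_iff₀ (by positivity)]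
        nlinarith

/-- the modulus is determined by the ideal -/
theorem modulus_unique (J : Finset (Fin N)) (α : Fin N → 𝓞 E) (a : Fin N → ℤ)
    (ha : ∀ i, i ∉ J → a i = 0) (I : Ideal (𝓞 E)) (q q' : ℕ) (hq : (q : 𝓞 E) ∈ I)
    (hqa : ∀ t : ℤ, t • a ∈ Lat J α I → (q : ℤ) ∣ t) (hq' : (q' : 𝓞 E) ∈ I)
    (hqa' : ∀ t : ℤ, t • a ∈ Lat J α I → (q' : ℤ) ∣ t) : q = q' := by
  have key : ∀ q : ℕ, (q : 𝓞 E) ∈ I → ((q : ℤ) • a) ∈ Lat J α I := by
    intro q hq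
    refine ⟨fun i hi => by rw [Pi.smul_apply, ha i hi, smul_zero], ?_⟩
    rw [Lf_smul]
    push_cast
    exact I.mul_mem_right _ hq
  have h1 := hqa _ (key q' hq')
  have h2 := hqa' _ (key q hq)
  exact Nat.dvd_antisymm (Int.natCast_dvd_natCast.1 h1) (Int.natCast_dvd_natCast.1 h2)

/-- the sum of the cardinalities of the fibres over a finite set -/
theorem card_le_sum_fib {ι κ : Type*} (P : Finset ι) (Q : Finset κ) (T : ℝ)
    (r : ι → κ → Prop) (w : κ → ℝ) (hw : ∀ q ∈ Q, 0 ≤ w q) (v : ι → ℝ)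
    (h1 : ∀ p ∈ P, ∃ q ∈ Q, r p q ∧ v p ≤ w q)
    (h2 : ∀ q ∈ Q, ∀ T' ⊆ P, (∀ p ∈ T', r p q) → (T'.card : ℝ) ≤ T) :
    ∑ p ∈ P, v p ≤ T * ∑ q ∈ Q, w q := by
  classical
  have h3 : ∀ p ∈ P, v p ≤ ∑ q ∈ Q, if r p q then w q else 0 := by
    intro p hp
    obtain ⟨q, hq, hr, hv⟩ := h1 p hp
    refine hv.trans ?_
    have : w q = if r p q then w q else 0 := by rw [if_pos hr]
    rw [this]
    refine Finset.single_le_sum (f := fun q => if r p q then w q else 0) (fun q hq => ?_) hq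
    split_ifs
    · exact hw q hq
    · exact le_rfl
  refine (Finset.sum_le_sum h3).trans ?_
  rw [Finset.sum_comm, Finset.mul_sum]
  refine Finset.sum_le_sum fun q hq => ?_
  rw [← Finset.sum_filter, Finset.sum_const, nsmul_eq_mul]
  refine mul_le_mul_of_nonneg_right ?_ (hw q hq)
  exact h2 q hq _ (Finset.filter_subset _ _) fun p hp => (Finset.mem_filter.1 hp).2

/-- **Sums over pairs of a modulus and an ideal.** -/
theorem sum_pairs (F : MvPolynomial (Fin N) ℤ) {k : ℕ} (hk : F.IsHomogeneous k)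
    (α : Fin N → 𝓞 E) (d c : ℤ) (hF : NF F α d c) (J : Finset (Fin N))
    (hind : ∀ u : Fin N → ℤ, (∀ i, i ∉ J → u i = 0) → u ≠ 0 → Lf α u ≠ 0)
    (a : Fin N → ℤ) (ha : ∀ i, i ∉ J → a i = 0) (A0 : ℕ) (ε : ℝ) (hε : 0 < ε) :
    ∃ C : ℝ, 0 < C ∧ ∀ B U : ℕ, 1 ≤ U → U ≤ B → ∀ Qs : Finset ℕ, (∀ q ∈ Qs, 1 ≤ q ∧ q ≤ B ^ A0) →
      ∀ P : Finset (ℕ × Ideal (𝓞 E)), (∀ p ∈ P, p.1 ∈ Qs ∧ (p.1 : 𝓞 E) ∈ p.2 ∧
        ∀ t : ℤ, t • a ∈ Lat J α p.2 → (p.1 : ℤ) ∣ t) →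
      ∀ (f : ℕ × Ideal (𝓞 E) → ℝ) (K G : ℝ), 0 ≤ K → 0 ≤ G →
      (∀ p ∈ P, f p ≤ (4 * ((B : ℝ) / U)) ^ J.card ∨
        (∃ lam : ℕ, 1 ≤ lam ∧ lam < U ∧ (∃ u ∈ Lat J α p.2, u ∈ sphere J lam) ∧
          f p ≤ (K * ((B : ℝ) / lam)) ^ (J.card - 1)) ∨
        f p ≤ G * (B : ℝ) ^ J.card / p.1) →
      ∑ p ∈ P, f p ≤ C * (B : ℝ) ^ ε * (Qs.card * ((B : ℝ) / U) ^ J.card +
        K ^ (J.card - 1) * (U * (B : ℝ) ^ (J.card - 1)) +
        G * (B : ℝ) ^ J.card * ∑ q ∈ Qs, 1 / (q : ℝ)) := by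
  classical
  obtain ⟨C1, hC10, hC1⟩ := count_q (E := E) A0 ε hε
  obtain ⟨C2, hC20, hC2⟩ := count_u F hk α d c hF ε hε
  set m := J.card with hm
  refine ⟨C1 * 4 ^ m + C2 * (2 * N * 3 ^ (m - 1)) + C1, by positivity, ?_⟩
  intro B U hU hUB Qs hQs P hP f K G hK hG hf
  have hB : 1 ≤ B := hU.trans hUB
  have hB1 : (1 : ℝ) ≤ B := by exact_mod_cast hB
  have hB0 : (0 : ℝ) < B := by linarith
  have hU0 : (0 : ℝ) < U := by exact_mod_cast hU
  set f2 : ℕ × Ideal (𝓞 E) → ℝ := fun p => if (∃ lam : ℕ, 1 ≤ lam ∧ lam < U ∧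
      (∃ u ∈ Lat J α p.2, u ∈ sphere J lam) ∧ f p ≤ (K * ((B : ℝ) / lam)) ^ (m - 1))
      then f p else 0 with hf2
  have hle : ∀ p ∈ P, f p ≤ (4 * ((B : ℝ) / U)) ^ m + f2 p ⊔ 0 + G * (B : ℝ) ^ m / p.1 := by
    intro p hp
    have e1 : 0 ≤ (4 * ((B : ℝ) / U)) ^ m := by positivity
    have e2 : 0 ≤ G * (B : ℝ) ^ m / p.1 := by positivity
    have e3 : 0 ≤ f2 p ⊔ 0 := le_sup_right
    rcases hf p hp with h | h | h
    · linarith
    · have : f2 p = f p := by rw [hf2]; simp only; rw [if_pos h]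
      have : f p ≤ f2 p ⊔ 0 := by rw [this]; exact le_sup_left
      linarith
    · linarith
  refine (Finset.sum_le_sum hle).trans ?_
  rw [Finset.sum_add_distrib, Finset.sum_add_distrib]
  -- the number of ideals for a given modulus
  have hfib : ∀ q ∈ Qs, ∀ T' ⊆ P, (∀ p ∈ T', p.1 = q) → (T'.card : ℝ) ≤ C1 * (B : ℝ) ^ ε := by
    intro q hq T' hT' hTq
    have h1 : T'.card = (T'.image fun p => p.2).card := by
      rw [Finset.card_image_of_injOn]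
      intro p hp p' hp' h
      exact Prod.ext ((hTq p hp).trans (hTq p' hp').symm) h
    rw [h1]
    refine hC1 B hB q (hQs q hq).1 (hQs q hq).2 _ ?_
    intro I hI
    obtain ⟨p, hp, rfl⟩ := Finset.mem_image.1 hI
    rw [← hTq p hp]
    exact (hP p (hT' hp)).2.1
  have b1 : ∑ p ∈ P, (4 * ((B : ℝ) / U)) ^ m ≤ (C1 * (B : ℝ) ^ ε) *
      ∑ q ∈ Qs, (4 * ((B : ℝ) / U)) ^ m :=
    card_le_sum_fib P Qs _ (fun p q => p.1 = q) (fun _ => (4 * ((B : ℝ) / U)) ^ m)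
      (fun q _ => by positivity) _ (fun p hp => ⟨p.1, (hP p hp).1, rfl, le_rfl⟩) hfib
  have b3 : ∑ p ∈ P, G * (B : ℝ) ^ m / p.1 ≤ (C1 * (B : ℝ) ^ ε) *
      ∑ q ∈ Qs, G * (B : ℝ) ^ m / q :=
    card_le_sum_fib P Qs _ (fun p q => p.1 = q) (fun q => G * (B : ℝ) ^ m / q)
      (fun q _ => by positivity) _ (fun p hp => ⟨p.1, (hP p hp).1, rfl, le_rfl⟩) hfib
  -- the hyperplane case
  set P2 := P.filter fun p => (∃ lam : ℕ, 1 ≤ lam ∧ lam < U ∧
      (∃ u ∈ Lat J α p.2, u ∈ sphere J lam) ∧ f p ≤ (K * ((B : ℝ) / lam)) ^ (m - 1)) with hP2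
  have b2 : ∑ p ∈ P, f2 p ⊔ 0 ≤ (C2 * (B : ℝ) ^ ε) *
      ∑ lu ∈ (Finset.Ico 1 U).sigma (fun lam => sphere J lam),
        (K * ((B : ℝ) / lu.1)) ^ (m - 1) := by
    have h1 : ∑ p ∈ P, f2 p ⊔ 0 = ∑ p ∈ P2, f p ⊔ 0 := by
      rw [hP2, Finset.sum_filter]
      refine Finset.sum_congr rfl fun p _ => ?_
      rw [hf2]
      simp only
      split_ifs
      · rfl
      · exact sup_idem 0
    rw [h1]
    refine card_le_sum_fib P2 _ _ (fun p (lu : (_ : ℕ) × (Fin N → ℤ)) => lu.2 ∈ Lat J α p.2)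
      (fun lu => (K * ((B : ℝ) / lu.1)) ^ (m - 1)) (fun lu _ => by positivity) _ ?_ ?_
    · intro p hp
      obtain ⟨-, lam, h2, h3, ⟨u, hu, hus⟩, h4⟩ := Finset.mem_filter.1 hp
      refine ⟨⟨lam, u⟩, ?_, hu, sup_le h4 (by positivity)⟩
      rw [Finset.mem_sigma, Finset.mem_Ico]
      exact ⟨⟨h2, h3⟩, hus⟩
    · rintro ⟨lam, u⟩ hlu T' hT' hT
      rw [Finset.mem_sigma, Finset.mem_Ico] at hlu
      obtain ⟨⟨h2, h3⟩, hus⟩ := hlu
      simp only at h2 h3 hus hT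
      obtain ⟨⟨g1, g2⟩, j, hj, g3⟩ := mem_sphere.1 hus
      have hT'P : T' ⊆ P := hT'.trans (Finset.filter_subset _ _)
      have hcard : T'.card = (T'.image fun p => p.2).card := by
        rw [Finset.card_image_of_injOn]
        intro p hp p' hp' h
        obtain ⟨-, i1, i2⟩ := hP p (hT'P hp)
        obtain ⟨-, i1', i2'⟩ := hP p' (hT'P hp')
        simp only at h
        rw [← h] at i1' i2'
        exact Prod.ext (modulus_unique J α a ha p.2 p.1 p'.1 i1 i2 i1' i2') h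
      rw [hcard]
      refine hC2 B hB u ?_ ?_ _ ?_
      · intro i
        by_cases hi : i ∈ J
        · refine (g1 i hi).trans ?_
          exact_mod_cast (h3.le.trans hUB)
        · rw [g2 i hi, abs_zero]; positivity
      · refine hind u g2 ?_
        rintro rfl
        rw [Pi.zero_apply, abs_zero] at g3
        omega
      · intro I hI
        obtain ⟨p, hp, rfl⟩ := Finset.mem_image.1 hI
        exact (hT p hp).2
  have b2' : ∑ lu ∈ (Finset.Ico 1 U).sigma (fun lam => sphere J lam),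
        (K * ((B : ℝ) / lu.1)) ^ (m - 1) ≤
      (2 * N * 3 ^ (m - 1)) * (K ^ (m - 1) * (U * (B : ℝ) ^ (m - 1))) := by
    rw [Finset.sum_sigma]
    have h1 : ∀ lam ∈ Finset.Ico 1 U, ∑ _u ∈ sphere J lam, (K * ((B : ℝ) / lam)) ^ (m - 1) ≤
        (2 * N * 3 ^ (m - 1)) * (K ^ (m - 1) * (B : ℝ) ^ (m - 1)) := by
      intro lam hlam
      rw [Finset.mem_Ico] at hlam
      have hl0 : (0 : ℝ) < lam := by exact_mod_cast hlam.1
      rw [Finset.sum_const, nsmul_eq_mul]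
      calc ((sphere J lam).card : ℝ) * (K * ((B : ℝ) / lam)) ^ (m - 1) ≤
            (2 * N * (3 * (lam : ℝ)) ^ (m - 1)) * (K * ((B : ℝ) / lam)) ^ (m - 1) :=
            mul_le_mul_of_nonneg_right (card_sphere J lam hlam.1) (by positivity)
        _ = (2 * N * 3 ^ (m - 1)) * ((lam : ℝ) * (K * ((B : ℝ) / lam))) ^ (m - 1) := by
            rw [mul_pow 3 (lam : ℝ), mul_pow (lam : ℝ)]; ring
        _ = _ := by
            have : (lam : ℝ) * (K * ((B : ℝ) / lam)) = K * B := by field_simp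
            rw [this, mul_pow]
    refine (Finset.sum_le_sum h1).trans ?_
    rw [Finset.sum_const, nsmul_eq_mul, Nat.card_Ico]
    have h2 : ((U - 1 : ℕ) : ℝ) ≤ U := by exact_mod_cast Nat.sub_le U 1
    calc ((U - 1 : ℕ) : ℝ) * ((2 * N * 3 ^ (m - 1)) * (K ^ (m - 1) * (B : ℝ) ^ (m - 1))) ≤
          U * ((2 * N * 3 ^ (m - 1)) * (K ^ (m - 1) * (B : ℝ) ^ (m - 1))) :=
          mul_le_mul_of_nonneg_right h2 (by positivity)
      _ = _ := by ring
  have b1' : ∑ _q ∈ Qs, (4 * ((B : ℝ) / U)) ^ m = 4 ^ m * (Qs.card * ((B : ℝ) / U) ^ m) := by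
    rw [Finset.sum_const, nsmul_eq_mul, mul_pow]; ring
  have b3' : ∑ q ∈ Qs, G * (B : ℝ) ^ m / q = G * (B : ℝ) ^ m * ∑ q ∈ Qs, 1 / (q : ℝ) := by
    rw [Finset.mul_sum]
    exact Finset.sum_congr rfl fun q _ => by ring
  rw [b1'] at b1
  rw [b3'] at b3
  have b2'' := b2.trans (mul_le_mul_of_nonneg_left b2' (by positivity))
  set X1 := (Qs.card : ℝ) * ((B : ℝ) / U) ^ m with hX1
  set X2 := K ^ (m - 1) * (U * (B : ℝ) ^ (m - 1)) with hX2
  set X3 := G * (B : ℝ) ^ m * ∑ q ∈ Qs, 1 / (q : ℝ) with hX3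
  have p1 : 0 ≤ X1 := by positivity
  have p2 : 0 ≤ X2 := by positivity
  have p3 : 0 ≤ X3 := by
    rw [hX3]
    exact mul_nonneg (by positivity) (Finset.sum_nonneg fun _ _ => by positivity)
  have p0 : 0 ≤ (B : ℝ) ^ ε := by positivity
  calc _ ≤ (C1 * (B : ℝ) ^ ε) * (4 ^ m * X1) + (C2 * (B : ℝ) ^ ε) * ((2 * N * 3 ^ (m - 1)) * X2) +
        (C1 * (B : ℝ) ^ ε) * X3 := add_le_add (add_le_add b1 b2'') b3
    _ = (B : ℝ) ^ ε * ((C1 * 4 ^ m) * X1 + (C2 * (2 * N * 3 ^ (m - 1))) * X2 + C1 * X3) := by ring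
    _ ≤ (B : ℝ) ^ ε * ((C1 * 4 ^ m + C2 * (2 * N * 3 ^ (m - 1)) + C1) * X1 +
        (C1 * 4 ^ m + C2 * (2 * N * 3 ^ (m - 1)) + C1) * X2 +
        (C1 * 4 ^ m + C2 * (2 * N * 3 ^ (m - 1)) + C1) * X3) := by
        refine mul_le_mul_of_nonneg_left ?_ p0
        have q1 : 0 ≤ C1 * 4 ^ m := by positivity
        have q2 : 0 ≤ C2 * (2 * N * 3 ^ (m - 1)) := by positivity
        refine add_le_add (add_le_add ?_ ?_) ?_
        · exact mul_le_mul_of_nonneg_right (by linarith) p1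
        · exact mul_le_mul_of_nonneg_right (by linarith) p2
        · exact mul_le_mul_of_nonneg_right (by linarith) p3
    _ = _ := by ring

end Pool.Agent.N445.DF
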