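import Mathlib
import Pool.Agent.N445.DF.A2
import Pool.Agent.N445.DF.A6

/-! # The points in a class modulo an ideal -/

set_option autoImplicit false

namespace Pool.Agent.N445.DF

open MvPolynomial Pool.Agent.TH910.Voj Pool.Agent.H813R3.Voj Pool.Agent.N445.VW NumberField

set_option linter.unusedSectionVars false

variable {E : Type} [Field E] [NumberField E] {N : ℕ}

theorem eval_ne_of_Lf (F : MvPolynomial (Fin N) ℤ) (α : Fin N → 𝓞 E) (d c : ℤ) (hF : NF F α d c)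
    (u : Fin N → ℤ) (hu : Lf α u ≠ 0) : eval u F ≠ 0 := by
  intro h
  have h1 := hF.eq u
  rw [h, mul_zero] at h1
  rcases mul_eq_zero.1 h1.symm with h2 | h2
  · exact hF.hc h2
  · exact hu (Algebra.norm_eq_zero_iff.1 h2)

/-- no short vectors -/
theorem fibre_sep (J : Finset (Fin N)) (z : Fin N → ℤ) (B U : ℕ) (hU : 1 ≤ U) (hUB : U ≤ B)
    (Lam : AddSubgroup (Fin N → ℤ)) (h : ∀ v ∈ Lam, v ≠ 0 → ∃ i, (U : ℤ) ≤ |v i|)
    (A : Finset (Fin N → ℤ)) (hA : A ⊆ sbox J z B) (hAL : ∀ x ∈ A, ∀ y ∈ A, x - y ∈ Lam) :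
    (A.card : ℝ) ≤ (4 * ((B : ℝ) / U)) ^ J.card := by
  have h1 := card_sep J z B U hU A hA fun x hx y hy hxy => by
    obtain ⟨i, hi⟩ := h (x - y) (hAL x hx y hy) (sub_ne_zero.2 hxy)
    exact ⟨i, hi⟩
  have hU0 : (0 : ℝ) < U := by exact_mod_cast hU
  have h2 : (A.card : ℝ) ≤ (2 * ((B / U : ℕ) : ℝ) + 2) ^ J.card := by exact_mod_cast h1
  refine h2.trans (pow_le_pow_left₀ (by positivity) ?_ _)
  have h3 : ((B / U : ℕ) : ℝ) ≤ (B : ℝ) / U := Nat.cast_div_le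
  have h4 : 1 ≤ (B : ℝ) / U := by
    rw [one_le_div hU0]; exact_mod_cast hUB
  linarith

/-- the data of the minimal vector -/
theorem fibre_min (J : Finset (Fin N)) (α : Fin N → 𝓞 E) (I : Ideal (𝓞 E)) (U : ℕ) :
    (∀ v ∈ Lat J α I, v ≠ 0 → ∃ i, (U : ℤ) ≤ |v i|) ∨
    ∃ lam : ℕ, 1 ≤ lam ∧ lam < U ∧ ∃ u ∈ Lat J α I, u ≠ 0 ∧ u ∈ sphere J lam ∧
      ∀ v ∈ Lat J α I, v ≠ 0 → ∃ i, (lam : ℤ) ≤ |v i| := by
  rcases exists_min (Lat J α I) U with h | ⟨lam, h1, h2, u, hu, hu0, hu1, ⟨i, hi⟩, hmin⟩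
  · exact Or.inl h
  · refine Or.inr ⟨lam, h1, h2, u, hu, hu0, ?_, hmin⟩
    rw [mem_sphere]
    refine ⟨⟨fun i _ => hu1 i, hu.1⟩, i, ?_, hi⟩
    by_contra hiJ
    rw [hu.1 i hiJ, abs_zero] at hi
    omega

theorem sep_of_min (Lam : AddSubgroup (Fin N → ℤ)) (lam : ℕ)
    (hmin : ∀ v ∈ Lam, v ≠ 0 → ∃ i, (lam : ℤ) ≤ |v i|) (A : Finset (Fin N → ℤ))
    (hAL : ∀ x ∈ A, ∀ y ∈ A, x - y ∈ Lam) :
    ∀ x ∈ A, ∀ y ∈ A, x ≠ y → ∃ i, (lam : ℤ) ≤ |x i - y i| := by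
  intro x hx y hy hxy
  obtain ⟨i, hi⟩ := hmin (x - y) (hAL x hx y hy) (sub_ne_zero.2 hxy)
  exact ⟨i, hi⟩

/-- **The points in a class.** -/
theorem fibre_p (J : Finset (Fin N)) (z : Fin N → ℤ) (B U : ℕ) (hU : 1 ≤ U) (hUB : U ≤ B)
    (α : Fin N → 𝓞 E) (I : Ideal (𝓞 E)) (A : Finset (Fin N → ℤ)) (hA : A ⊆ sbox J z B)
    (hAL : ∀ x ∈ A, ∀ y ∈ A, x - y ∈ Lat J α I)
    (a : Fin N → ℤ) (ha : ∀ i, i ∉ J → a i = 0) (q : ℕ) (hq1 : 1 ≤ q)
    (hq : ∀ t : ℤ, t • a ∈ Lat J α I → (q : ℤ) ∣ t) :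
    (A.card : ℝ) ≤ (4 * ((B : ℝ) / U)) ^ J.card ∨
      (∃ lam : ℕ, 1 ≤ lam ∧ lam < U ∧ (∃ u ∈ Lat J α I, u ∈ sphere J lam) ∧
        (A.card : ℝ) ≤ (4 * N * ((B : ℝ) / lam)) ^ (J.card - 1)) ∨
      (A.card : ℝ) ≤ (4 * N + 3) ^ J.card * (B : ℝ) ^ J.card / q := by
  rcases fibre_min J α I U with h | ⟨lam, h1, h2, u, hu, hu0, hus, hmin⟩
  · exact Or.inl (fibre_sep J z B U hU hUB _ h A hA hAL)
  · right
    have hB1 : (1 : ℝ) ≤ B := by exact_mod_cast hU.trans hUB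
    rcases span_or_hyper J A z (fun x hx i hi => (mem_sbox.1 (hA hx)).2 i hi) with
      ⟨l, hl, hlA⟩ | ⟨r, hr, dd, hd, hspan⟩
    · left
      exact ⟨lam, h1, h2, ⟨u, hu, hus⟩, card_hyper J z B lam h1 (h2.le.trans hUB) A hA
        (sep_of_min _ lam hmin A hAL) l hl hlA⟩
    · right
      have h3 := card_spanning J z B A hA (Lat J α I) hAL r hr dd hd hspan a ha q hq
      have hq0 : (0 : ℝ) < q := by exact_mod_cast hq1
      rw [le_div_iff₀ hq0, ← mul_pow]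
      have h4 : (q : ℝ) * A.card ≤ (2 * ((2 * N + 1) * B) + 1) ^ J.card := by exact_mod_cast h3
      rw [mul_comm]
      refine h4.trans (pow_le_pow_left₀ (by positivity) ?_ _)
      nlinarith

/-- the degenerate points -/
theorem card_deg {n : ℕ} (F : MvPolynomial (Fin (n + 1)) ℤ) {k : ℕ} (hk : F.IsHomogeneous k)
    (hk1 : 1 ≤ k) (hirr : Irreducible (toQ F)) (α : Fin (n + 1) → 𝓞 E) (d c : ℤ)
    (hF : NF F α d c) (J : Finset (Fin (n + 1)))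
    (hJ : ∀ i, (α i : E) ∈ Submodule.span ℚ ((fun j => (α j : E)) '' (J : Set (Fin (n + 1)))))
    (z : Fin (n + 1) → ℤ) (B lam : ℕ) (hlam : 1 ≤ lam) (hlamB : lam ≤ B)
    (A : Finset (Fin (n + 1) → ℤ)) (hA : A ⊆ sbox J z B)
    (hsep : ∀ x ∈ A, ∀ y ∈ A, x ≠ y → ∃ i, (lam : ℤ) ≤ |x i - y i|)
    (u : Fin (n + 1) → ℤ) (hu : eval u F ≠ 0)
    (hdeg : ∀ x ∈ A, eval (Fin.append u x) (Phi F k) = 0) :
    (A.card : ℝ) ≤ (Fintype.card (E →ₐ[ℚ] ℂ) : ℝ) ^ 2 *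
      (4 * (n + 1 : ℕ) * ((B : ℝ) / lam)) ^ (J.card - 1) := by
  classical
  set Pr : Finset ((E →ₐ[ℚ] ℂ) × (E →ₐ[ℚ] ℂ)) := Finset.univ.filter fun p => p.1 ≠ p.2 with hPr
  have hsub : A ⊆ Pr.biUnion fun p => A.filter fun x => ell α u p.1 p.2 (Lf α x) = 0 := by
    intro x hx
    obtain ⟨σ, τ, h1, h2⟩ := Phi_zero_cases F hk hk1 α d c hF u x hu (hdeg x hx)
    rw [Finset.mem_biUnion]
    exact ⟨(σ, τ), Finset.mem_filter.2 ⟨Finset.mem_univ _, h1⟩, Finset.mem_filter.2 ⟨hx, h2⟩⟩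
  have h1 : ∀ p ∈ Pr, ((A.filter fun x => ell α u p.1 p.2 (Lf α x) = 0).card : ℝ) ≤
      (4 * (n + 1 : ℕ) * ((B : ℝ) / lam)) ^ (J.card - 1) := by
    intro p hp
    refine card_hyper J z B lam hlam hlamB _ ((Finset.filter_subset _ _).trans hA) ?_
      (fun j => ell α u p.1 p.2 (α j))
      (ell_ne F hk hk1 hirr α d c hF J hJ u hu p.1 p.2 (Finset.mem_filter.1 hp).2) ?_
    · intro x hx y hy
      exact hsep x (Finset.mem_filter.1 hx).1 y (Finset.mem_filter.1 hy).1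
    · intro x hx y hy
      obtain ⟨hx1, hx2⟩ := Finset.mem_filter.1 hx
      obtain ⟨hy1, hy2⟩ := Finset.mem_filter.1 hy
      rw [ell_Lf] at hx2 hy2
      have h2 : ∑ j ∈ J, ell α u p.1 p.2 (α j) * ((x j - y j : ℤ) : ℂ) =
          ∑ j, ell α u p.1 p.2 (α j) * ((x j - y j : ℤ) : ℂ) := by
        refine Finset.sum_subset (Finset.subset_univ J) fun i _ hi => ?_
        rw [(mem_sbox.1 (hA hx1)).2 i hi, (mem_sbox.1 (hA hy1)).2 i hi, sub_self]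
        simp
      rw [h2]
      have h3 : ∑ j, ell α u p.1 p.2 (α j) * ((x j - y j : ℤ) : ℂ) =
          ∑ j, ell α u p.1 p.2 (α j) * ((x j : ℤ) : ℂ) -
          ∑ j, ell α u p.1 p.2 (α j) * ((y j : ℤ) : ℂ) := by
        rw [← Finset.sum_sub_distrib]
        refine Finset.sum_congr rfl fun j _ => ?_
        push_cast
        ring
      rw [h3, hx2, hy2, sub_self]
  have h2 : (A.card : ℝ) ≤ ∑ p ∈ Pr, ((A.filter fun x => ell α u p.1 p.2 (Lf α x) = 0).card : ℝ) := by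
    exact_mod_cast (Finset.card_le_card hsub).trans Finset.card_biUnion_le
  refine h2.trans ((Finset.sum_le_sum h1).trans ?_)
  rw [Finset.sum_const, nsmul_eq_mul]
  refine mul_le_mul_of_nonneg_right ?_ (by positivity)
  have h3 : Pr.card ≤ Fintype.card (E →ₐ[ℚ] ℂ) ^ 2 := by
    refine (Finset.card_le_univ Pr).trans ?_
    rw [Fintype.card_prod, sq]
  exact_mod_cast h3

/-- the points on the lines -/
theorem card_lines (A Acl : Finset (Fin N → ℤ)) (u : Fin N → ℤ) (R0 M : ℕ)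
    (hmap : ∀ x ∈ A, ∀ t : ℤ, |t| ≤ R0 → x + t • u ∈ Acl)
    (hline : ∀ x ∈ A, ∀ T : Finset ℤ, (∀ t ∈ T, x + t • u ∈ A) → T.card ≤ M) :
    A.card * (2 * R0 + 1) ≤ M * Acl.card := by
  classical
  have hc : A.card * (2 * R0 + 1) = (A ×ˢ Finset.Icc (-(R0 : ℤ)) R0).card := by
    rw [Finset.card_product, card_Icc_int]
  rw [hc]
  refine Finset.card_le_mul_card_image_of_maps_to (f := fun p : (Fin N → ℤ) × ℤ => p.1 + p.2 • u)
    (t := Acl) ?_ M ?_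
  · intro p hp
    rw [Finset.mem_product, Finset.mem_Icc, ← abs_le] at hp
    exact hmap p.1 hp.1 p.2 hp.2
  · intro y _
    rcases Finset.eq_empty_or_nonempty ((A ×ˢ Finset.Icc (-(R0 : ℤ)) R0).filter
      fun p : (Fin N → ℤ) × ℤ => p.1 + p.2 • u = y) with h | ⟨p1, hp1⟩
    · rw [h]; exact Nat.zero_le _
    · rw [Finset.mem_filter, Finset.mem_product] at hp1
      obtain ⟨⟨h1, h2⟩, h3⟩ := hp1
      have h4 := hline p1.1 h1 ((((A ×ˢ Finset.Icc (-(R0 : ℤ)) R0).filter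
        fun p : (Fin N → ℤ) × ℤ => p.1 + p.2 • u = y)).image fun p => p1.2 - p.2) (by
        intro t ht
        rw [Finset.mem_image] at ht
        obtain ⟨p, hp, rfl⟩ := ht
        rw [Finset.mem_filter, Finset.mem_product] at hp
        have : p1.1 + (p1.2 - p.2) • u = p.1 := by
          have e1 : p1.1 = y - p1.2 • u := by rw [← h3]; abel
          have e2 : p.1 = y - p.2 • u := by rw [← hp.2]; abel
          rw [e1, e2, sub_smul]; abel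
        rw [this]
        exact hp.1.1)
      refine le_trans ?_ h4
      rw [Finset.card_image_of_injOn]
      intro p hp p' hp' h
      rw [Finset.mem_coe, Finset.mem_filter] at hp hp'
      simp only at h
      have h5 : p.2 = p'.2 := by omega
      refine Prod.ext ?_ h5
      have h6 := hp.2.trans hp'.2.symm
      rw [h5] at h6
      exact add_right_cancel h6

end Pool.Agent.N445.DF
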