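import Mathlib
import Pool.Agent.N445.DF.A7

/-! # The points in a class with values of a given shape -/

set_option autoImplicit false

namespace Pool.Agent.N445.DF

open MvPolynomial Pool.Agent.TH910.Voj Pool.Agent.H813R3.Voj Pool.Agent.N445.VW NumberField

set_option linter.unusedSectionVars false

variable {E : Type} [Field E] [NumberField E]

theorem gain (B lam U R R0 : ℕ) (C : ℝ) (hC : 0 ≤ C) (hlam : 1 ≤ lam) (hlamU : lam ≤ U)
    (hUB : U ≤ B) (hR : R = 2 * B / lam) (hR0 : R0 = B / lam) :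
    C * (R : ℝ) ^ ((3 : ℝ) / 4) / (2 * R0 + 1 : ℕ) ≤ 2 * C * ((U : ℝ) / B) ^ ((1 : ℝ) / 4) := by
  have hB1 : 1 ≤ B := hlam.trans (hlamU.trans hUB)
  have hl0 : (0 : ℝ) < lam := by exact_mod_cast hlam
  have hB0 : (0 : ℝ) < B := by exact_mod_cast hB1
  have hU0 : (0 : ℝ) < U := by exact_mod_cast hlam.trans hlamU
  set X : ℝ := (B : ℝ) / lam with hX
  have hX0 : 0 < X := by positivity
  have h1 : (R : ℝ) ≤ 2 * X := by
    rw [hR]
    refine Nat.cast_div_le.trans ?_
    rw [hX]; push_cast; rw [mul_div_assoc]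
  have h2 : X ≤ (2 * R0 + 1 : ℕ) := by
    have h3 : B < lam * (B / lam + 1) := Nat.lt_mul_div_succ B hlam
    have h4 : (B : ℝ) ≤ lam * ((B / lam : ℕ) + 1) := by exact_mod_cast h3.le
    rw [hX, div_le_iff₀ hl0, hR0]
    push_cast
    have h5 : (0 : ℝ) ≤ ((B / lam : ℕ) : ℝ) := Nat.cast_nonneg _
    nlinarith
  have h3 : (R : ℝ) ^ ((3 : ℝ) / 4) ≤ 2 * X ^ ((3 : ℝ) / 4) := by
    calc (R : ℝ) ^ ((3 : ℝ) / 4) ≤ (2 * X) ^ ((3 : ℝ) / 4) :=
          Real.rpow_le_rpow (Nat.cast_nonneg _) h1 (by norm_num)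
      _ = 2 ^ ((3 : ℝ) / 4) * X ^ ((3 : ℝ) / 4) := Real.mul_rpow (by norm_num) hX0.le
      _ ≤ 2 * X ^ ((3 : ℝ) / 4) := by
          refine mul_le_mul_of_nonneg_right ?_ (by positivity)
          calc (2 : ℝ) ^ ((3 : ℝ) / 4) ≤ 2 ^ (1 : ℝ) :=
                Real.rpow_le_rpow_of_exponent_le (by norm_num) (by norm_num)
            _ = 2 := Real.rpow_one 2
  have h4 : X ^ ((3 : ℝ) / 4) / X ≤ ((U : ℝ) / B) ^ ((1 : ℝ) / 4) := by
    have h5 : X ^ ((3 : ℝ) / 4) / X = (X⁻¹) ^ ((1 : ℝ) / 4) := by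
      rw [Real.inv_rpow hX0.le, ← Real.rpow_neg hX0.le]
      have : X ^ ((3 : ℝ) / 4) / X = X ^ ((3 : ℝ) / 4) / X ^ (1 : ℝ) := by rw [Real.rpow_one]
      rw [this, ← Real.rpow_sub hX0]
      norm_num
    rw [h5]
    refine Real.rpow_le_rpow (by positivity) ?_ (by norm_num)
    rw [hX, inv_div]
    exact div_le_div_of_nonneg_right (by exact_mod_cast hlamU) hB0.le
  have h5 : (0 : ℝ) < (2 * R0 + 1 : ℕ) := by positivity
  calc C * (R : ℝ) ^ ((3 : ℝ) / 4) / (2 * R0 + 1 : ℕ) ≤
        C * (2 * X ^ ((3 : ℝ) / 4)) / X := by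
        refine div_le_div₀ (by positivity) (mul_le_mul_of_nonneg_left h3 hC) hX0 h2
    _ = 2 * C * (X ^ ((3 : ℝ) / 4) / X) := by ring
    _ ≤ _ := mul_le_mul_of_nonneg_left h4 (by positivity)

/-- **The points in a class with values of a given shape.** -/
theorem fibre_s {n : ℕ} (F : MvPolynomial (Fin (n + 1)) ℤ) {k : ℕ} (hk : F.IsHomogeneous k)
    (hk2 : 2 ≤ k) (hirr : Irreducible (toQ F)) (α : Fin (n + 1) → 𝓞 E) (d c : ℤ)
    (hF : NF F α d c) (J : Finset (Fin (n + 1)))
    (hJ : ∀ i, (α i : E) ∈ Submodule.span ℚ ((fun j => (α j : E)) '' (J : Set (Fin (n + 1)))))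
    (hind : ∀ u : Fin (n + 1) → ℤ, (∀ i, i ∉ J → u i = 0) → u ≠ 0 → Lf α u ≠ 0)
    (hm : 2 ≤ J.card) (e : ℕ) (he : 2 ≤ e) (D A' : ℕ) :
    ∃ K G : ℝ, 0 < K ∧ 0 < G ∧ ∀ B U : ℕ, 1 ≤ U → U ≤ B → B ^ D ≤ (B / U) ^ A' →
      (∀ u ∈ box (n + 1) B, ∀ v ∈ box (n + 1) B,
        (eval (Fin.append u v) (Phi F k)).natAbs * (e * B ^ (k + n + 2)) ≤ B ^ D) →
      ∀ (z : Fin (n + 1) → ℤ) (I : Ideal (𝓞 E)) (a : Fin (n + 1) → ℤ), (∀ i, i ∉ J → a i = 0) →
      ∀ q : ℕ, 1 ≤ q → (∀ t : ℤ, t • a ∈ Lat J α I → (q : ℤ) ∣ t) →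
      ∀ σ : ℤ, σ ≠ 0 → σ.natAbs ≤ B ^ (k + n + 2) →
      ∀ A : Finset (Fin (n + 1) → ℤ), A ⊆ sbox J z B → A ⊆ box (n + 1) B →
      (∀ x ∈ A, ∀ y ∈ A, x - y ∈ Lat J α I) →
      (∀ x ∈ A, ∃ w : ℤ, |w| ≤ (B : ℤ) ^ D ∧ eval x F = σ * w ^ e) →
      ((A.card : ℝ) ≤ (4 * ((B : ℝ) / U)) ^ J.card ∨
      (∃ lam : ℕ, 1 ≤ lam ∧ lam < U ∧ (∃ u ∈ Lat J α I, u ∈ sphere J lam) ∧
        (A.card : ℝ) ≤ (K * ((B : ℝ) / lam)) ^ (J.card - 1)) ∨
      (A.card : ℝ) ≤ G * ((U : ℝ) / B) ^ ((1 : ℝ) / 4) * (B : ℝ) ^ J.card / q) := by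
  classical
  have hk1 : 1 ≤ k := by omega
  obtain ⟨C, hC0, hC⟩ := line_card F hk hk2 e (by omega) A' (1 / 4) (by norm_num)
  set g : ℝ := (Fintype.card (E →ₐ[ℚ] ℂ) : ℝ) ^ 2 with hg
  set N : ℝ := ((n + 1 : ℕ) : ℝ) with hN
  have hN1 : 1 ≤ N := by rw [hN]; exact_mod_cast Nat.le_add_left 1 n
  set K : ℝ := (2 * g + 1) * (4 * N) with hK
  set G : ℝ := 2 * ((2 * C) * (8 * N + 5) ^ J.card) with hG
  refine ⟨K, G, by positivity, by positivity, ?_⟩
  intro B U hU hUB hBD hΦ z I a ha q hq1 hq σ hσ hσB A hA hAb hAL hval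
  have hB1n : 1 ≤ B := hU.trans hUB
  have hB1 : (1 : ℝ) ≤ B := by exact_mod_cast hB1n
  have hB0 : (0 : ℝ) < B := by linarith
  rcases A.eq_empty_or_nonempty with rfl | ⟨x0, hx0⟩
  · left; rw [Finset.card_empty, Nat.cast_zero]; positivity
  rcases fibre_min J α I U with h | ⟨lam, h1, h2, u, hu, hu0, hus, hmin⟩
  · exact Or.inl (fibre_sep J z B U hU hUB _ h A hA hAL)
  right
  have hlamB : lam ≤ B := h2.le.trans hUB
  have hl0 : (0 : ℝ) < lam := by exact_mod_cast h1
  obtain ⟨⟨hu1, hu2⟩, j1, hj1, hu3⟩ := mem_sphere.1 hus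
  have hub : ∀ i, |u i| ≤ lam := by
    intro i
    by_cases hi : i ∈ J
    · exact hu1 i hi
    · rw [hu2 i hi, abs_zero]; positivity
  set Acl : Finset (Fin (n + 1) → ℤ) := (sbox J z (2 * B)).filter fun y => y - x0 ∈ Lat J α I
    with hAcl
  have hAclL : ∀ x ∈ Acl, ∀ y ∈ Acl, x - y ∈ Lat J α I := by
    intro x hx y hy
    have e1 := (Finset.mem_filter.1 hx).2
    have e2 := (Finset.mem_filter.1 hy).2
    have e3 : x - y = (x - x0) - (y - x0) := by abel
    rw [e3]
    exact AddSubgroup.sub_mem _ e1 e2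
  have hAAcl : A ⊆ Acl := by
    intro x hx
    rw [hAcl, Finset.mem_filter]
    refine ⟨?_, hAL x hx x0 hx0⟩
    have e1 := mem_sbox.1 (hA hx)
    rw [mem_sbox]
    refine ⟨fun i hi => (e1.1 i hi).trans ?_, e1.2⟩
    push_cast
    have : (0 : ℤ) ≤ B := Int.natCast_nonneg _
    linarith
  have hgN : ∀ X : ℝ, X ≤ (4 * N * ((B : ℝ) / lam)) ^ (J.card - 1) * (2 * g + 1) →
      X ≤ (K * ((B : ℝ) / lam)) ^ (J.card - 1) := by
    intro X hX
    refine hX.trans ?_
    have e1 : K * ((B : ℝ) / lam) = (4 * N * ((B : ℝ) / lam)) * (2 * g + 1) := by rw [hK]; ring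
    rw [e1, mul_pow (4 * N * ((B : ℝ) / lam))]
    refine mul_le_mul_of_nonneg_left ?_ (by positivity)
    have hg0 : 0 ≤ g := by positivity
    exact le_self_pow₀ (by linarith) (by omega)
  rcases span_or_hyper J Acl z (fun x hx i hi => (mem_sbox.1 (Finset.mem_filter.1 hx).1).2 i hi)
    with ⟨l, hl, hlA⟩ | ⟨r, hr, dd, hd, hspan⟩
  · left
    refine ⟨lam, h1, h2, ⟨u, hu, hus⟩, hgN _ ?_⟩
    have h3 := card_hyper J z B lam h1 hlamB A hA (sep_of_min _ lam hmin A hAL) l hl
      fun x hx y hy => hlA x (hAAcl hx) y (hAAcl hy)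
    refine h3.trans (le_mul_of_one_le_right (by positivity) ?_)
    have hg0 : 0 ≤ g := by positivity
    linarith
  · have h3 := card_spanning J z (2 * B) Acl (Finset.filter_subset _ _) (Lat J α I) hAclL r hr dd hd
      hspan a ha q hq
    have hq0 : (0 : ℝ) < q := by exact_mod_cast hq1
    have h4 : (Acl.card : ℝ) ≤ ((8 * N + 5) * B) ^ J.card / q := by
      rw [le_div_iff₀ hq0, mul_comm]
      have h5 : (q : ℝ) * Acl.card ≤ (2 * ((2 * N + 1) * (2 * B)) + 1) ^ J.card := by
        rw [hN]; exact_mod_cast h3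
      refine h5.trans (pow_le_pow_left₀ (by positivity) ?_ _)
      nlinarith
    have hFu : eval u F ≠ 0 := eval_ne_of_Lf F α d c hF u (hind u hu2 hu0)
    set Ad := A.filter fun x => eval (Fin.append u x) (Phi F k) = 0 with hAd
    set An := A.filter fun x => ¬ eval (Fin.append u x) (Phi F k) = 0 with hAn
    have hsum : A.card = Ad.card + An.card := (Finset.card_filter_add_card_filter_not _).symm
    have hsumR : (A.card : ℝ) = Ad.card + An.card := by exact_mod_cast hsum
    have hsep := sep_of_min _ lam hmin A hAL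
    have hd1 : (Ad.card : ℝ) ≤ g * (4 * N * ((B : ℝ) / lam)) ^ (J.card - 1) := by
      refine card_deg F hk hk1 hirr α d c hF J hJ z B lam h1 hlamB Ad
        ((Finset.filter_subset _ _).trans hA) ?_ u hFu fun x hx => (Finset.mem_filter.1 hx).2
      intro x hx y hy
      exact hsep x (Finset.mem_filter.1 hx).1 y (Finset.mem_filter.1 hy).1
    by_cases hcase : (An.card : ℝ) ≤ Ad.card
    · left
      refine ⟨lam, h1, h2, ⟨u, hu, hus⟩, hgN _ ?_⟩
      have hpp : 0 ≤ (4 * N * ((B : ℝ) / lam)) ^ (J.card - 1) := by positivity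
      nlinarith
    · right
      push Not at hcase
      set R := 2 * B / lam with hR
      set R0 := B / lam with hR0
      have hRU : B / U ≤ R := by
        rw [hR]
        refine (Nat.div_le_div_left h2.le h1).trans (Nat.div_le_div_right (by omega))
      have hR1 : 1 ≤ R := by
        refine le_trans ?_ hRU
        exact (Nat.one_le_div_iff hU).2 hUB
      have hBR : B ^ D ≤ R ^ A' := hBD.trans (Nat.pow_le_pow_left hRU _)
      set M := ⌊C * (R : ℝ) ^ ((3 : ℝ) / 4)⌋₊ with hM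
      have hlines := card_lines An Acl u R0 M (by
        intro x hx t ht
        have hxA := (Finset.mem_filter.1 hx).1
        rw [hAcl, Finset.mem_filter]
        constructor
        · have e1 := mem_sbox.1 (hA hxA)
          rw [mem_sbox]
          refine ⟨fun i hi => ?_, fun i hi => ?_⟩
          · rw [Pi.add_apply, Pi.smul_apply, smul_eq_mul]
            have e2 : |t * u i| ≤ R0 * lam := by
              rw [abs_mul]
              exact mul_le_mul ht (hub i) (abs_nonneg _) (by positivity)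
            have e3 : ((R0 : ℕ) : ℤ) * lam ≤ B := by
              rw [hR0]; exact_mod_cast Nat.div_mul_le_self B lam
            have e4 := abs_add_le (x i) (t * u i)
            have e5 := e1.1 i hi
            push_cast
            linarith
          · rw [Pi.add_apply, Pi.smul_apply, hu2 i hi, smul_zero, add_zero]
            exact e1.2 i hi
        · have e3 : x + t • u - x0 = (x - x0) + t • u := by abel
          rw [e3]
          exact AddSubgroup.add_mem _ (hAL x hxA x0 hx0) (AddSubgroup.zsmul_mem _ hu _)) (by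
        intro x hx T hT
        obtain ⟨hxA, hxΦ⟩ := Finset.mem_filter.1 hx
        rw [hM]
        refine Nat.le_floor ?_
        have hbu : u ∈ box (n + 1) B := mem_box.2 fun i => (hub i).trans (by exact_mod_cast hlamB)
        set N' := (eval (Fin.append u x) (Phi F k)).natAbs * (e * σ.natAbs) with hN'
        have hN'B : N' ≤ B ^ D := by
          refine le_trans ?_ (hΦ u hbu x (hAb hxA))
          exact Nat.mul_le_mul_left _ (Nat.mul_le_mul_left _ hσB)
        have hN'1 : 1 ≤ N' := by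
          have e1 : 0 < (eval (Fin.append u x) (Phi F k)).natAbs := Int.natAbs_pos.2 hxΦ
          have e2 : 0 < σ.natAbs := Int.natAbs_pos.2 hσ
          exact Nat.mul_pos e1 (Nat.mul_pos (by omega) e2)
        have h5 := hC R hR1 u x hxΦ 1 0 0 1 (by norm_num) σ hσ N' hN'1 (hN'B.trans hBR)
          (by
            rw [← Int.dvd_natAbs, hN', Int.natAbs_natCast]
            exact Int.natAbs_dvd_natAbs.1 (by
              rw [Int.natAbs_natCast]
              exact Dvd.dvd.mul_left (Dvd.intro_left _ rfl) _))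
          (Dvd.dvd.mul_left (Dvd.intro _ rfl) _)
          (by
            exact Int.natAbs_dvd_natAbs.1 (by
              rw [Int.natAbs_natCast]
              exact Dvd.intro _ rfl))
          (by norm_num) T (by
            intro t ht
            have hxt := hT t ht
            obtain ⟨hxt1, -⟩ := Finset.mem_filter.1 hxt
            refine ⟨?_, ?_⟩
            · have e1 := (mem_sbox.1 (hA hxA)).1 j1 hj1
              have e2 := (mem_sbox.1 (hA hxt1)).1 j1 hj1
              rw [Pi.add_apply, Pi.smul_apply, smul_eq_mul] at e2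
              have e3 : |t| * lam ≤ 2 * B := by
                rw [← hu3, ← abs_mul]
                have e4 : t * u j1 = (x j1 + t * u j1) - x j1 := by ring
                rw [e4]
                refine (abs_sub _ _).trans ?_
                linarith
              rw [hR]
              have e5 : |t| = ((t.natAbs : ℕ) : ℤ) := Int.abs_eq_natAbs t
              rw [e5] at e3 ⊢
              have e6 : t.natAbs * lam ≤ 2 * B := by exact_mod_cast e3
              exact_mod_cast (Nat.le_div_iff_mul_le h1).2 e6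
            · obtain ⟨w, hw1, hw2⟩ := hval _ hxt1
              refine ⟨w, hw1.trans (by exact_mod_cast hBR), ?_⟩
              rw [← hw2]
              have : pt u x (0 + t * 1) (1 + t * 0) = x + t • u := by
                funext i; unfold pt; simp; ring
              rw [this])
        refine h5.trans ?_
        refine mul_le_mul_of_nonneg_left ?_ hC0.le
        refine Real.rpow_le_rpow_of_exponent_le (by exact_mod_cast hR1) ?_
        have e1 : (1 : ℝ) / e ≤ 1 / 2 :=
          one_div_le_one_div_of_le (by norm_num) (by exact_mod_cast he)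
        linarith)
      have h5 : (An.card : ℝ) * (2 * R0 + 1 : ℕ) ≤ M * Acl.card := by exact_mod_cast hlines
      have hM1 : (M : ℝ) ≤ C * (R : ℝ) ^ ((3 : ℝ) / 4) := Nat.floor_le (by positivity)
      have h6 : (0 : ℝ) < (2 * R0 + 1 : ℕ) := by positivity
      have h7 : (An.card : ℝ) ≤ (C * (R : ℝ) ^ ((3 : ℝ) / 4) / (2 * R0 + 1 : ℕ)) * Acl.card := by
        rw [div_mul_eq_mul_div, le_div_iff₀ h6]
        exact h5.trans (mul_le_mul_of_nonneg_right hM1 (Nat.cast_nonneg _))
      have h8 := gain B lam U R R0 C hC0.le h1 h2.le hUB rfl rfl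
      have h9 : (An.card : ℝ) ≤ (2 * C * ((U : ℝ) / B) ^ ((1 : ℝ) / 4)) *
          (((8 * N + 5) * B) ^ J.card / q) :=
        h7.trans (mul_le_mul h8 h4 (Nat.cast_nonneg _) (by positivity))
      have h10 : (A.card : ℝ) ≤ 2 * An.card := by linarith
      refine h10.trans ?_
      calc 2 * (An.card : ℝ) ≤ 2 * ((2 * C * ((U : ℝ) / B) ^ ((1 : ℝ) / 4)) *
          (((8 * N + 5) * B) ^ J.card / q)) := by linarith
        _ = _ := by rw [hG, mul_pow]; ring

end Pool.Agent.N445.DF
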