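import Mathlib
import Pool.Agent.N445.DF.A8

/-! # Sparse sets: norm forms -/

set_option autoImplicit false

namespace Pool.Agent.N445.DF

open MvPolynomial Pool.Agent.TH910.Voj Pool.Agent.H813R3.Voj Pool.Agent.N445.VW NumberField

set_option linter.unusedSectionVars false

variable {E : Type} [Field E] [NumberField E] {N : ℕ}

theorem sparse_of_card {n : ℕ} (P : ℕ → (Fin n → ℤ) → Prop) (c C : ℝ) (hc : 0 < c) (hC : 0 < C)
    (B₀ : ℕ) (h : ∀ B : ℕ, B₀ ≤ B → 1 ≤ B → ∀ Z : Finset (Fin n → ℤ), Z ⊆ box n B →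
      (∀ x ∈ Z, P B x) → (Z.card : ℝ) ≤ C * (B : ℝ) ^ ((n : ℝ) - c)) : Sparse n P := by
  classical
  have hmain : Sparse n (fun B x => B₀ ≤ B ∧ P B x) := by
    refine ⟨c, hc, C, hC, fun B hB => ?_⟩
    have hB1 : (1 : ℝ) ≤ B := by exact_mod_cast hB
    set Z := (box n B).filter (fun x => B₀ ≤ B ∧ P B x) with hZ
    have hcard : (Set.ncard {x | x ∈ box n B ∧ (B₀ ≤ B ∧ P B x)} : ℝ) = Z.card := by
      rw [← Set.ncard_coe_finset]
      congr 2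
      ext x; simp [hZ]
    rw [hcard]
    by_cases hBB : B₀ ≤ B
    · exact h B hBB hB Z (Finset.filter_subset _ _) fun x hx => (Finset.mem_filter.1 hx).2.2
    · have : Z = ∅ := by
        rw [hZ]
        exact Finset.filter_eq_empty_iff.2 fun x _ hx => hBB hx.1
      rw [this, Finset.card_empty, Nat.cast_zero]
      positivity
  exact hmain.of_eventually B₀ fun B x h1 _ _ h3 => ⟨h1, h3⟩

/-- fixing the outer coordinates -/
theorem card_outer (J : Finset (Fin N)) (B : ℕ) (Z : Finset (Fin N → ℤ)) (hZ : Z ⊆ box N B)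
    (M : ℝ) (h : ∀ z, ∀ A ⊆ Z, A ⊆ sbox J z B → (A.card : ℝ) ≤ M) :
    (Z.card : ℝ) ≤ (2 * B + 1) ^ (N - J.card) * M := by
  classical
  set r : (Fin N → ℤ) → (Fin N → ℤ) := fun x i => if i ∈ J then 0 else x i with hr
  have h1 : Z.card = ∑ z ∈ sbox Jᶜ 0 B, (Z.filter fun x => r x = z).card := by
    refine Finset.card_eq_sum_card_fiberwise fun x hx => ?_
    rw [Finset.mem_coe, mem_sbox]
    have hx' := mem_box.1 (hZ hx)
    refine ⟨fun i hi => ?_, fun i hi => ?_⟩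
    · rw [Finset.mem_compl] at hi
      rw [hr]; simp only; rw [if_neg hi]
      exact hx' i
    · rw [Finset.mem_compl, not_not] at hi
      rw [hr]; simp only; rw [if_pos hi]; rfl
  have h2 : (Z.card : ℝ) = ∑ z ∈ sbox Jᶜ 0 B, ((Z.filter fun x => r x = z).card : ℝ) := by
    rw [h1]; push_cast; rfl
  have h3 : ∀ z ∈ sbox Jᶜ 0 B, ((Z.filter fun x => r x = z).card : ℝ) ≤ M := by
    intro z _
    refine h z _ (Finset.filter_subset _ _) ?_
    intro x hx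
    obtain ⟨hx1, hx2⟩ := Finset.mem_filter.1 hx
    rw [mem_sbox]
    refine ⟨fun i _ => mem_box.1 (hZ hx1) i, fun i hi => ?_⟩
    have := congrFun hx2 i
    rw [hr] at this
    simp only at this
    rwa [if_neg hi] at this
  rw [h2]
  refine (Finset.sum_le_sum h3).trans (le_of_eq ?_)
  rw [Finset.sum_const, nsmul_eq_mul, card_sbox, Finset.card_compl, Fintype.card_fin]
  push_cast
  rfl

/-- the points with a modulus, by the classes -/
theorem card_by_pairs (F : MvPolynomial (Fin N) ℤ) {k : ℕ} (hk : F.IsHomogeneous k)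
    (α : Fin N → 𝓞 E) (d c : ℤ) (hF : NF F α d c) (J : Finset (Fin N))
    (hind : ∀ u : Fin N → ℤ, (∀ i, i ∉ J → u i = 0) → u ≠ 0 → Lf α u ≠ 0)
    (a : Fin N → ℤ) (ha : ∀ i, i ∉ J → a i = 0) (A0 : ℕ) (ε : ℝ) (hε : 0 < ε) :
    ∃ C : ℝ, 0 < C ∧ ∀ B U : ℕ, 1 ≤ U → U ≤ B → ∀ Qs : Finset ℕ, (∀ q ∈ Qs, 1 ≤ q ∧ q ≤ B ^ A0) →
      ∀ (z : Fin N → ℤ) (A : Finset (Fin N → ℤ)), A ⊆ sbox J z B → ∀ qf : (Fin N → ℤ) → ℕ,
      (∀ x ∈ A, qf x ∈ Qs ∧ (qf x : ℤ) ∣ eval x F ∧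
        IsCoprime (qf x : ℤ) (d * c * eval x (dder a F))) →
      ∀ (K G : ℝ), 0 ≤ K → 0 ≤ G →
      (∀ (I : Ideal (𝓞 E)) (q : ℕ), 1 ≤ q → (∀ t : ℤ, t • a ∈ Lat J α I → (q : ℤ) ∣ t) →
        ∀ A' ⊆ A, (∀ x ∈ A', qf x = q) → (∀ x ∈ A', ∀ y ∈ A', x - y ∈ Lat J α I) →
        ((A'.card : ℝ) ≤ (4 * ((B : ℝ) / U)) ^ J.card ∨
        (∃ lam : ℕ, 1 ≤ lam ∧ lam < U ∧ (∃ u ∈ Lat J α I, u ∈ sphere J lam) ∧
          (A'.card : ℝ) ≤ (K * ((B : ℝ) / lam)) ^ (J.card - 1)) ∨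
        (A'.card : ℝ) ≤ G * (B : ℝ) ^ J.card / q)) →
      (A.card : ℝ) ≤ C * (B : ℝ) ^ ε * (Qs.card * ((B : ℝ) / U) ^ J.card +
        K ^ (J.card - 1) * (U * (B : ℝ) ^ (J.card - 1)) +
        G * (B : ℝ) ^ J.card * ∑ q ∈ Qs, 1 / (q : ℝ)) := by
  classical
  obtain ⟨C, hC0, hC⟩ := sum_pairs F hk α d c hF J hind a ha A0 ε hε
  refine ⟨C, hC0, fun B U hU hUB Qs hQs z A hA qf hqf K G hK hG hcases => ?_⟩
  set pf : (Fin N → ℤ) → ℕ × Ideal (𝓞 E) := fun x => (qf x, Ideal.span {(qf x : 𝓞 E), Lf α x})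
    with hpf
  have hlat : ∀ x ∈ A, ∀ t : ℤ, t • a ∈ Lat J α (pf x).2 → ((pf x).1 : ℤ) ∣ t := by
    intro x hx t ht
    obtain ⟨h1, h2, h3⟩ := hqf x hx
    exact Lat_index F α d c hF J a x (qf x) (hQs _ h1).1 h3 h2 t ht
  have hcard : (A.card : ℝ) = ∑ p ∈ A.image pf, ((A.filter fun x => pf x = p).card : ℝ) := by
    have := Finset.card_eq_sum_card_fiberwise (s := A) (t := A.image pf) (f := pf)
      (fun x hx => Finset.mem_coe.2 (Finset.mem_image_of_mem _ hx))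
    rw [this]; push_cast; rfl
  rw [hcard]
  refine hC B U hU hUB Qs hQs (A.image pf) ?_
    (fun p => ((A.filter fun x => pf x = p).card : ℝ)) K G hK hG ?_
  · intro p hp
    obtain ⟨x, hx, rfl⟩ := Finset.mem_image.1 hp
    exact ⟨(hqf x hx).1, Ideal.subset_span (by simp [hpf]), hlat x hx⟩
  · intro p hp
    obtain ⟨x0, hx0, rfl⟩ := Finset.mem_image.1 hp
    refine hcases (pf x0).2 (pf x0).1 (hQs _ (hqf x0 hx0).1).1 (hlat x0 hx0) _
      (Finset.filter_subset _ _) ?_ ?_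
    · intro x hx
      exact congrArg Prod.fst (Finset.mem_filter.1 hx).2
    · intro x hx y hy
      obtain ⟨hx1, hx2⟩ := Finset.mem_filter.1 hx
      obtain ⟨hy1, hy2⟩ := Finset.mem_filter.1 hy
      refine ⟨fun i hi => ?_, ?_⟩
      · rw [Pi.sub_apply, (mem_sbox.1 (hA hx1)).2 i hi, (mem_sbox.1 (hA hy1)).2 i hi, sub_self]
      · rw [Lf_sub]
        refine Ideal.sub_mem _ ?_ ?_
        · rw [← hx2]; exact Ideal.subset_span (by simp)
        · rw [← hy2]; exact Ideal.subset_span (by simp)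

end Pool.Agent.N445.DF
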