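import Mathlib
import Pool.Agent.N445.DF.A9

/-! # Sparse sets: norm forms, squares -/

set_option autoImplicit false

namespace Pool.Agent.N445.DF

open MvPolynomial Pool.Agent.TH910.Voj Pool.Agent.H813R3.Voj Pool.Agent.N445.VW NumberField

set_option linter.unusedSectionVars false

variable {E : Type} [Field E] [NumberField E] {N : ℕ}

theorem coprime_of_primes (M : ℕ) (t : ℤ) (h : ∀ p : ℕ, p.Prime → p ∣ M → ¬ (p : ℤ) ∣ t) :
    IsCoprime (M : ℤ) t := by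
  rw [Int.isCoprime_iff_gcd_eq_one]
  by_contra hcon
  obtain ⟨p, hp, hpd⟩ := Nat.exists_prime_and_dvd hcon
  have h1 : (p : ℤ) ∣ (M : ℤ) := (Int.natCast_dvd_natCast.2 hpd).trans (Int.gcd_dvd_left _ _)
  have h2 : (p : ℤ) ∣ t := (Int.natCast_dvd_natCast.2 hpd).trans (Int.gcd_dvd_right _ _)
  exact h p hp (Int.natCast_dvd_natCast.1 h1) h2

/-- the cut-off for the minimal vectors -/
theorem cutoff (B : ℕ) (hB : 1 ≤ B) (η : ℝ) (hη : 0 < η) (hη1 : η ≤ 1) :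
    1 ≤ ⌊(B : ℝ) ^ (1 - η)⌋₊ ∧ ⌊(B : ℝ) ^ (1 - η)⌋₊ ≤ B ∧
      (⌊(B : ℝ) ^ (1 - η)⌋₊ : ℝ) ≤ (B : ℝ) ^ (1 - η) ∧
      (B : ℝ) / ⌊(B : ℝ) ^ (1 - η)⌋₊ ≤ 2 * (B : ℝ) ^ η := by
  have hB1 : (1 : ℝ) ≤ B := by exact_mod_cast hB
  have hB0 : (0 : ℝ) < B := by linarith
  have h1 : 1 ≤ (B : ℝ) ^ (1 - η) := Real.one_le_rpow hB1 (by linarith)
  have h2 : 1 ≤ ⌊(B : ℝ) ^ (1 - η)⌋₊ := Nat.le_floor (by exact_mod_cast h1)
  have h3 : (⌊(B : ℝ) ^ (1 - η)⌋₊ : ℝ) ≤ (B : ℝ) ^ (1 - η) := Nat.floor_le (by linarith)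
  refine ⟨h2, ?_, h3, ?_⟩
  · have h4 : (B : ℝ) ^ (1 - η) ≤ (B : ℝ) ^ (1 : ℝ) :=
      Real.rpow_le_rpow_of_exponent_le hB1 (by linarith)
    rw [Real.rpow_one] at h4
    exact_mod_cast h3.trans h4
  · have h5 : (0 : ℝ) < ⌊(B : ℝ) ^ (1 - η)⌋₊ := by exact_mod_cast h2
    rw [div_le_iff₀ h5]
    have h6 : (B : ℝ) ^ (1 - η) < ⌊(B : ℝ) ^ (1 - η)⌋₊ + 1 := Nat.lt_floor_add_one _
    have h7 : (1 : ℝ) ≤ ⌊(B : ℝ) ^ (1 - η)⌋₊ := by exact_mod_cast h2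
    have h8 : (B : ℝ) = (B : ℝ) ^ η * (B : ℝ) ^ (1 - η) := by
      rw [← Real.rpow_add hB0]
      have : η + (1 - η) = 1 := by ring
      rw [this, Real.rpow_one]
    have h9 : 0 < (B : ℝ) ^ η := by positivity
    calc (B : ℝ) = (B : ℝ) ^ η * (B : ℝ) ^ (1 - η) := h8
      _ ≤ (B : ℝ) ^ η * (2 * ⌊(B : ℝ) ^ (1 - η)⌋₊) :=
          mul_le_mul_of_nonneg_left (by linarith) h9.le
      _ = _ := by ring

theorem pow_eq_rpow_mul (B : ℝ) (hB : 0 < B) (m : ℕ) (t : ℝ) :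
    B ^ m * B ^ t = B ^ ((m : ℝ) + t) := by
  rw [← Real.rpow_natCast, ← Real.rpow_add hB]

/-- the number of outer coordinates -/
theorem outer_bound (N m B : ℕ) (hB : 1 ≤ B) (hm : m ≤ N) (C κ : ℝ) (hC : 0 ≤ C) :
    (2 * (B : ℝ) + 1) ^ (N - m) * (C * (B : ℝ) ^ ((m : ℝ) - κ)) ≤
      3 ^ N * C * (B : ℝ) ^ ((N : ℝ) - κ) := by
  have hB1 : (1 : ℝ) ≤ B := by exact_mod_cast hB
  have hB0 : (0 : ℝ) < B := by linarith
  have h1 : (2 * (B : ℝ) + 1) ^ (N - m) ≤ 3 ^ N * (B : ℝ) ^ ((N : ℝ) - m) := by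
    calc (2 * (B : ℝ) + 1) ^ (N - m) ≤ (3 * B) ^ (N - m) :=
          pow_le_pow_left₀ (by positivity) (by linarith) _
      _ = 3 ^ (N - m) * (B : ℝ) ^ (N - m) := mul_pow _ _ _
      _ ≤ 3 ^ N * (B : ℝ) ^ ((N : ℝ) - m) := by
          refine mul_le_mul (pow_le_pow_right₀ (by norm_num) (Nat.sub_le _ _)) (le_of_eq ?_)
            (by positivity) (by positivity)
          rw [← Real.rpow_natCast, Nat.cast_sub hm]
  calc (2 * (B : ℝ) + 1) ^ (N - m) * (C * (B : ℝ) ^ ((m : ℝ) - κ)) ≤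
        (3 ^ N * (B : ℝ) ^ ((N : ℝ) - m)) * (C * (B : ℝ) ^ ((m : ℝ) - κ)) :=
        mul_le_mul_of_nonneg_right h1 (by positivity)
    _ = 3 ^ N * C * ((B : ℝ) ^ ((N : ℝ) - m) * (B : ℝ) ^ ((m : ℝ) - κ)) := by ring
    _ = _ := by
        rw [← Real.rpow_add hB0]
        congr 2
        ring

/-- **Squares dividing the values of a norm form.** -/
theorem sparse_p (F : MvPolynomial (Fin N) ℤ) {k : ℕ} (hk : F.IsHomogeneous k)
    (α : Fin N → 𝓞 E) (d c : ℤ) (hF : NF F α d c) (J : Finset (Fin N))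
    (hind : ∀ u : Fin N → ℤ, (∀ i, i ∉ J → u i = 0) → u ≠ 0 → Lf α u ≠ 0)
    (hJ1 : 1 ≤ J.card) (a : Fin N → ℤ) (ha : ∀ i, i ∉ J → a i = 0) (ε δ : ℝ) (hε : 0 < ε)
    (hδ : 0 < δ) (hδ1 : δ ≤ 1) :
    Sparse N (fun B x => ∃ M : ℕ, (B : ℝ) ^ ε < M ∧ (M : ℝ) ≤ (B : ℝ) ^ ((J.card : ℝ) - δ) ∧
      ((M : ℤ) ^ 2 ∣ eval x F) ∧
      ∀ p : ℕ, p.Prime → p ∣ M → ¬ (p : ℤ) ∣ d * c * eval x (dder a F)) := by
  classical
  set m := J.card with hm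
  have hmN : m ≤ N := by
    have := Finset.card_le_univ J
    rwa [Fintype.card_fin] at this
  have hm0 : (0 : ℝ) < m := by exact_mod_cast hJ1
  have hm1 : (1 : ℝ) ≤ m := by exact_mod_cast hJ1
  set η : ℝ := δ / (2 * m) with hη
  have hη0 : 0 < η := by positivity
  have hηm : η * m = δ / 2 := by rw [hη]; field_simp
  have hη1 : η ≤ 1 := by nlinarith
  have hη2 : η ≤ δ / 2 := by nlinarith
  set κ : ℝ := min η ε with hκ
  have hκ0 : 0 < κ := lt_min hη0 hε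
  obtain ⟨C, hC0, hC⟩ := card_by_pairs F hk α d c hF J hind a ha (2 * m) (κ / 2) (by positivity)
  set C' : ℝ := 2 ^ m + (4 * N) ^ (m - 1) + (4 * N + 3) ^ m * 2 with hC'
  have hC'0 : 0 < C' := by positivity
  refine sparse_of_card _ (κ / 2) (3 ^ N * (C * C')) (by positivity) (by positivity) 0 ?_
  intro B _ hB Z hZ hbad
  have hB1 : (1 : ℝ) ≤ B := by exact_mod_cast hB
  have hB0 : (0 : ℝ) < B := by linarith
  obtain ⟨hU1, hUB, hU2, hU3⟩ := cutoff B hB η hη0 hη1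
  set U := ⌊(B : ℝ) ^ (1 - η)⌋₊ with hU
  set X2 := ⌊(B : ℝ) ^ ((m : ℝ) - δ)⌋₊ with hX2
  have hX2le : (X2 : ℝ) ≤ (B : ℝ) ^ ((m : ℝ) - δ) := Nat.floor_le (by positivity)
  have hX2B : X2 ≤ B ^ m := by
    have : (X2 : ℝ) ≤ (B : ℝ) ^ m := by
      refine hX2le.trans ?_
      rw [← Real.rpow_natCast]
      exact Real.rpow_le_rpow_of_exponent_le hB1 (by linarith)
    exact_mod_cast this
  set Ms := (Finset.Icc 1 X2).filter fun M : ℕ => (B : ℝ) ^ ε < M with hMs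
  set Qs := Ms.image fun M => M ^ 2 with hQs
  have hBε : 1 ≤ (B : ℝ) ^ ε := Real.one_le_rpow hB1 hε.le
  have hQ1 : ∀ q ∈ Qs, 1 ≤ q ∧ q ≤ B ^ (2 * m) := by
    intro q hq
    obtain ⟨M, hM, rfl⟩ := Finset.mem_image.1 hq
    obtain ⟨hM1, -⟩ := Finset.mem_filter.1 hM
    rw [Finset.mem_Icc] at hM1
    refine ⟨Nat.one_le_pow _ _ hM1.1, ?_⟩
    rw [mul_comm 2 m, pow_mul]
    exact Nat.pow_le_pow_left (hM1.2.trans hX2B) 2
  have hQcard : (Qs.card : ℝ) ≤ (B : ℝ) ^ ((m : ℝ) - δ) := by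
    refine le_trans ?_ hX2le
    have : Qs.card ≤ X2 := by
      refine Finset.card_image_le.trans ((Finset.card_filter_le _ _).trans ?_)
      rw [Nat.card_Icc]; omega
    exact_mod_cast this
  have hQsum : ∑ q ∈ Qs, 1 / (q : ℝ) ≤ 2 * (B : ℝ) ^ (-ε) := by
    have h1 : ∑ q ∈ Qs, 1 / (q : ℝ) ≤ ∑ M ∈ Ms, 1 / ((M ^ 2 : ℕ) : ℝ) :=
      Finset.sum_image_le_of_nonneg (fun _ _ => by positivity) 
    refine h1.trans ?_
    set M0 := ⌊(B : ℝ) ^ ε⌋₊ with hM0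
    have hM01 : 1 ≤ M0 := Nat.le_floor (by exact_mod_cast hBε)
    have hM0r : (1 : ℝ) ≤ M0 := by exact_mod_cast hM01
    have hM02 : (B : ℝ) ^ ε < M0 + 1 := Nat.lt_floor_add_one _
    have hsub : Ms ⊆ Finset.Ioc M0 (max M0 X2) := by
      intro M hM
      obtain ⟨hM1, hM2⟩ := Finset.mem_filter.1 hM
      rw [Finset.mem_Icc] at hM1
      rw [Finset.mem_Ioc]
      refine ⟨?_, hM1.2.trans (le_max_right _ _)⟩
      have h2 : (M0 : ℝ) < M := lt_of_le_of_lt (Nat.floor_le (by positivity)) hM2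
      exact_mod_cast h2
    calc ∑ M ∈ Ms, 1 / ((M ^ 2 : ℕ) : ℝ) ≤ ∑ M ∈ Finset.Ioc M0 (max M0 X2), 1 / ((M ^ 2 : ℕ) : ℝ) :=
          Finset.sum_le_sum_of_subset_of_nonneg hsub fun _ _ _ => by positivity
      _ = ∑ M ∈ Finset.Ioc M0 (max M0 X2), ((M : ℝ) ^ 2)⁻¹ := by
          refine Finset.sum_congr rfl fun M _ => ?_
          push_cast
          rw [one_div]
      _ ≤ (M0 : ℝ)⁻¹ - ((max M0 X2 : ℕ) : ℝ)⁻¹ :=
          sum_Ioc_inv_sq_le_sub (by omega) (le_max_left _ _)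
      _ ≤ (M0 : ℝ)⁻¹ := by
          have : 0 ≤ ((max M0 X2 : ℕ) : ℝ)⁻¹ := by positivity
          linarith
      _ ≤ 2 * (B : ℝ) ^ (-ε) := by
          rw [Real.rpow_neg hB0.le, ← one_div, ← one_div, mul_one_div,
            div_le_div_iff₀ (by linarith) (by positivity)]
          linarith
  -- the bound for fixed outer coordinates
  have hfix : ∀ z, ∀ A ⊆ Z, A ⊆ sbox J z B → (A.card : ℝ) ≤ C * C' * (B : ℝ) ^ ((m : ℝ) - κ / 2) := by
    intro z A hAZ hA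
    have hex : ∀ x : Fin N → ℤ, ∃ M : ℕ, x ∈ A → ((B : ℝ) ^ ε < M ∧
        (M : ℝ) ≤ (B : ℝ) ^ ((m : ℝ) - δ) ∧ ((M : ℤ) ^ 2 ∣ eval x F) ∧
        ∀ p : ℕ, p.Prime → p ∣ M → ¬ (p : ℤ) ∣ d * c * eval x (dder a F)) := by
      intro x
      by_cases hx : x ∈ A
      · obtain ⟨M, hM⟩ := hbad x (hAZ hx)
        exact ⟨M, fun _ => hM⟩
      · exact ⟨0, fun h => absurd h hx⟩
    choose Mf hMf using hex
    have h1 := hC B U hU1 hUB Qs hQ1 z A hA (fun x => Mf x ^ 2) (by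
      intro x hx
      obtain ⟨e1, e2, e3, e4⟩ := hMf x hx
      refine ⟨?_, ?_, ?_⟩
      · rw [hQs, Finset.mem_image]
        refine ⟨Mf x, ?_, rfl⟩
        rw [hMs, Finset.mem_filter, Finset.mem_Icc]
        refine ⟨⟨?_, Nat.le_floor e2⟩, e1⟩
        have : (0 : ℝ) < Mf x := by linarith
        exact_mod_cast this
      · push_cast; exact e3
      · have := coprime_of_primes (Mf x) _ e4
        push_cast
        exact this.pow_left) (4 * N) ((4 * N + 3) ^ m) (by positivity) (by positivity) (by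
      intro I q hq1 hq A' hA' _ hAL
      exact fibre_p J z B U hU1 hUB α I A' (hA'.trans hA) hAL a ha q hq1 hq)
    refine h1.trans ?_
    have b1 : (Qs.card : ℝ) * ((B : ℝ) / U) ^ m ≤ 2 ^ m * (B : ℝ) ^ ((m : ℝ) - κ) := by
      have e1 : ((B : ℝ) / U) ^ m ≤ 2 ^ m * (B : ℝ) ^ (δ / 2) := by
        calc ((B : ℝ) / U) ^ m ≤ (2 * (B : ℝ) ^ η) ^ m := pow_le_pow_left₀ (by positivity) hU3 _
          _ = 2 ^ m * (B : ℝ) ^ (δ / 2) := by
              rw [mul_pow, ← hηm, ← Real.rpow_natCast ((B : ℝ) ^ η), ← Real.rpow_mul hB0.le]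
      calc (Qs.card : ℝ) * ((B : ℝ) / U) ^ m ≤ (B : ℝ) ^ ((m : ℝ) - δ) * (2 ^ m * (B : ℝ) ^ (δ / 2)) :=
            mul_le_mul hQcard e1 (by positivity) (by positivity)
        _ = 2 ^ m * (B : ℝ) ^ ((m : ℝ) - δ + δ / 2) := by rw [Real.rpow_add hB0]; ring
        _ ≤ _ := by
            refine mul_le_mul_of_nonneg_left ?_ (by positivity)
            refine Real.rpow_le_rpow_of_exponent_le hB1 ?_
            have : κ ≤ η := min_le_left _ _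
            linarith
    have b2 : (4 * (N : ℝ)) ^ (m - 1) * (U * (B : ℝ) ^ (m - 1)) ≤
        (4 * N) ^ (m - 1) * (B : ℝ) ^ ((m : ℝ) - κ) := by
      refine mul_le_mul_of_nonneg_left ?_ (by positivity)
      calc (U : ℝ) * (B : ℝ) ^ (m - 1) ≤ (B : ℝ) ^ (1 - η) * (B : ℝ) ^ (m - 1) :=
            mul_le_mul_of_nonneg_right hU2 (by positivity)
        _ = (B : ℝ) ^ ((m : ℝ) - η) := by
            rw [mul_comm, pow_eq_rpow_mul _ hB0, Nat.cast_sub hJ1]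
            congr 1
            push_cast
            ring
        _ ≤ _ := by
            refine Real.rpow_le_rpow_of_exponent_le hB1 ?_
            have : κ ≤ η := min_le_left _ _
            linarith
    have b3 : (4 * (N : ℝ) + 3) ^ m * (B : ℝ) ^ m * ∑ q ∈ Qs, 1 / (q : ℝ) ≤
        ((4 * N + 3) ^ m * 2) * (B : ℝ) ^ ((m : ℝ) - κ) := by
      calc (4 * (N : ℝ) + 3) ^ m * (B : ℝ) ^ m * ∑ q ∈ Qs, 1 / (q : ℝ) ≤
            (4 * (N : ℝ) + 3) ^ m * (B : ℝ) ^ m * (2 * (B : ℝ) ^ (-ε)) :=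
            mul_le_mul_of_nonneg_left hQsum (by positivity)
        _ = ((4 * N + 3) ^ m * 2) * (B : ℝ) ^ ((m : ℝ) + -ε) := by
            rw [← pow_eq_rpow_mul _ hB0]; ring
        _ ≤ _ := by
            refine mul_le_mul_of_nonneg_left ?_ (by positivity)
            refine Real.rpow_le_rpow_of_exponent_le hB1 ?_
            have : κ ≤ ε := min_le_right _ _
            linarith
    calc C * (B : ℝ) ^ (κ / 2) * ((Qs.card : ℝ) * ((B : ℝ) / U) ^ m +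
          (4 * (N : ℝ)) ^ (m - 1) * (U * (B : ℝ) ^ (m - 1)) +
          (4 * (N : ℝ) + 3) ^ m * (B : ℝ) ^ m * ∑ q ∈ Qs, 1 / (q : ℝ)) ≤
          C * (B : ℝ) ^ (κ / 2) * (2 ^ m * (B : ℝ) ^ ((m : ℝ) - κ) +
          (4 * N) ^ (m - 1) * (B : ℝ) ^ ((m : ℝ) - κ) +
          ((4 * N + 3) ^ m * 2) * (B : ℝ) ^ ((m : ℝ) - κ)) :=
          mul_le_mul_of_nonneg_left (add_le_add (add_le_add b1 b2) b3) (by positivity)
      _ = C * C' * ((B : ℝ) ^ (κ / 2) * (B : ℝ) ^ ((m : ℝ) - κ)) := by rw [hC']; ring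
      _ = _ := by
          rw [← Real.rpow_add hB0]
          congr 2
          ring
  have h2 := card_outer J B Z hZ _ hfix
  exact h2.trans (outer_bound N m B hB hmN (C * C') (κ / 2) (by positivity))

end Pool.Agent.N445.DF
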