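import Mathlib
import Pool.Agent.N445.DF.A10

/-! # Sparse sets: norm forms, values of a given shape -/

set_option autoImplicit false

namespace Pool.Agent.N445.DF

open MvPolynomial Pool.Agent.TH910.Voj Pool.Agent.H813R3.Voj Pool.Agent.N445.VW NumberField

set_option linter.unusedSectionVars false

variable {E : Type} [Field E] [NumberField E]

/-- the harmonic sum -/
theorem harm (m : ℕ) (ε : ℝ) (hε : 0 < ε) : ∃ C : ℝ, 0 < C ∧ ∀ B X : ℕ, 1 ≤ B → X ≤ B ^ m →
    ∑ q ∈ Finset.Icc 1 X, 1 / (q : ℝ) ≤ C * (B : ℝ) ^ ε := by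
  refine ⟨1 + m / ε, by positivity, fun B X hB hX => ?_⟩
  have hB1 : (1 : ℝ) ≤ B := by exact_mod_cast hB
  have h0 : ∑ q ∈ Finset.Icc 1 X, 1 / (q : ℝ) = ((harmonic X : ℚ) : ℝ) := by
    rw [harmonic_eq_sum_Icc]
    push_cast
    exact Finset.sum_congr rfl fun q _ => one_div _
  rw [h0]
  have h1 : (1 : ℝ) ≤ (B : ℝ) ^ ε := Real.one_le_rpow hB1 hε.le
  rcases Nat.eq_zero_or_pos X with h | h
  · subst h
    rw [harmonic_zero, Rat.cast_zero]; positivity
  · have h2 := harmonic_le_one_add_log X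
    have h3 : Real.log X ≤ m * Real.log B := by
      rw [← Real.log_pow]
      exact Real.log_le_log (by exact_mod_cast h) (by exact_mod_cast hX)
    have h4 : Real.log B ≤ (B : ℝ) ^ ε / ε := Real.log_le_rpow_div (by positivity) hε
    have h5 : (m : ℝ) * Real.log B ≤ m * ((B : ℝ) ^ ε / ε) :=
      mul_le_mul_of_nonneg_left h4 (Nat.cast_nonneg _)
    calc ((harmonic X : ℚ) : ℝ) ≤ 1 + m * ((B : ℝ) ^ ε / ε) := by linarith
      _ ≤ (B : ℝ) ^ ε + m * ((B : ℝ) ^ ε / ε) := by linarith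
      _ = _ := by ring

/-- large `B`: the quotient by the cut-off is at least a power -/
theorem quot_large (D : ℕ) (η : ℝ) (hη : 0 < η) (hη1 : η ≤ 1) :
    ∃ A' B₀ : ℕ, ∀ B : ℕ, B₀ ≤ B → 1 ≤ B → B ^ D ≤ (B / ⌊(B : ℝ) ^ (1 - η)⌋₊) ^ A' := by
  set A' := ⌈2 * (D : ℝ) / η⌉₊ with hA'
  have h1 : Filter.Tendsto (fun B : ℕ => (B : ℝ) ^ (η / 2)) Filter.atTop Filter.atTop :=
    (tendsto_rpow_atTop (by positivity)).comp tendsto_natCast_atTop_atTop
  obtain ⟨B₀, hB₀⟩ := Filter.eventually_atTop.mp (h1.eventually_ge_atTop 2)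
  refine ⟨A', B₀, fun B hB hB1 => ?_⟩
  have hBr : (1 : ℝ) ≤ B := by exact_mod_cast hB1
  have hB0 : (0 : ℝ) < B := by linarith
  obtain ⟨hU1, hUB, hU2, hU3⟩ := cutoff B hB1 η hη hη1
  set U := ⌊(B : ℝ) ^ (1 - η)⌋₊ with hU
  have hU0 : (0 : ℝ) < U := by exact_mod_cast hU1
  have h2 : (B : ℝ) ^ η ≤ (B : ℝ) / U := by
    rw [le_div_iff₀ hU0]
    calc (B : ℝ) ^ η * U ≤ (B : ℝ) ^ η * (B : ℝ) ^ (1 - η) :=
          mul_le_mul_of_nonneg_left hU2 (by positivity)
      _ = B := by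
          rw [← Real.rpow_add hB0]
          have : η + (1 - η) = 1 := by ring
          rw [this, Real.rpow_one]
  have h3 : (B : ℝ) / U < (B / U : ℕ) + 1 := by
    rw [div_lt_iff₀ hU0]
    have : B < (B / U + 1) * U := by
      have := Nat.lt_div_mul_add (a := B) hU1
      nlinarith
    exact_mod_cast this
  have h4 : (2 : ℝ) ≤ (B : ℝ) ^ (η / 2) := hB₀ B hB
  have h5 : (B : ℝ) ^ η = (B : ℝ) ^ (η / 2) * (B : ℝ) ^ (η / 2) := by
    rw [← Real.rpow_add hB0]; congr 1; ring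
  have h6 : (B : ℝ) ^ (η / 2) ≤ (B / U : ℕ) := by nlinarith
  have h7 : ((B ^ D : ℕ) : ℝ) ≤ (((B / U) ^ A' : ℕ) : ℝ) := by
    calc ((B ^ D : ℕ) : ℝ) = (B : ℝ) ^ (D : ℝ) := by rw [Real.rpow_natCast]; push_cast; rfl
      _ ≤ (B : ℝ) ^ (η / 2 * A') := by
          refine Real.rpow_le_rpow_of_exponent_le hBr ?_
          have h8 : 2 * (D : ℝ) / η ≤ A' := Nat.le_ceil _
          rw [div_le_iff₀ hη] at h8
          linarith
      _ = ((B : ℝ) ^ (η / 2)) ^ A' := by
          rw [Real.rpow_mul hB0.le, Real.rpow_natCast]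
      _ ≤ ((B / U : ℕ) : ℝ) ^ A' := pow_le_pow_left₀ (by positivity) h6 _
      _ = _ := by push_cast; rfl
  exact_mod_cast h7

/-- **Values of a norm form with a given shape.** -/
theorem sparse_s {n : ℕ} (F : MvPolynomial (Fin (n + 1)) ℤ) {k : ℕ} (hk : F.IsHomogeneous k)
    (hk2 : 2 ≤ k) (hirr : Irreducible (toQ F)) (α : Fin (n + 1) → 𝓞 E) (d c : ℤ)
    (hF : NF F α d c) (J : Finset (Fin (n + 1)))
    (hJ : ∀ i, (α i : E) ∈ Submodule.span ℚ ((fun j => (α j : E)) '' (J : Set (Fin (n + 1)))))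
    (hind : ∀ u : Fin (n + 1) → ℤ, (∀ i, i ∉ J → u i = 0) → u ≠ 0 → Lf α u ≠ 0)
    (hm2 : 2 ≤ J.card) (a : Fin (n + 1) → ℤ) (ha : ∀ i, i ∉ J → a i = 0) (e : ℕ) (he : 2 ≤ e)
    (δ : ℝ) (hδ : 0 < δ) (hδ1 : δ ≤ 1) :
    Sparse (n + 1) (fun B x => ∃ (s : ℕ) (σ w : ℤ), (s : ℝ) ≤ (B : ℝ) ^ ((J.card : ℝ) - δ) ∧
      (σ.natAbs : ℝ) ≤ (B : ℝ) ^ (δ / (32 * J.card)) ∧ eval x F = σ * s * w ^ e ∧ eval x F ≠ 0 ∧
      ∀ p : ℕ, p.Prime → p ∣ s → ¬ (p : ℤ) ∣ d * c * eval x (dder a F)) := by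
  classical
  set m := J.card with hm
  have hmN : m ≤ n + 1 := by
    have := Finset.card_le_univ J
    rwa [Fintype.card_fin] at this
  have hm0 : (0 : ℝ) < m := by exact_mod_cast (by omega : 0 < m)
  have hm1 : (2 : ℝ) ≤ m := by exact_mod_cast hm2
  set η : ℝ := δ / (2 * m) with hη
  have hη0 : 0 < η := by positivity
  have hηm : η * m = δ / 2 := by rw [hη]; field_simp
  have hη1 : η ≤ 1 := by nlinarith
  have hη2 : η ≤ δ / 2 := by nlinarith
  have hρ : δ / (32 * m) = η / 16 := by rw [hη]; field_simp; norm_num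
  rw [hρ]
  set ε1 : ℝ := η / 32 with hε1
  have hε10 : 0 < ε1 := by positivity
  obtain ⟨C, hC0, hC⟩ := card_by_pairs F hk α d c hF J hind a ha m ε1 hε10
  obtain ⟨CH, hCH0, hCH⟩ := harm m ε1 hε10
  obtain ⟨cF, hcF1, hcF⟩ := exists_eval_bound F (hk.totalDegree_le)
  obtain ⟨cP, hcP1, hcP⟩ := exists_eval_bound (Phi F k) (le_refl (Phi F k).totalDegree)
  set g := (Phi F k).totalDegree with hg
  set D := g + (k + n + 2) + 1 with hD
  obtain ⟨A', B1, hB1⟩ := quot_large D η hη0 hη1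
  obtain ⟨K, G, hK0, hG0, hfib⟩ := fibre_s F hk hk2 hirr α d c hF J hJ hind hm2 e he D A'
  set C' : ℝ := 2 ^ m + K ^ (m - 1) + G * CH with hC'
  have hC'0 : 0 < C' := by positivity
  refine sparse_of_card _ (η / 8) (3 ^ (n + 1) * (3 * (C * C'))) (by positivity) (by positivity)
    (B1 + cF + cP * e) ?_
  intro B hBB hB Z hZ hbad
  have hBr : (1 : ℝ) ≤ B := by exact_mod_cast hB
  have hB0 : (0 : ℝ) < B := by linarith
  have hBD := hB1 B (by omega) hB
  obtain ⟨hU1, hUB, hU2, hU3⟩ := cutoff B hB η hη0 hη1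
  set U := ⌊(B : ℝ) ^ (1 - η)⌋₊ with hU
  have hU0 : (0 : ℝ) < U := by exact_mod_cast hU1
  set X2 := ⌊(B : ℝ) ^ ((m : ℝ) - δ)⌋₊ with hX2
  have hX2le : (X2 : ℝ) ≤ (B : ℝ) ^ ((m : ℝ) - δ) := Nat.floor_le (by positivity)
  have hX2B : X2 ≤ B ^ m := by
    have : (X2 : ℝ) ≤ (B : ℝ) ^ m := by
      refine hX2le.trans ?_
      rw [← Real.rpow_natCast]
      exact Real.rpow_le_rpow_of_exponent_le hBr (by linarith)
    exact_mod_cast this
  have hQ1 : ∀ q ∈ Finset.Icc 1 X2, 1 ≤ q ∧ q ≤ B ^ m := fun q hq => by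
    rw [Finset.mem_Icc] at hq
    exact ⟨hq.1, hq.2.trans hX2B⟩
  have hΦ : ∀ u ∈ box (n + 1) B, ∀ v ∈ box (n + 1) B,
      (eval (Fin.append u v) (Phi F k)).natAbs * (e * B ^ (k + n + 2)) ≤ B ^ D := by
    intro u hu v hv
    have h1 := hcP B hB (Fin.append u v) (by
      rw [mem_box]
      intro i
      induction i using Fin.addCases with
      | left i => rw [Fin.append_left]; exact mem_box.1 hu i
      | right i => rw [Fin.append_right]; exact mem_box.1 hv i)
    calc (eval (Fin.append u v) (Phi F k)).natAbs * (e * B ^ (k + n + 2)) ≤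
          (cP * B ^ g) * (e * B ^ (k + n + 2)) := Nat.mul_le_mul_right _ h1
      _ = (cP * e) * B ^ (g + (k + n + 2)) := by rw [pow_add B g]; ring
      _ ≤ B * B ^ (g + (k + n + 2)) := Nat.mul_le_mul_right _ (by omega)
      _ = B ^ D := by rw [hD, pow_succ B (g + (k + n + 2))]; ring
  set Y := ⌊(B : ℝ) ^ (η / 16)⌋₊ with hY
  have hBρ : 1 ≤ (B : ℝ) ^ (η / 16) := Real.one_le_rpow hBr (by positivity)
  have hYle : (Y : ℝ) ≤ (B : ℝ) ^ (η / 16) := Nat.floor_le (by positivity)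
  have hYB : Y ≤ B := by
    have h1 : (Y : ℝ) ≤ (B : ℝ) ^ (1 : ℝ) :=
      hYle.trans (Real.rpow_le_rpow_of_exponent_le hBr (by linarith))
    rw [Real.rpow_one] at h1
    exact_mod_cast h1
  -- the bound for fixed outer coordinates
  have hfix : ∀ z, ∀ A ⊆ Z, A ⊆ sbox J z B →
      (A.card : ℝ) ≤ 3 * (C * C') * (B : ℝ) ^ ((m : ℝ) - η / 8) := by
    intro z A hAZ hA
    have hex : ∀ x : Fin (n + 1) → ℤ, ∃ (s : ℕ) (σ w : ℤ), x ∈ A →
        ((s : ℝ) ≤ (B : ℝ) ^ ((m : ℝ) - δ) ∧ (σ.natAbs : ℝ) ≤ (B : ℝ) ^ (η / 16) ∧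
        eval x F = σ * s * w ^ e ∧ eval x F ≠ 0 ∧
        ∀ p : ℕ, p.Prime → p ∣ s → ¬ (p : ℤ) ∣ d * c * eval x (dder a F)) := by
      intro x
      by_cases hx : x ∈ A
      · obtain ⟨s, σ, w, h⟩ := hbad x (hAZ hx)
        exact ⟨s, σ, w, fun _ => h⟩
      · exact ⟨0, 0, 0, fun h => absurd h hx⟩
    choose sf σf wf hf using hex
    have hcard : (A.card : ℝ) = ∑ σ ∈ Finset.Icc (-(Y : ℤ)) Y,
        ((A.filter fun x => σf x = σ).card : ℝ) := by
      have := Finset.card_eq_sum_card_fiberwise (s := A) (t := Finset.Icc (-(Y : ℤ)) Y) (f := σf)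
        (fun x hx => by
          obtain ⟨-, h2, -⟩ := hf x hx
          rw [Finset.mem_coe, Finset.mem_Icc, ← abs_le, Int.abs_eq_natAbs]
          exact_mod_cast Nat.le_floor h2)
      rw [this]; push_cast; rfl
    have hσ : ∀ σ ∈ Finset.Icc (-(Y : ℤ)) Y, ((A.filter fun x => σf x = σ).card : ℝ) ≤
        C * C' * (B : ℝ) ^ ((m : ℝ) - 3 * η / 16) := by
      intro σ hσY
      have hσB : σ.natAbs ≤ B := by
        rw [Finset.mem_Icc] at hσY
        omega
      set Aσ := A.filter fun x => σf x = σ with hAσ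
      have hAσA : Aσ ⊆ A := Finset.filter_subset _ _
      have hdat : ∀ x ∈ Aσ, (sf x : ℝ) ≤ (B : ℝ) ^ ((m : ℝ) - δ) ∧
          eval x F = σ * sf x * wf x ^ e ∧ eval x F ≠ 0 ∧
          ∀ p : ℕ, p.Prime → p ∣ sf x → ¬ (p : ℤ) ∣ d * c * eval x (dder a F) := by
        intro x hx
        obtain ⟨hx1, hx2⟩ := Finset.mem_filter.1 hx
        obtain ⟨e1, e2, e3, e4, e5⟩ := hf x hx1
        rw [hx2] at e3
        exact ⟨e1, e3, e4, e5⟩
      have h1 := hC B U hU1 hUB (Finset.Icc 1 X2) hQ1 z Aσ (hAσA.trans hA) sf (by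
        intro x hx
        obtain ⟨e1, e2, e3, e4⟩ := hdat x hx
        refine ⟨?_, ?_, coprime_of_primes _ _ e4⟩
        · rw [Finset.mem_Icc]
          refine ⟨?_, Nat.le_floor e1⟩
          rcases Nat.eq_zero_or_pos (sf x) with h | h
          · exfalso
            apply e3
            rw [e2, h]; simp
          · exact h
        · rw [e2]
          exact Dvd.intro (σ * wf x ^ e) (by ring)) K (G * ((U : ℝ) / B) ^ ((1 : ℝ) / 4)) hK0.le
        (by positivity) (by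
        intro I q hq1 hq A1 hA1 hA1q hAL
        rcases A1.eq_empty_or_nonempty with rfl | ⟨x1, hx1⟩
        · left; rw [Finset.card_empty, Nat.cast_zero]; positivity
        have hA1A := hA1.trans hAσA
        have hqX : q ≤ X2 := by
          obtain ⟨e1, -⟩ := hdat x1 (hA1 hx1)
          rw [hA1q x1 hx1] at e1
          exact Nat.le_floor e1
        have hσ0 : σ * (q : ℤ) ≠ 0 := by
          obtain ⟨-, e2, e3, -⟩ := hdat x1 (hA1 hx1)
          rw [hA1q x1 hx1] at e2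
          intro h
          apply e3
          rw [e2, h, zero_mul]
        refine hfib B U hU1 hUB hBD hΦ z I a ha q hq1 hq (σ * q) hσ0 ?_ A1 (hA1A.trans hA)
          (hA1A.trans (hAZ.trans hZ)) hAL ?_
        · rw [Int.natAbs_mul, Int.natAbs_natCast]
          calc σ.natAbs * q ≤ B * B ^ m := Nat.mul_le_mul hσB (hqX.trans hX2B)
            _ = B ^ (m + 1) := by rw [pow_succ]; ring
            _ ≤ B ^ (k + n + 2) := Nat.pow_le_pow_right hB (by omega)
        · intro x hx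
          obtain ⟨-, e2, e3, -⟩ := hdat x (hA1 hx)
          rw [hA1q x hx] at e2
          refine ⟨wf x, ?_, e2⟩
          have hw0 : wf x ≠ 0 := by
            intro h
            apply e3
            rw [e2, h, zero_pow (by omega), mul_zero]
          have h2 : (wf x).natAbs ≤ (eval x F).natAbs := by
            have h3 : wf x ∣ eval x F := by
              rw [e2]
              exact (dvd_pow_self _ (by omega)).mul_left _
            exact Nat.le_of_dvd (Int.natAbs_pos.2 e3) (Int.natAbs_dvd_natAbs.2 h3)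
          have h3 : (eval x F).natAbs ≤ B ^ D := by
            refine (hcF B hB x (hZ (hAZ (hA1A hx)))).trans ?_
            calc cF * B ^ k ≤ B * B ^ k := Nat.mul_le_mul_right _ (by omega)
              _ = B ^ (k + 1) := by rw [pow_succ]; ring
              _ ≤ B ^ D := Nat.pow_le_pow_right hB (by omega)
          rw [Int.abs_eq_natAbs]
          exact_mod_cast h2.trans h3)
      refine h1.trans ?_
      have b1 : ((Finset.Icc 1 X2).card : ℝ) * ((B : ℝ) / U) ^ m ≤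
          2 ^ m * (B : ℝ) ^ ((m : ℝ) - η / 4 + ε1) := by
        have e1 : ((B : ℝ) / U) ^ m ≤ 2 ^ m * (B : ℝ) ^ (δ / 2) := by
          calc ((B : ℝ) / U) ^ m ≤ (2 * (B : ℝ) ^ η) ^ m := pow_le_pow_left₀ (by positivity) hU3 _
            _ = 2 ^ m * (B : ℝ) ^ (δ / 2) := by
                rw [mul_pow, ← hηm, ← Real.rpow_natCast ((B : ℝ) ^ η), ← Real.rpow_mul hB0.le]
        have e2 : ((Finset.Icc 1 X2).card : ℝ) ≤ (B : ℝ) ^ ((m : ℝ) - δ) := by
          rw [Nat.card_Icc]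
          refine le_trans ?_ hX2le
          exact_mod_cast (by omega : X2 + 1 - 1 ≤ X2)
        calc ((Finset.Icc 1 X2).card : ℝ) * ((B : ℝ) / U) ^ m ≤
              (B : ℝ) ^ ((m : ℝ) - δ) * (2 ^ m * (B : ℝ) ^ (δ / 2)) :=
              mul_le_mul e2 e1 (by positivity) (by positivity)
          _ = 2 ^ m * (B : ℝ) ^ ((m : ℝ) - δ + δ / 2) := by rw [Real.rpow_add hB0]; ring
          _ ≤ _ := by
              refine mul_le_mul_of_nonneg_left ?_ (by positivity)
              refine Real.rpow_le_rpow_of_exponent_le hBr ?_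
              linarith
      have b2 : K ^ (m - 1) * (U * (B : ℝ) ^ (m - 1)) ≤
          K ^ (m - 1) * (B : ℝ) ^ ((m : ℝ) - η / 4 + ε1) := by
        refine mul_le_mul_of_nonneg_left ?_ (by positivity)
        calc (U : ℝ) * (B : ℝ) ^ (m - 1) ≤ (B : ℝ) ^ (1 - η) * (B : ℝ) ^ (m - 1) :=
              mul_le_mul_of_nonneg_right hU2 (by positivity)
          _ = (B : ℝ) ^ ((m : ℝ) - η) := by
              rw [mul_comm, pow_eq_rpow_mul _ hB0, Nat.cast_sub (by omega)]
              congr 1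
              push_cast
              ring
          _ ≤ _ := by
              refine Real.rpow_le_rpow_of_exponent_le hBr ?_
              linarith
      have b3 : G * ((U : ℝ) / B) ^ ((1 : ℝ) / 4) * (B : ℝ) ^ m *
          ∑ q ∈ Finset.Icc 1 X2, 1 / (q : ℝ) ≤ (G * CH) * (B : ℝ) ^ ((m : ℝ) - η / 4 + ε1) := by
        have e1 : ((U : ℝ) / B) ^ ((1 : ℝ) / 4) ≤ (B : ℝ) ^ (-(η / 4)) := by
          calc ((U : ℝ) / B) ^ ((1 : ℝ) / 4) ≤ ((B : ℝ) ^ (-η)) ^ ((1 : ℝ) / 4) := by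
                refine Real.rpow_le_rpow (by positivity) ?_ (by norm_num)
                rw [div_le_iff₀ hB0]
                refine hU2.trans (le_of_eq ?_)
                have : (B : ℝ) ^ (-η) * B = (B : ℝ) ^ (-η) * (B : ℝ) ^ (1 : ℝ) := by
                  rw [Real.rpow_one]
                rw [this, ← Real.rpow_add hB0]
                congr 1
                ring
            _ = (B : ℝ) ^ (-(η / 4)) := by
                rw [← Real.rpow_mul hB0.le]; congr 1; ring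
        calc G * ((U : ℝ) / B) ^ ((1 : ℝ) / 4) * (B : ℝ) ^ m *
              ∑ q ∈ Finset.Icc 1 X2, 1 / (q : ℝ) ≤
              G * (B : ℝ) ^ (-(η / 4)) * (B : ℝ) ^ m * (CH * (B : ℝ) ^ ε1) := by
              refine mul_le_mul ?_ (hCH B X2 hB hX2B) (Finset.sum_nonneg fun _ _ => by positivity)
                (by positivity)
              exact mul_le_mul_of_nonneg_right (mul_le_mul_of_nonneg_left e1 hG0.le) (by positivity)
          _ = (G * CH) * ((B : ℝ) ^ m * (B : ℝ) ^ (-(η / 4)) * (B : ℝ) ^ ε1) := by ring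
          _ = _ := by
              rw [pow_eq_rpow_mul _ hB0, ← Real.rpow_add hB0]
              congr 2
      calc C * (B : ℝ) ^ ε1 * (((Finset.Icc 1 X2).card : ℝ) * ((B : ℝ) / U) ^ m +
            K ^ (m - 1) * (U * (B : ℝ) ^ (m - 1)) +
            G * ((U : ℝ) / B) ^ ((1 : ℝ) / 4) * (B : ℝ) ^ m *
              ∑ q ∈ Finset.Icc 1 X2, 1 / (q : ℝ)) ≤
            C * (B : ℝ) ^ ε1 * (2 ^ m * (B : ℝ) ^ ((m : ℝ) - η / 4 + ε1) +
              K ^ (m - 1) * (B : ℝ) ^ ((m : ℝ) - η / 4 + ε1) +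
              (G * CH) * (B : ℝ) ^ ((m : ℝ) - η / 4 + ε1)) :=
            mul_le_mul_of_nonneg_left (add_le_add (add_le_add b1 b2) b3) (by positivity)
        _ = C * C' * ((B : ℝ) ^ ε1 * (B : ℝ) ^ ((m : ℝ) - η / 4 + ε1)) := by rw [hC']; ring
        _ = _ := by
            rw [← Real.rpow_add hB0]
            congr 2
            rw [hε1]
            ring
    rw [hcard]
    refine (Finset.sum_le_sum hσ).trans ?_
    rw [Finset.sum_const, nsmul_eq_mul, card_Icc_int]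
    have h3 : (((2 * Y + 1 : ℕ)) : ℝ) ≤ 3 * (B : ℝ) ^ (η / 16) := by
      push_cast
      linarith
    calc (((2 * Y + 1 : ℕ)) : ℝ) * (C * C' * (B : ℝ) ^ ((m : ℝ) - 3 * η / 16)) ≤
          (3 * (B : ℝ) ^ (η / 16)) * (C * C' * (B : ℝ) ^ ((m : ℝ) - 3 * η / 16)) :=
          mul_le_mul_of_nonneg_right h3 (by positivity)
      _ = 3 * (C * C') * ((B : ℝ) ^ (η / 16) * (B : ℝ) ^ ((m : ℝ) - 3 * η / 16)) := by ring
      _ = _ := by
          rw [← Real.rpow_add hB0]
          congr 2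
          ring
  have h2 := card_outer J B Z hZ _ hfix
  exact h2.trans (outer_bound (n + 1) m B hB hmN (3 * (C * C')) (η / 8) (by positivity))

end Pool.Agent.N445.DF
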