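import Mathlib
import Pool.Agent.N445.VW.Rad2
import Pool.Agent.N445.DF.A11

/-! # The radical of the values of a form: the abstract argument -/

set_option autoImplicit false

namespace Pool.Agent.N445.DF

open MvPolynomial Pool.Agent.TH910.Voj Pool.Agent.H813R3.Voj Pool.Agent.N445.VW

/-- the small parameter -/
theorem exists_gammaN (a : ℝ) (k : ℕ) (ha : 1 < a) (η : ℝ) (hη : 0 < η) :
    ∃ γ : ℝ, 0 < γ ∧ γ ≤ η / 4 ∧ γ ≤ 1 / 8 ∧ γ ≤ a - 1 ∧
      (∀ e ∈ Finset.Icc 2 k, (k : ℝ) < (e + 1) * a →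
        (k : ℝ) + (e + 2) * γ ≤ (e + 1) * a) ∧
      (∀ t ∈ Finset.range (k + 2), (k : ℝ) < t * a → (k : ℝ) + γ ≤ t * (a - γ)) := by
  have hle : ∀ c : ℝ, 0 < c → ∀ᶠ γ in nhdsWithin (0 : ℝ) (Set.Ioi 0), γ ≤ c := fun c hc =>
    (eventually_le_nhds hc).filter_mono nhdsWithin_le_nhds
  have h1 : ∀ᶠ γ in nhdsWithin (0 : ℝ) (Set.Ioi 0), 0 < γ := self_mem_nhdsWithin
  have h5 : ∀ᶠ γ in nhdsWithin (0 : ℝ) (Set.Ioi 0), ∀ e ∈ Finset.Icc 2 k,
      (k : ℝ) < (e + 1) * a → (k : ℝ) + (e + 2) * γ ≤ (e + 1) * a := by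
    rw [Filter.eventually_all_finset]
    intro e _
    by_cases hgap : (k : ℝ) < (e + 1) * a
    · have he0 : (0 : ℝ) < (e : ℝ) + 2 := by positivity
      filter_upwards [hle (((e + 1) * a - k) / (e + 2)) (div_pos (by linarith) he0)] with γ hγ _
      rw [le_div_iff₀ he0] at hγ
      linarith
    · exact Filter.Eventually.of_forall fun γ h => absurd h hgap
  have h6 : ∀ᶠ γ in nhdsWithin (0 : ℝ) (Set.Ioi 0), ∀ t ∈ Finset.range (k + 2),
      (k : ℝ) < t * a → (k : ℝ) + γ ≤ t * (a - γ) := by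
    rw [Filter.eventually_all_finset]
    intro t _
    by_cases hgap : (k : ℝ) < t * a
    · have ht0 : (0 : ℝ) < (t : ℝ) + 1 := by positivity
      filter_upwards [hle ((t * a - k) / (t + 1)) (div_pos (by linarith) ht0)] with γ hγ _
      rw [le_div_iff₀ ht0] at hγ
      linarith
    · exact Filter.Eventually.of_forall fun γ h => absurd h hgap
  obtain ⟨γ, g1, g2, g3, g4, g5, g6⟩ := (h1.and ((hle (η / 4) (by positivity)).and
    ((hle (1 / 8) (by norm_num)).and ((hle (a - 1) (by linarith)).and (h5.and h6))))).exists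
  exact ⟨γ, g1, g2, g3, g4, g5, g6⟩

/-- two large primes with exponents `i ≤ j` -/
theorem pair_contra (B N p q s M α m η γ ε : ℝ) (k i j : ℕ) (hBr : 1 ≤ B) (hγ0 : 0 < γ)
    (hγ1 : γ ≤ α - 1) (hγη : γ ≤ η / 4) (hε1 : ε ≤ η / 40) (hγ8 : γ ≤ 1 / 8)
    (hγt : ∀ t ∈ Finset.range (k + 2), (k : ℝ) < t * α → (k : ℝ) + γ ≤ t * (α - γ))
    (hpairs : (k : ℝ) < (i + j : ℕ) * α ∨ j * m ≤ k + (j - i) * α)
    (hpB : B ^ (α - γ) < p) (hqB : B ^ (α - γ) < q) (hi : 2 ≤ i) (hij : i ≤ j)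
    (hNpq : N = p ^ i * q ^ j * s * M) (hpqs : p * q * s ≤ B ^ (m - η)) (hs : 1 ≤ s)
    (hM : 1 ≤ M) (hM2 : M ≤ B ^ (4 * ε)) (hNup : N ≤ B ^ ((k : ℝ) + γ))
    (hNlow : B ^ ((k : ℝ) - ε) < N) : False := by
  have hBpos : 0 < B := by linarith
  obtain ⟨β, hβ⟩ : ∃ β, β = α - γ := ⟨_, rfl⟩
  rw [← hβ] at hpB hqB
  have hβ1 : 1 ≤ β := by rw [hβ]; linarith
  have hη0 : 0 < η := by linarith
  have hBβ : 0 < B ^ β := by positivity
  have hp0 : 0 < p := hBβ.trans hpB
  have hq0 : 0 < q := hBβ.trans hqB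
  have hpow : ∀ (X : ℝ) (t : ℕ), B ^ β < X → B ^ (β * t) ≤ X ^ t := by
    intro X t hX
    rw [Real.rpow_mul hBpos.le, Real.rpow_natCast]
    exact pow_le_pow_left₀ hBβ.le hX.le _
  have hlow2 : B ^ ((i + j : ℕ) * β) < N := by
    have h1 : B ^ ((i + j : ℕ) * β) = B ^ (β * i) * B ^ (β * j) := by
      rw [← Real.rpow_add hBpos]; congr 1; push_cast; ring
    rw [h1, hNpq]
    have h2 : B ^ (β * i) < p ^ i := by
      rw [Real.rpow_mul hBpos.le, Real.rpow_natCast]
      exact pow_lt_pow_left₀ hpB hBβ.le (by omega)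
    calc B ^ (β * i) * B ^ (β * j) < p ^ i * q ^ j :=
          mul_lt_mul h2 (hpow q j hqB) (by positivity) (by positivity)
      _ ≤ p ^ i * q ^ j * s := le_mul_of_one_le_right (by positivity) hs
      _ ≤ _ := le_mul_of_one_le_right (by positivity) hM
  have hexp : ((i + j : ℕ) : ℝ) * β < k + γ := by
    by_contra hcon
    push Not at hcon
    have := Real.rpow_le_rpow_of_exponent_le hBr hcon
    linarith
  rcases hpairs with h | h
  · by_cases ht : i + j < k + 2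
    · have := hγt (i + j) (Finset.mem_range.2 ht) h
      rw [← hβ] at this
      linarith
    · have h1 : ((k + 2 : ℕ) : ℝ) ≤ ((i + j : ℕ) : ℝ) := by
        exact_mod_cast (by omega : k + 2 ≤ i + j)
      have h2 : ((i + j : ℕ) : ℝ) ≤ ((i + j : ℕ) : ℝ) * β :=
        le_mul_of_one_le_right (Nat.cast_nonneg _) hβ1
      push_cast at h1 h2 hexp
      linarith
  · have h1 : B ^ ((k : ℝ) - 5 * ε) < p ^ i * q ^ j * s := by
      have h2 : B ^ ((k : ℝ) - ε) < p ^ i * q ^ j * s * B ^ (4 * ε) := by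
        calc B ^ ((k : ℝ) - ε) < N := hNlow
          _ = p ^ i * q ^ j * s * M := hNpq
          _ ≤ _ := mul_le_mul_of_nonneg_left hM2 (by positivity)
      have h3 : B ^ ((k : ℝ) - 5 * ε) = B ^ ((k : ℝ) - ε) / B ^ (4 * ε) := by
        rw [← Real.rpow_sub hBpos]; congr 1; ring
      rw [h3, div_lt_iff₀ (by positivity)]
      exact h2
    have h2 : B ^ (β * (j - i : ℕ) + ((k : ℝ) - 5 * ε)) < (p * q * s) ^ j := by
      calc B ^ (β * (j - i : ℕ) + ((k : ℝ) - 5 * ε)) =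
            B ^ (β * (j - i : ℕ)) * B ^ ((k : ℝ) - 5 * ε) := Real.rpow_add hBpos _ _
        _ ≤ p ^ (j - i) * B ^ ((k : ℝ) - 5 * ε) :=
            mul_le_mul_of_nonneg_right (hpow p (j - i) hpB) (by positivity)
        _ < p ^ (j - i) * (p ^ i * q ^ j * s) := mul_lt_mul_of_pos_left h1 (by positivity)
        _ = (p * q) ^ j * s := by
            have : p ^ j = p ^ (j - i) * p ^ i := by rw [← pow_add]; congr 1; omega
            rw [mul_pow, this]; ring
        _ ≤ (p * q) ^ j * s ^ j := by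
            refine mul_le_mul_of_nonneg_left ?_ (by positivity)
            exact le_self_pow₀ hs (by omega)
        _ = (p * q * s) ^ j := by rw [mul_pow (p * q)]
    have h3 : (p * q * s) ^ j ≤ B ^ (j * (m - η)) := by
      calc (p * q * s) ^ j ≤ (B ^ (m - η)) ^ j := pow_le_pow_left₀ (by positivity) hpqs j
        _ = _ := by rw [← Real.rpow_natCast, ← Real.rpow_mul hBpos.le, mul_comm]
    have h4 : B ^ (j * (m - η)) ≤ B ^ (β * (j - i : ℕ) + ((k : ℝ) - 5 * ε)) := by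
      refine Real.rpow_le_rpow_of_exponent_le hBr ?_
      rw [hβ, Nat.cast_sub hij]
      have hj2 : (2 : ℝ) ≤ j := by exact_mod_cast (hi.trans hij)
      have hi0 : (0 : ℝ) ≤ i := Nat.cast_nonneg i
      have hji : (0 : ℝ) ≤ (j : ℝ) - i := by
        have : (i : ℝ) ≤ j := by exact_mod_cast hij
        linarith
      have h5 : ((j : ℝ) - i) * γ ≤ j * (η / 4) :=
        mul_le_mul (by linarith) hγη hγ0.le (by linarith)
      have h6 : 2 * (η / 4) ≤ j * (η / 4) := mul_le_mul_of_nonneg_right hj2 (by positivity)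
      have h7 : (j : ℝ) * (m - η) = j * m - 4 * (j * (η / 4)) := by ring
      have h8 : (α - γ) * ((j : ℝ) - i) = ((j : ℝ) - i) * α - ((j : ℝ) - i) * γ := by ring
      rw [h7, h8]
      linarith
    linarith

/-- **The radical of the values of a form.** -/
theorem rad_abs {n : ℕ} (F : MvPolynomial (Fin (n + 1)) ℤ) {k : ℕ}
    (hk : F.IsHomogeneous k) (hk2 : 2 ≤ k) (hirr : Irreducible (toQ F)) (α : ℝ) (hα : 1 < α)
    (v : Fin (n + 1) → ℤ) (hFv : eval v F ≠ 0) (K0 : ℤ) (hK0 : K0 ≠ 0) (ρ : ℝ → ℝ)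
    (hρ : ∀ δ, 0 < δ → 0 < ρ δ) (Q : (Fin (n + 1) → ℤ) → Prop)
    (H1 : ∀ ε δ : ℝ, 0 < ε → ε ≤ 1 / 16 → 0 < δ → δ ≤ 1 → Sparse (n + 1) (fun B x => Q x ∧
      ∃ M : ℕ, (B : ℝ) ^ ε < M ∧ ((M : ℤ) ^ 2 ∣ eval x F) ∧
      ∀ p : ℕ, p.Prime → p ∣ M → (p : ℝ) ≤ (B : ℝ) ^ (α - δ) ∧
        ¬ (p : ℤ) ∣ K0 * eval x (dder v F)))
    (H2 : ∀ e : ℕ, 2 ≤ e → ∀ δ : ℝ, 0 < δ → δ ≤ 1 → Sparse (n + 1) (fun B x => Q x ∧
      ∃ (s : ℕ) (σ w : ℤ), Squarefree s ∧ (s : ℝ) ≤ (B : ℝ) ^ (α - δ) ∧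
      (σ.natAbs : ℝ) ≤ (B : ℝ) ^ (ρ δ) ∧ eval x F = σ * s * w ^ e ∧ eval x F ≠ 0 ∧
      ∀ p : ℕ, p.Prime → p ∣ s → ¬ (p : ℤ) ∣ K0 * eval x (dder v F)))
    (m η : ℝ) (hη : 0 < η) (hmk : m ≤ k)
    (hadm : ∀ e : ℕ, 2 ≤ e → (k : ℝ) < (e + 1) * α ∨ m ≤ k / e + (1 - 1 / (e : ℝ)) * α)
    (hthree : m ≤ 3 * α)
    (hpairs : ∀ i j : ℕ, 2 ≤ i → i ≤ j → (k : ℝ) < (i + j : ℕ) * α ∨
      j * m ≤ k + (j - i) * α) :
    Sparse (n + 1) (fun B x => Q x ∧ eval x F ≠ 0 ∧
      (rd (eval x F).natAbs : ℝ) ≤ (B : ℝ) ^ (m - η)) := by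
  classical
  have hk1 : 1 ≤ k := by omega
  have hF0 : F ≠ 0 := by rintro rfl; simp at hFv
  have hG := not_dvd_dder v F hk hk1 hFv
  obtain ⟨c, hc1, hc⟩ := exists_eval_bound F (hk.totalDegree_le)
  obtain ⟨γ, hγ0, hγη, hγ8, hγ1, hγe, hγt⟩ := exists_gammaN α k hα η hη
  set ε : ℝ := min (min (η / 40) (1 / 16)) (min (γ / 4) (ρ γ / 8)) with hε
  have hργ := hρ γ hγ0
  have hε0 : 0 < ε := lt_min (lt_min (by positivity) (by norm_num))
    (lt_min (by positivity) (by positivity))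
  have hε1 : ε ≤ η / 40 := (min_le_left _ _).trans (min_le_left _ _)
  have hε2 : ε ≤ 1 / 16 := (min_le_left _ _).trans (min_le_right _ _)
  have hε3 : ε ≤ γ / 4 := (min_le_right _ _).trans (min_le_left _ _)
  have hε4 : ε ≤ ρ γ / 8 := (min_le_right _ _).trans (min_le_right _ _)
  set θ := m - η with hθ
  set β := α - γ with hβ
  have hβ1 : 1 ≤ β := by rw [hβ]; linarith
  obtain ⟨η1, hη1, S1⟩ := sparse_sing F hk hk1 hirr hε0 (by linarith)
  have S2 := sparse_gcd F (dder v F) hk hirr hG (η := η1 / 2) (by positivity)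
  have S3 := H1 ε γ hε0 hε2 hγ0 (by linarith)
  have S0 := sparse_small_value F hk hF0 hε0 (by linarith)
  have S5 : Sparse (n + 1) (fun B x => ∃ j : Fin (k + 1), 2 ≤ (j : ℕ) ∧
      (Q x ∧ ∃ (s : ℕ) (σ w : ℤ), Squarefree s ∧ (s : ℝ) ≤ (B : ℝ) ^ (α - γ) ∧
      (σ.natAbs : ℝ) ≤ (B : ℝ) ^ (ρ γ) ∧ eval x F = σ * s * w ^ (j : ℕ) ∧ eval x F ≠ 0 ∧
      ∀ p : ℕ, p.Prime → p ∣ s → ¬ (p : ℤ) ∣ K0 * eval x (dder v F))) := by
    refine Sparse.exists_fin fun j => ?_
    by_cases hj : 2 ≤ (j : ℕ)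
    · exact (H2 j hj γ hγ0 (by linarith)).mono fun B x _ _ h => h.2
    · exact (Sparse.false (n + 1)).mono fun B x _ _ h => hj h.1
  -- large `B`
  have hev : ∀ (t : ℝ), 0 < t → ∀ C : ℝ, ∃ B₀ : ℕ, ∀ B : ℕ, B₀ ≤ B → C ≤ (B : ℝ) ^ t := by
    intro t ht C
    have h1 : Filter.Tendsto (fun B : ℕ => (B : ℝ) ^ t) Filter.atTop Filter.atTop :=
      (tendsto_rpow_atTop ht).comp tendsto_natCast_atTop_atTop
    exact Filter.eventually_atTop.mp (h1.eventually_ge_atTop C)
  obtain ⟨B1, hB1⟩ := hev (η1 / 2) (by positivity) (K0.natAbs : ℝ)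
  obtain ⟨B2, hB2⟩ := hev γ hγ0 (c : ℝ)
  refine (((S0.or S1).or (S2.or (S3.or S5))).of_eventually (B1 + B2) ?_)
  rintro B x hBB hB hx ⟨hQ, hne, hrad⟩
  by_contra hcon
  rw [not_or, not_or, not_or, not_or] at hcon
  obtain ⟨⟨n0, n1⟩, n2, n3, n5⟩ := hcon
  have hBr : (1 : ℝ) ≤ B := by exact_mod_cast hB
  have hBpos : (0 : ℝ) < B := by linarith
  have hKB := hB1 B (by omega)
  have hcB := hB2 B (by omega)
  set N := (eval x F).natAbs with hN
  have hN0 : N ≠ 0 := Int.natAbs_ne_zero.2 hne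
  have hNpos : 0 < N := Nat.pos_of_ne_zero hN0
  have hNup : (N : ℝ) ≤ (B : ℝ) ^ ((k : ℝ) + γ) := by
    have h1 : (N : ℝ) ≤ c * (B : ℝ) ^ k := by exact_mod_cast hc B hB x hx
    refine h1.trans ?_
    rw [add_comm, Real.rpow_add hBpos, Real.rpow_natCast]
    exact mul_le_mul_of_nonneg_right hcB (by positivity)
  have hNlow : (B : ℝ) ^ ((k : ℝ) - ε) < N := by
    by_contra h
    push Not at h
    exact n0 ⟨hne, h⟩
  have hdvdN : ∀ d : ℕ, d ∣ N → (d : ℤ) ∣ eval x F := fun d hd => Int.natCast_dvd.2 hd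
  have hBε : 1 ≤ (B : ℝ) ^ ε := Real.one_le_rpow hBr hε0.le
  -- the singular divisors are small
  have hsing : ∀ t : ℕ, t ∣ N → (∀ p : ℕ, p.Prime → p ∣ t →
      (p : ℤ) ∣ K0 * eval x (dder v F)) → (t : ℝ) ≤ (B : ℝ) ^ ε := by
    intro t htN htp
    by_contra h
    push Not at h
    refine n1 ⟨hne, t, hdvdN t htN, h, ?_⟩
    have hg0 : Int.gcd (eval x F) (eval x (dder v F)) ≠ 0 := fun h =>
      hne (Int.gcd_eq_zero_iff.mp h).1
    have h1 : rd t ≤ K0.natAbs * rd (Int.gcd (eval x F) (eval x (dder v F))) := by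
      refine rd_le_mul t _ _ (Int.natAbs_ne_zero.2 hK0) hg0 ?_
      intro p hp hpM
      have hpZ : Prime (p : ℤ) := Nat.prime_iff_prime_int.1 hp
      rcases hpZ.dvd_or_dvd (htp p hp hpM) with h2 | h2
      · left; exact Int.natCast_dvd.1 h2
      · right
        have h3 : (p : ℤ) ∣ eval x F := hdvdN p (hpM.trans htN)
        exact Nat.dvd_gcd (Int.natCast_dvd.1 h3) (Int.natCast_dvd.1 h2)
    have h2 : (rd (Int.gcd (eval x F) (eval x (dder v F))) : ℝ) ≤ (B : ℝ) ^ (η1 / 2) := by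
      by_contra h3
      push Not at h3
      exact n2 ⟨hne, h3⟩
    calc (rd t : ℝ) ≤ K0.natAbs * rd (Int.gcd (eval x F) (eval x (dder v F))) := by
          exact_mod_cast h1
      _ ≤ (B : ℝ) ^ (η1 / 2) * (B : ℝ) ^ (η1 / 2) :=
          mul_le_mul hKB h2 (Nat.cast_nonneg _) (by positivity)
      _ = (B : ℝ) ^ η1 := by rw [← Real.rpow_add hBpos]; congr 1; ring
  obtain ⟨s0, M, hMN, hsq⟩ := Nat.sq_mul_squarefree N
  have hM0 : M ≠ 0 := by
    rintro rfl
    simp at hMN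
    omega
  have hs00 : s0 ≠ 0 := by
    rintro rfl
    simp at hMN
    omega
  obtain ⟨ML, M1, hML, hMLp, hM1p⟩ := exists_split M hM0 (fun p => (B : ℝ) ^ β < p)
  have hML0 : ML ≠ 0 := by rintro rfl; simp at hML; exact hM0 hML.symm
  have hM10 : M1 ≠ 0 := by rintro rfl; simp at hML; exact hM0 hML.symm
  obtain ⟨Ms, Mn, hMs, hMsp, hMnp⟩ := exists_split M1 hM10
    (fun p => (p : ℤ) ∣ K0 * eval x (dder v F))
  have hMdvd : M ^ 2 ∣ N := ⟨s0, hMN.symm⟩
  have hM1M : M1 ∣ M := ⟨ML, by rw [mul_comm]; exact hML.symm⟩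
  have hMsM : Ms ∣ M := (Dvd.intro _ hMs).trans hM1M
  have hMnM : Mn ∣ M := (Dvd.intro_left _ hMs).trans hM1M
  have hMLM : ML ∣ M := Dvd.intro _ hML
  have hMN1 : M ∣ N := (dvd_pow_self M two_ne_zero).trans hMdvd
  -- the singular part
  have bMs : (Ms : ℝ) ≤ (B : ℝ) ^ ε := hsing Ms (hMsM.trans hMN1) hMsp
  -- the non-singular part
  have bMn : (Mn : ℝ) ≤ (B : ℝ) ^ ε := by
    by_contra h
    push Not at h
    refine n3 ⟨hQ, Mn, h, ?_, ?_⟩
    · have h3 : Mn ^ 2 ∣ N := (pow_dvd_pow_of_dvd hMnM 2).trans hMdvd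
      exact_mod_cast hdvdN _ h3
    · intro p hp hpM
      refine ⟨?_, hMnp p hp hpM⟩
      have h2 := hM1p p hp (hpM.trans (Dvd.intro_left _ hMs))
      push Not at h2
      exact h2
  have bM1 : (M1 : ℝ) ^ 2 ≤ (B : ℝ) ^ (4 * ε) := by
    have h1 : (M1 : ℝ) = Ms * Mn := by rw [← hMs]; push_cast; rfl
    have h2 : (M1 : ℝ) ≤ (B : ℝ) ^ ε * (B : ℝ) ^ ε := by
      rw [h1]; exact mul_le_mul bMs bMn (Nat.cast_nonneg _) (by positivity)
    calc (M1 : ℝ) ^ 2 ≤ ((B : ℝ) ^ ε * (B : ℝ) ^ ε) ^ 2 := pow_le_pow_left₀ (Nat.cast_nonneg _) h2 2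
      _ = (B : ℝ) ^ (4 * ε) := by
          rw [← Real.rpow_add hBpos, ← Real.rpow_natCast, ← Real.rpow_mul hBpos.le]
          congr 1
          push_cast
          ring
  -- values of a given shape
  have hshape : ∀ (e s w : ℕ), 2 ≤ e → e ≤ k → s ∣ N → Squarefree s → (s : ℝ) ≤ (B : ℝ) ^ β →
      N = M1 ^ 2 * s * w ^ e → False := by
    intro e s w he hek hsN hssq hs hNs
    have hs0 : s ≠ 0 := by
      rintro rfl
      rw [zero_dvd_iff] at hsN
      exact hN0 hsN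
    obtain ⟨s1, s2, hs12, hs1p, hs2p⟩ := exists_split s hs0
      (fun p => (p : ℤ) ∣ K0 * eval x (dder v F))
    have hs1N : s1 ∣ N := (Dvd.intro _ hs12).trans hsN
    have b1 : (s1 : ℝ) ≤ (B : ℝ) ^ ε := hsing s1 hs1N hs1p
    have hs10 : s1 ≠ 0 := by rintro rfl; simp at hs12; exact hs0 hs12.symm
    have hs2le : (s2 : ℝ) ≤ (B : ℝ) ^ (α - γ) := by
      refine le_trans ?_ hs
      have : s2 ≤ s := Nat.le_of_dvd (Nat.pos_of_ne_zero hs0) (Dvd.intro_left _ hs12)
      exact_mod_cast this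
    have hσ : ((M1 ^ 2 * s1 : ℕ) : ℝ) ≤ (B : ℝ) ^ (ρ γ) := by
      push_cast
      calc (M1 : ℝ) ^ 2 * s1 ≤ (B : ℝ) ^ (4 * ε) * (B : ℝ) ^ ε :=
            mul_le_mul bM1 b1 (Nat.cast_nonneg _) (by positivity)
        _ = (B : ℝ) ^ (5 * ε) := by rw [← Real.rpow_add hBpos]; congr 1; ring
        _ ≤ _ := Real.rpow_le_rpow_of_exponent_le hBr (by linarith)
    have hs2sq : Squarefree s2 := hssq.squarefree_of_dvd (Dvd.intro_left _ hs12)
    refine n5 ⟨⟨e, by omega⟩, he, hQ, ?_⟩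
    rcases Int.natAbs_eq (eval x F) with h | h
    · refine ⟨s2, ((M1 ^ 2 * s1 : ℕ) : ℤ), (w : ℤ), hs2sq, hs2le, ?_, ?_, hne, hs2p⟩
      · rw [Int.natAbs_natCast]; exact hσ
      · rw [h, ← hN, hNs, ← hs12]; push_cast; ring
    · refine ⟨s2, -((M1 ^ 2 * s1 : ℕ) : ℤ), (w : ℤ), hs2sq, hs2le, ?_, ?_, hne, hs2p⟩
      · rw [Int.natAbs_neg, Int.natAbs_natCast]; exact hσ
      · rw [h, ← hN, hNs, ← hs12]; push_cast; ring
  have hs0rd : s0 ≤ rd N := squarefree_le_rd s0 N hN0 hsq (Dvd.intro_left _ hMN)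
  by_cases hML1 : ML = 1
  · -- no large prime
    have h1 : M = M1 := by rw [← hML, hML1, one_mul]
    have h2 : (N : ℝ) ≤ (B : ℝ) ^ (4 * ε) * (B : ℝ) ^ θ := by
      have h3 : (N : ℝ) = (M1 : ℝ) ^ 2 * s0 := by rw [← hMN, h1]; push_cast; rfl
      rw [h3]
      refine mul_le_mul bM1 ?_ (Nat.cast_nonneg _) (by positivity)
      exact le_trans (by exact_mod_cast hs0rd) hrad
    have h3 : (B : ℝ) ^ (4 * ε) * (B : ℝ) ^ θ ≤ (B : ℝ) ^ ((k : ℝ) - ε) := by
      rw [← Real.rpow_add hBpos]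
      refine Real.rpow_le_rpow_of_exponent_le hBr ?_
      rw [hθ]; linarith
    linarith
  · set p := ML.minFac with hp
    have hpp : p.Prime := Nat.minFac_prime hML1
    have hpML : p ∣ ML := Nat.minFac_dvd ML
    have hpB : (B : ℝ) ^ β < p := hMLp p hpp hpML
    have hp0 : (0 : ℝ) < p := by exact_mod_cast hpp.pos
    by_cases hq : ∃ q : ℕ, q.Prime ∧ q ∣ ML ∧ q ≠ p
    · -- two large primes
      obtain ⟨q, hqp, hqML, hqne⟩ := hq
      have hqB : (B : ℝ) ^ β < q := hMLp q hqp hqML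
      have hcop : Nat.Coprime p q := (Nat.coprime_primes hpp hqp).2 hqne.symm
      by_cases hthird : ∃ l : ℕ, l.Prime ∧ l ∣ ML ∧ l ≠ p ∧ l ≠ q
      · -- three large primes
        obtain ⟨l, hlp, hlML, hlnp, hlnq⟩ := hthird
        have hlB : (B : ℝ) ^ β < l := hMLp l hlp hlML
        have hcop2 : Nat.Coprime (p * q) l := Nat.Coprime.mul_left
          ((Nat.coprime_primes hpp hlp).2 hlnp.symm) ((Nat.coprime_primes hqp hlp).2 hlnq.symm)
        have hpql : p * q * l ∣ N := ((hcop2.mul_dvd_of_dvd_of_dvd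
          (hcop.mul_dvd_of_dvd_of_dvd hpML hqML) hlML).trans hMLM).trans hMN1
        have h3 : p * q * l ≤ rd N := by
          refine squarefree_le_rd _ N hN0 ?_ hpql
          exact (Nat.squarefree_mul hcop2).2
            ⟨(Nat.squarefree_mul hcop).2 ⟨hpp.squarefree, hqp.squarefree⟩, hlp.squarefree⟩
        have h4 : ((p * q * l : ℕ) : ℝ) ≤ (B : ℝ) ^ θ := le_trans (by exact_mod_cast h3) hrad
        have h5 : (B : ℝ) ^ θ ≤ (B : ℝ) ^ (3 * β) := by
          refine Real.rpow_le_rpow_of_exponent_le hBr ?_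
          rw [hθ, hβ]; linarith
        have h6 : (B : ℝ) ^ (3 * β) < (p * q * l : ℕ) := by
          have h2 : (B : ℝ) ^ (3 * β) = (B : ℝ) ^ β * (B : ℝ) ^ β * (B : ℝ) ^ β := by
            rw [← Real.rpow_add hBpos, ← Real.rpow_add hBpos]; congr 1; ring
          rw [h2]
          push_cast
          exact mul_lt_mul'' (mul_lt_mul'' hpB hqB (by positivity) (by positivity)) hlB
            (by positivity) (by positivity)
        linarith
      push Not at hthird
      -- exactly two large primes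
      obtain ⟨P1, P2, hP12, hP1, hP2⟩ := exists_split ML hML0 (fun l => l = p)
      have hP10 : P1 ≠ 0 := by rintro rfl; simp at hP12; exact hML0 hP12.symm
      have hP20 : P2 ≠ 0 := by rintro rfl; simp at hP12; exact hML0 hP12.symm
      have hP1pow : P1 = p ^ P1.primeFactorsList.length :=
        Nat.eq_prime_pow_of_unique_prime_dvd hP10 fun {d} hd hdM => hP1 d hd hdM
      have hP2pow : P2 = q ^ P2.primeFactorsList.length :=
        Nat.eq_prime_pow_of_unique_prime_dvd hP20 fun {d} hd hdM =>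
          hthird d hd (hdM.trans (Dvd.intro_left _ hP12)) (hP2 d hd hdM)
      set j1 := P1.primeFactorsList.length with hj1
      set j2 := P2.primeFactorsList.length with hj2
      have hpP1 : p ∣ P1 := by
        have h1 : p ∣ P1 * P2 := by rw [hP12]; exact hpML
        rcases (Nat.Prime.dvd_mul hpp).1 h1 with h | h
        · exact h
        · exact absurd rfl (hP2 p hpp h)
      have hqP2 : q ∣ P2 := by
        have h1 : q ∣ P1 * P2 := by rw [hP12]; exact hqML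
        rcases (Nat.Prime.dvd_mul hqp).1 h1 with h | h
        · exact absurd (hP1 q hqp h) hqne
        · exact h
      have hj11 : 1 ≤ j1 := by
        by_contra h
        have h0 : j1 = 0 := by omega
        rw [h0, pow_zero] at hP1pow
        rw [hP1pow] at hpP1
        exact hpp.one_lt.ne' (Nat.dvd_one.1 hpP1)
      have hj21 : 1 ≤ j2 := by
        by_contra h
        have h0 : j2 = 0 := by omega
        rw [h0, pow_zero] at hP2pow
        rw [hP2pow] at hqP2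
        exact hqp.one_lt.ne' (Nat.dvd_one.1 hqP2)
      -- the primes in the squarefree part
      have hpull : ∀ (l t : ℕ), l.Prime → Squarefree t → ∃ δ s1 : ℕ, t = l ^ δ * s1 ∧ ¬ l ∣ s1 ∧
          Squarefree s1 := by
        intro l t hl ht
        by_cases hlt : l ∣ t
        · obtain ⟨s1, rfl⟩ := hlt
          refine ⟨1, s1, by ring, ?_, ht.of_mul_right⟩
          intro h
          have := ht l (mul_dvd_mul_left l h)
          exact hl.one_lt.ne' (Nat.isUnit_iff.1 this)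
        · exact ⟨0, t, by ring, hlt, ht⟩
      obtain ⟨δ1, s1, hs01, hps1, hs1sq⟩ := hpull p s0 hpp hsq
      obtain ⟨δ2, s2, hs12, hqs2, hs2sq⟩ := hpull q s1 hqp hs1sq
      have hps2 : ¬ p ∣ s2 := fun h => hps1 (by rw [hs12]; exact h.mul_left _)
      have hNeq : N = p ^ (2 * j1 + δ1) * q ^ (2 * j2 + δ2) * s2 * M1 ^ 2 := by
        rw [← hMN, ← hML, ← hP12, hP1pow, hP2pow, hs01, hs12]
        ring
      have hcop3 : Nat.Coprime (p * q) s2 := Nat.Coprime.mul_left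
        ((Nat.Prime.coprime_iff_not_dvd hpp).2 hps2) ((Nat.Prime.coprime_iff_not_dvd hqp).2 hqs2)
      have hrd3 : p * q * s2 ≤ rd N := by
        refine squarefree_le_rd _ N hN0 ?_ ?_
        · exact (Nat.squarefree_mul hcop3).2
            ⟨(Nat.squarefree_mul hcop).2 ⟨hpp.squarefree, hqp.squarefree⟩, hs2sq⟩
        · rw [hNeq]
          refine Dvd.dvd.mul_right ?_ _
          refine mul_dvd_mul (mul_dvd_mul (dvd_pow_self p (by omega)) (dvd_pow_self q (by omega)))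
            dvd_rfl
      have hrd3r : ((p : ℝ) * q * s2) ≤ (B : ℝ) ^ θ := by
        refine le_trans ?_ hrad
        exact_mod_cast hrd3
      have hs20 : (1 : ℝ) ≤ s2 := by
        have : s2 ≠ 0 := by
          rintro rfl
          exact not_squarefree_zero hs2sq
        exact_mod_cast Nat.one_le_iff_ne_zero.2 this
      rcases le_total (2 * j1 + δ1) (2 * j2 + δ2) with h | h
      · refine pair_contra B N p q s2 ((M1 : ℝ) ^ 2) α m η γ ε k _ _ hBr hγ0 hγ1 hγη hε1 hγ8 hγt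
          (hpairs _ _ (by omega) h) hpB hqB (by omega) h ?_ hrd3r hs20 ?_ bM1 hNup hNlow
        · rw [hNeq]; push_cast; ring
        · have : (1 : ℝ) ≤ M1 := by exact_mod_cast Nat.one_le_iff_ne_zero.2 hM10
          exact one_le_pow₀ this
      · refine pair_contra B N q p s2 ((M1 : ℝ) ^ 2) α m η γ ε k _ _ hBr hγ0 hγ1 hγη hε1 hγ8 hγt
          (hpairs _ _ (by omega) h) hqB hpB (by omega) h ?_ ?_ hs20 ?_ bM1 hNup hNlow
        · rw [hNeq]; push_cast; ring
        · rw [mul_comm (q : ℝ)]; exact hrd3r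
        · have : (1 : ℝ) ≤ M1 := by exact_mod_cast Nat.one_le_iff_ne_zero.2 hM10
          exact one_le_pow₀ this
    · -- one large prime
      push Not at hq
      have hMLpow : ML = p ^ ML.primeFactorsList.length :=
        Nat.eq_prime_pow_of_unique_prime_dvd hML0 fun {d} hd hdM => hq d hd hdM
      set j := ML.primeFactorsList.length with hj
      have hj1 : 1 ≤ j := by
        by_contra h
        have : j = 0 := by omega
        rw [this, pow_zero] at hMLpow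
        exact hML1 hMLpow
      obtain ⟨s', e, he2, hes, hs'⟩ : ∃ s' e : ℕ, 2 ≤ e ∧ N = p ^ e * (s' * M1 ^ 2) ∧
          Squarefree (p * s') := by
        by_cases hps : p ∣ s0
        · obtain ⟨s', hs'⟩ := hps
          refine ⟨s', 2 * j + 1, by omega, ?_, by rw [← hs']; exact hsq⟩
          rw [← hMN, ← hML, hMLpow, hs', mul_pow, ← pow_mul]
          ring
        · refine ⟨s0, 2 * j, by omega, ?_, ?_⟩
          · rw [← hMN, ← hML, hMLpow, mul_pow, ← pow_mul]
            ring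
          · exact (Nat.squarefree_mul ((Nat.Prime.coprime_iff_not_dvd hpp).2 hps)).2
              ⟨hpp.squarefree, hsq⟩
      set N' := s' * M1 ^ 2 with hN'
      have hN'0 : 0 < N' := by
        rcases Nat.eq_zero_or_pos N' with h | h
        · rw [h, mul_zero] at hes; omega
        · exact h
      have hs'N : s' ∣ N := by
        rw [hes, hN']
        exact (Dvd.intro _ rfl : s' ∣ s' * M1 ^ 2).mul_left _
      have hps' : p * s' ≤ rd N := by
        refine squarefree_le_rd _ N hN0 hs' ?_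
        have h1 : p ∣ p ^ e := dvd_pow_self p (by omega)
        rw [hes]
        exact mul_dvd_mul h1 (Dvd.intro _ rfl)
      have hup : (p : ℝ) ^ e * N' ≤ (B : ℝ) ^ ((k : ℝ) + γ) := by
        have h1 : (N : ℝ) = (p : ℝ) ^ e * N' := by rw [hes]; push_cast; ring
        rw [← h1]; exact hNup
      have hlow : (B : ℝ) ^ ((k : ℝ) - ε) ≤ (p : ℝ) ^ e * N' := by
        have h1 : (N : ℝ) = (p : ℝ) ^ e * N' := by rw [hes]; push_cast; ring
        rw [← h1]; exact hNlow.le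
      have hek : e ≤ k := by
        by_contra h
        push Not at h
        have hB' : (B : ℝ) < p := by
          refine lt_of_le_of_lt ?_ hpB
          calc (B : ℝ) = (B : ℝ) ^ (1 : ℝ) := (Real.rpow_one _).symm
            _ ≤ (B : ℝ) ^ β := Real.rpow_le_rpow_of_exponent_le hBr hβ1
        have h1 : (B : ℝ) ^ (k + 1) < (p : ℝ) ^ (k + 1) :=
          pow_lt_pow_left₀ hB' hBpos.le (by omega)
        have h2 : (p : ℝ) ^ (k + 1) ≤ (p : ℝ) ^ e :=
          pow_le_pow_right₀ (by exact_mod_cast hpp.one_lt.le) (by omega)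
        have h3 : (1 : ℝ) ≤ N' := by exact_mod_cast hN'0
        have h4 : (p : ℝ) ^ e ≤ (p : ℝ) ^ e * N' := le_mul_of_one_le_right (by positivity) h3
        have h5 : (B : ℝ) ^ ((k : ℝ) + γ) ≤ (B : ℝ) ^ (k + 1) := by
          rw [← Real.rpow_natCast]
          refine Real.rpow_le_rpow_of_exponent_le hBr ?_
          push_cast
          linarith
        linarith
      have hM10' : (1 : ℝ) ≤ (M1 : ℝ) ^ 2 := by
        have : (1 : ℝ) ≤ M1 := by exact_mod_cast Nat.one_le_iff_ne_zero.2 hM10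
        exact one_le_pow₀ this
      have hs'0 : (0 : ℝ) < s' := by
        have : s' ≠ 0 := by
          rintro rfl
          simp at hs'
        exact_mod_cast Nat.pos_of_ne_zero this
      have hN'M : (N' : ℝ) = s' * (M1 : ℝ) ^ 2 := by rw [hN']; push_cast; rfl
      rw [hN'M] at hup hlow
      have hrads : (p : ℝ) * s' ≤ (B : ℝ) ^ θ := by
        refine le_trans ?_ hrad
        exact_mod_cast hps'
      have hcof := cofactor2 (B : ℝ) p s' ((M1 : ℝ) ^ 2) k γ ε θ α e he2 hBr hp0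
        hs'0 hM10' bM1 hpB.le hup hlow hrads (by
          rcases hadm e he2 with h | h
          · left
            exact hγe e (Finset.mem_Icc.2 ⟨he2, hek⟩) h
          · right
            have he2r : (2 : ℝ) ≤ e := by exact_mod_cast he2
            have he0 : (0 : ℝ) < e := by linarith
            have h3 : (e : ℝ) * m ≤ k + (e - 1) * α := by
              have h4 := mul_le_mul_of_nonneg_left h he0.le
              have h5 : (e : ℝ) * (k / e + (1 - 1 / (e : ℝ)) * α) =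
                  k + (e - 1) * α := by
                field_simp
              linarith
            rw [hθ]
            nlinarith)
      refine hshape e s' p he2 hek hs'N hs'.of_mul_right hcof ?_
      rw [hes, hN']; ring

end Pool.Agent.N445.DF
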