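import Mathlib
import Pool.Agent.N445.DF.A13

/-! # Norm forms: the data -/

set_option autoImplicit false

namespace Pool.Agent.N445.DF

open MvPolynomial Pool.Agent.TH910.Voj Pool.Agent.H813R3.Voj Pool.Agent.N445.VW NumberField
open scoped Pointwise

/-- `F` is a rational multiple of the norm of a linear form of rank `m` -/
def IsNormForm {n : ℕ} (F : MvPolynomial (Fin (n + 1)) ℤ) (m : ℕ) : Prop :=
  ∃ (E : Type) (_ : Field E) (_ : NumberField E) (α : Fin (n + 1) → E) (c : ℚ),
    Module.finrank ℚ (Submodule.span ℚ (Set.range α)) = m ∧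
    ∀ x : Fin (n + 1) → ℤ, (eval x F : ℚ) = c * Algebra.norm ℚ (∑ i, (x i : E) * α i)

theorem exists_den {E : Type} [Field E] [NumberField E] {n : ℕ} (α : Fin (n + 1) → E) :
    ∃ D : ℤ, D ≠ 0 ∧ ∀ i, IsIntegral ℤ ((D : E) * α i) := by
  classical
  have h1 : ∀ i, ∃ y : ℤ, y ≠ 0 ∧ IsIntegral ℤ (y • α i) := by
    intro i
    have h2 : IsAlgebraic ℤ (α i) := by
      have h3 : IsAlgebraic ℚ (α i) := Algebra.IsAlgebraic.isAlgebraic _
      exact (IsFractionRing.isAlgebraic_iff ℤ ℚ E).2 h3
    obtain ⟨y, hy, h⟩ := h2.exists_integral_multiple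
    exact ⟨y, hy, h⟩
  choose y hy0 hy using h1
  refine ⟨∏ i, y i, Finset.prod_ne_zero_iff.2 fun i _ => hy0 i, fun i => ?_⟩
  rw [← Finset.prod_erase_mul _ _ (Finset.mem_univ i), Int.cast_mul, mul_assoc, ← zsmul_eq_mul (α i)]
  refine IsIntegral.mul ?_ (hy i)
  exact isIntegral_algebraMap (R := ℤ) (A := E) (x := ∏ j ∈ Finset.univ.erase i, y j)

theorem NF_of_isNormForm {n : ℕ} (F : MvPolynomial (Fin (n + 1)) ℤ) (hF0 : F ≠ 0) (m : ℕ)
    (h : IsNormForm F m) :
    ∃ (E : Type) (_ : Field E) (_ : NumberField E) (α : Fin (n + 1) → 𝓞 E) (d c : ℤ)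
      (J : Finset (Fin (n + 1))), NF F α d c ∧ J.card = m ∧
      (∀ i, (α i : E) ∈ Submodule.span ℚ ((fun j => (α j : E)) '' (J : Set (Fin (n + 1))))) ∧
      (∀ u : Fin (n + 1) → ℤ, (∀ i, i ∉ J → u i = 0) → u ≠ 0 → Lf α u ≠ 0) := by
  classical
  obtain ⟨E, hE1, hE2, α, c, hm, heq⟩ := h
  obtain ⟨D, hD0, hD⟩ := exists_den α
  have hDE : (D : E) ≠ 0 := by exact_mod_cast hD0
  set β : Fin (n + 1) → 𝓞 E := fun i => ⟨(D : E) * α i, hD i⟩ with hβ
  have hβv : ∀ i, (β i : E) = (D : E) * α i := fun i => rfl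
  have hLf : ∀ x : Fin (n + 1) → ℤ, (Lf β x : E) = (D : E) * ∑ i, (x i : E) * α i := by
    intro x
    unfold Lf
    refine (map_sum (algebraMap (𝓞 E) E) _ _).trans ?_
    rw [Finset.mul_sum]
    refine Finset.sum_congr rfl fun i _ => ?_
    refine (map_mul (algebraMap (𝓞 E) E) _ _).trans ?_
    rw [map_intCast]
    have : algebraMap (𝓞 E) E (β i) = (D : E) * α i := rfl
    rw [this]
    ring
  have hN : ∀ x : Fin (n + 1) → ℤ, ((Algebra.norm ℤ (Lf β x) : ℤ) : ℚ) =
      (D : ℚ) ^ Module.finrank ℚ E * Algebra.norm ℚ (∑ i, (x i : E) * α i) := by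
    intro x
    have h1 := Algebra.coe_norm_int (Lf β x)
    rw [h1, hLf, map_mul]
    congr 1
    have h2 := Algebra.norm_algebraMap (R := ℚ) (S := E) (D : ℚ)
    rw [← h2]
    congr 1
    simp
  have hc0 : c ≠ 0 := by
    rintro rfl
    apply hF0
    refine MvPolynomial.funext fun x => ?_
    have := heq x
    rw [zero_mul] at this
    rw [map_zero]
    exact_mod_cast this
  -- the basis
  obtain ⟨f, hf1, hf2, hf3⟩ := Submodule.exists_fun_fin_finrank_span_eq ℚ
    (Set.range fun i => (β i : E))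
  have hspan : Submodule.span ℚ (Set.range fun i => (β i : E)) = Submodule.span ℚ (Set.range α) := by
    have h1 : (Set.range fun i => (β i : E)) = (D : ℚ) • Set.range α := by
      ext z
      rw [Set.mem_smul_set]
      constructor
      · rintro ⟨i, rfl⟩
        refine ⟨α i, ⟨i, rfl⟩, ?_⟩
        simp only [hβv]
        rw [Rat.smul_def]
        simp
      · rintro ⟨_, ⟨i, rfl⟩, rfl⟩
        refine ⟨i, ?_⟩
        simp only [hβv]
        rw [Rat.smul_def]
        simp
    rw [h1]
    exact Submodule.span_smul_eq_of_isUnit _ _ (IsUnit.mk0 _ (by exact_mod_cast hD0))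
  have hr : Module.finrank ℚ (Submodule.span ℚ (Set.range fun i => (β i : E))) = m := by
    rw [hspan]; exact hm
  have hex : ∀ s, ∃ j : Fin (n + 1), (β j : E) = f s := fun s => hf1 s
  choose idx hidx using hex
  have hinj : Function.Injective idx := by
    intro s t hst
    refine hf3.injective ?_
    rw [← hidx s, ← hidx t, hst]
  refine ⟨E, hE1, hE2, β, D ^ Module.finrank ℚ E * c.den, c.num, Finset.univ.image idx, ?_, ?_, ?_, ?_⟩
  · refine ⟨mul_ne_zero (pow_ne_zero _ hD0) (by exact_mod_cast c.den_ne_zero),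
      Rat.num_ne_zero.2 hc0, fun x => ?_⟩
    have h1 := heq x
    have h2 := hN x
    have h3 : (c.num : ℚ) = c * c.den := (Rat.mul_den_eq_num c).symm
    have h4 : (((D ^ Module.finrank ℚ E * c.den * eval x F : ℤ)) : ℚ) =
        ((c.num * Algebra.norm ℤ (Lf β x) : ℤ) : ℚ) := by
      push_cast
      rw [h1, h2, h3]
      ring
    exact_mod_cast h4
  · rw [Finset.card_image_of_injective _ hinj, Finset.card_univ, Fintype.card_fin, hr]
  · intro i
    have h1 : ((fun j => (β j : E)) '' ((Finset.univ.image idx : Finset (Fin (n + 1))) : Set (Fin (n + 1)))) =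
        Set.range f := by
      ext z
      constructor
      · rintro ⟨j, hj, rfl⟩
        rw [Finset.mem_coe, Finset.mem_image] at hj
        obtain ⟨s, -, rfl⟩ := hj
        exact ⟨s, (hidx s).symm⟩
      · rintro ⟨s, rfl⟩
        exact ⟨idx s, by simp, hidx s⟩
    rw [h1, hf2]
    exact Submodule.subset_span ⟨i, rfl⟩
  · intro u hu hu0 hL
    apply hu0
    have h1 : ∑ i, (u i : E) * (β i : E) = 0 := by
      have h2 : (Lf β u : E) = ∑ i, (u i : E) * (β i : E) := by
        unfold Lf
        refine (map_sum (algebraMap (𝓞 E) E) _ _).trans ?_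
        refine Finset.sum_congr rfl fun i _ => ?_
        refine (map_mul (algebraMap (𝓞 E) E) _ _).trans ?_
        rw [map_intCast]
      rw [← h2, hL]
      simp
    have h2 : ∑ s, (u (idx s) : ℚ) • f s = 0 := by
      rw [← h1]
      have h3 : ∑ i, (u i : E) * (β i : E) = ∑ i ∈ Finset.univ.image idx, (u i : E) * (β i : E) := by
        refine (Finset.sum_subset (Finset.subset_univ _) fun i _ hi => ?_).symm
        rw [hu i hi]; simp
      rw [h3, Finset.sum_image fun s _ t _ h => hinj h]
      refine Finset.sum_congr rfl fun s _ => ?_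
      rw [Rat.smul_def, hidx s]
      simp
    have h3 := Fintype.linearIndependent_iff.1 hf3 (fun s => (u (idx s) : ℚ)) h2
    funext i
    by_cases hi : i ∈ Finset.univ.image idx
    · obtain ⟨s, -, rfl⟩ := Finset.mem_image.1 hi
      have := h3 s
      exact_mod_cast this
    · exact hu i hi

/-- an irreducible norm form of degree at least two has rank at least two -/
theorem two_le_rank {E : Type} [Field E] [NumberField E] {n : ℕ}
    (F : MvPolynomial (Fin (n + 1)) ℤ) {k : ℕ}
    (hk : F.IsHomogeneous k) (hk2 : 2 ≤ k) (hirr : Irreducible (toQ F))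
    (α : Fin (n + 1) → 𝓞 E) (d c : ℤ) (hF : NF F α d c) (J : Finset (Fin (n + 1)))
    (hJ : ∀ i, (α i : E) ∈ Submodule.span ℚ ((fun j => (α j : E)) '' (J : Set (Fin (n + 1)))))
    (hind : ∀ u : Fin (n + 1) → ℤ, (∀ i, i ∉ J → u i = 0) → u ≠ 0 → Lf α u ≠ 0) :
    2 ≤ J.card := by
  classical
  have hF0 : F ≠ 0 := by
    intro h0
    exact hirr.ne_zero (by rw [h0, map_zero])
  by_contra hcon
  rcases (by omega : J.card = 0 ∨ J.card = 1) with h | h
  · rw [Finset.card_eq_zero] at h
    subst h
    apply hF0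
    refine MvPolynomial.funext fun x => ?_
    rw [map_zero]
    have h1 : ∀ i, α i = 0 := by
      intro i
      have := hJ i
      simp only [Finset.coe_empty, Set.image_empty, Submodule.span_empty, Submodule.mem_bot] at this
      exact_mod_cast this
    have h2 : Lf α x = 0 := by
      unfold Lf
      exact Finset.sum_eq_zero fun i _ => by rw [h1 i, mul_zero]
    have h3 := hF.eq x
    rw [h2, Algebra.norm_zero, mul_zero] at h3
    exact (mul_eq_zero.1 h3).resolve_left hF.hd
  · obtain ⟨j, rfl⟩ := Finset.card_eq_one.1 h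
    set u : Fin (n + 1) → ℤ := Pi.single j 1 with hu
    have hLu : Lf α u = α j := by
      unfold Lf
      rw [Finset.sum_eq_single j]
      · rw [hu, Pi.single_eq_same]; simp
      · intro i _ hi
        rw [hu, Pi.single_eq_of_ne hi]; simp
      · intro h; exact absurd (Finset.mem_univ _) h
    have huJ : ∀ i, i ∉ ({j} : Finset (Fin (n + 1))) → u i = 0 := by
      intro i hi
      rw [Finset.mem_singleton] at hi
      rw [hu, Pi.single_eq_of_ne hi]
    have hu0 : u ≠ 0 := by
      intro h
      have := congrFun h j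
      rw [hu, Pi.single_eq_same, Pi.zero_apply] at this
      exact one_ne_zero this
    have hFu : eval u F ≠ 0 := eval_ne_of_Lf F α d c hF u (hind u huJ hu0)
    -- the degree
    have hdeg : Module.finrank ℚ E = k := by
      have h1 := hF.eq ((2 : ℤ) • u)
      have h2 : eval ((2 : ℤ) • u) F = 2 ^ k * eval u F := by
        have := aeval_mul_hom (R := ℤ) F hk 2 u
        exact this
      obtain ⟨g, hg, hng⟩ := norm_nat (E := E) 2
      have h3 : Algebra.norm ℤ (Lf α ((2 : ℤ) • u)) = 2 ^ g * Algebra.norm ℤ (Lf α u) := by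
        rw [Lf_smul, map_mul]
        congr 1
        have : ((2 : ℤ) : 𝓞 E) = ((2 : ℕ) : 𝓞 E) := by push_cast; rfl
        rw [this, hng]
        push_cast
        rfl
      rw [h2, h3] at h1
      have h4 := hF.eq u
      have h5 : (2 : ℤ) ^ k * (d * eval u F) = 2 ^ g * (d * eval u F) := by
        linear_combination h1 - 2 ^ g * h4
      have h6 : d * eval u F ≠ 0 := mul_ne_zero hF.hd hFu
      have h7 : (2 : ℤ) ^ k = 2 ^ g := mul_right_cancel₀ h6 h5
      have h8 : k = g := by
        have : (2 : ℕ) ^ k = 2 ^ g := by exact_mod_cast h7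
        exact Nat.pow_right_injective le_rfl this
      rw [h8, hg]
      exact (RingOfIntegers.rank E).symm
    have hcard : 1 < Fintype.card (E →ₐ[ℚ] ℂ) := by
      rw [AlgHom.card, hdeg]; omega
    obtain ⟨σ, τ, hστ⟩ := Fintype.one_lt_card_iff.1 hcard
    obtain ⟨j', hj', h1⟩ := ell_ne F hk (by omega) hirr α d c hF {j} hJ u hFu σ τ hστ
    rw [Finset.mem_singleton] at hj'
    subst hj'
    apply h1
    unfold ell
    rw [hLu]
    ring

end Pool.Agent.N445.DF
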