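import Mathlib
import Pool.Agent.N445.DF.A14

/-! # The truncated counting function: general components and norm forms -/

set_option autoImplicit false

namespace Pool.Agent.N445.DF

open MvPolynomial Pool.Agent.TH910.Voj Pool.Agent.H813R3.Voj Pool.Agent.N445.VW NumberField

/-- the weight of a component of degree `k` for the parameter `a` -/
noncomputable def wgt (a : ℝ) (k : ℕ) : ℝ :=
  if (k : ℝ) < 3 * a then k
  else 2 * a + ((k : ℝ) - ⌊(k : ℝ) / a⌋₊ * a) / (⌊(k : ℝ) / a⌋₊ - 1)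

theorem Adm.mono {a : ℝ} {k : ℕ} {m m' : ℝ} (h : Adm a k m) (hm : m' ≤ m) : Adm a k m' := by
  obtain ⟨h1, h2, h3, h4⟩ := h
  refine ⟨hm.trans h1, fun e he => ?_, hm.trans h3, fun i j hi hij => ?_⟩
  · rcases h2 e he with h | h
    · exact Or.inl h
    · exact Or.inr (hm.trans h)
  · rcases h4 i j hi hij with h | h
    · exact Or.inl h
    · exact Or.inr ((mul_le_mul_of_nonneg_left hm (Nat.cast_nonneg _)).trans h)

/-- the data of the weight for `k ≥ 3 a` -/
theorem wgt_data (a : ℝ) (k : ℕ) (ha0 : 0 < a) (h : ¬ (k : ℝ) < 3 * a) :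
    ∃ (K : ℕ) (f : ℝ), 3 ≤ K ∧ 0 ≤ f ∧ f < a ∧ (k : ℝ) = K * a + f ∧
      wgt a k = 2 * a + f / (K - 1) := by
  push Not at h
  have hk : 0 ≤ (k : ℝ) / a := by positivity
  refine ⟨⌊(k : ℝ) / a⌋₊, (k : ℝ) - ⌊(k : ℝ) / a⌋₊ * a, ?_, ?_, ?_, by ring, ?_⟩
  · refine Nat.le_floor ?_
    rw [le_div_iff₀ ha0]
    exact_mod_cast h
  · have := Nat.floor_le hk
    rw [le_div_iff₀ ha0] at this
    linarith
  · have := Nat.lt_floor_add_one ((k : ℝ) / a)
    rw [div_lt_iff₀ ha0] at this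
    linarith
  · unfold wgt
    rw [if_neg (not_lt.2 h)]

theorem wgt_adm (a : ℝ) (k : ℕ) (ha0 : 0 < a) : Adm a k (wgt a k) := by
  by_cases h : (k : ℝ) < 3 * a
  · have hw : wgt a k = k := by unfold wgt; rw [if_pos h]
    rw [hw]
    refine ⟨le_rfl, fun e he => Or.inl ?_, h.le, fun i j hi hij => Or.inl ?_⟩
    · have he' : (2 : ℝ) ≤ e := by exact_mod_cast he
      nlinarith
    · have h1 : ((3 : ℕ) : ℝ) ≤ ((i + j : ℕ) : ℝ) := by exact_mod_cast (by omega : 3 ≤ i + j)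
      have h2 : ((3 : ℕ) : ℝ) * a ≤ ((i + j : ℕ) : ℝ) * a := mul_le_mul_of_nonneg_right h1 ha0.le
      push_cast at h2 ⊢
      linarith
  · obtain ⟨K, f, hK, hf0, hfa, hkf, hw⟩ := wgt_data a k ha0 h
    rw [hw]
    have hK3 : (3 : ℝ) ≤ K := by exact_mod_cast hK
    have hK1 : (0 : ℝ) < K - 1 := by linarith
    have key : ∀ t : ℝ, 0 ≤ t → t ≤ K - 1 → t * (2 * a + f / (K - 1)) ≤ 2 * t * a + f := by
      intro t ht0 ht
      have h1 : t * (f / (K - 1)) ≤ f := by
        rw [← mul_div_assoc, div_le_iff₀ hK1]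
        nlinarith
      linarith
    have h1 := key 1 (by norm_num) (by linarith)
    refine ⟨by nlinarith, fun e he => ?_, ?_, fun i j hi hij => ?_⟩
    · rcases Nat.lt_or_ge e K with heK | heK
      · right
        have he0 : (0 : ℝ) < e := by exact_mod_cast (by omega : 0 < e)
        have h2 : (k : ℝ) / e + (1 - 1 / (e : ℝ)) * a = (k + (e - 1) * a) / e := by field_simp
        rw [h2, le_div_iff₀ he0]
        have heK' : (e : ℝ) + 1 ≤ K := by exact_mod_cast heK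
        have h3 := key e he0.le (by linarith)
        have h4 : ((e : ℝ) + 1) * a ≤ K * a := mul_le_mul_of_nonneg_right heK' ha0.le
        linarith
      · left
        have heK' : (K : ℝ) ≤ e := by exact_mod_cast heK
        have h4 : (K : ℝ) * a ≤ e * a := mul_le_mul_of_nonneg_right heK' ha0.le
        linarith
    · have h2 : f / (K - 1) ≤ f := by
        rw [div_le_iff₀ hK1]
        nlinarith
      linarith
    · rcases Nat.lt_or_ge K (i + j) with heK | heK
      · left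
        have heK' : ((K + 1 : ℕ) : ℝ) ≤ ((i + j : ℕ) : ℝ) := by exact_mod_cast heK
        have h4 := mul_le_mul_of_nonneg_right heK' ha0.le
        push_cast at h4 ⊢
        linarith
      · right
        have h5 : ((i + j : ℕ) : ℝ) ≤ K := by exact_mod_cast heK
        have hi0 : (2 : ℝ) ≤ i := by exact_mod_cast hi
        push_cast at h5
        have h3 := key j (Nat.cast_nonneg _) (by linarith)
        have h4 : ((i : ℝ) + j) * a ≤ K * a := mul_le_mul_of_nonneg_right h5 ha0.le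
        linarith

theorem wgt_two (a : ℝ) (k : ℕ) (ha0 : 0 < a) (hk : 2 * a ≤ k) : 2 * a ≤ wgt a k := by
  by_cases h : (k : ℝ) < 3 * a
  · have hw : wgt a k = k := by unfold wgt; rw [if_pos h]
    rw [hw]; exact hk
  · obtain ⟨K, f, hK, hf0, hfa, hkf, hw⟩ := wgt_data a k ha0 h
    rw [hw]
    have hK3 : (3 : ℝ) ≤ K := by exact_mod_cast hK
    have : 0 ≤ f / (K - 1) := div_nonneg hf0 (by linarith)
    linarith

/-- **The radical of the values of a component.** -/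
theorem rad_comp {n : ℕ} (hn : 2 ≤ n) (F : MvPolynomial (Fin (n + 1)) ℤ) {k : ℕ}
    (hk : F.IsHomogeneous k) (hirr : Irreducible (toQ F)) (w : ℝ)
    (hw : w ≤ wgt (1 + 1 / (n : ℝ)) k ∨ ∃ m : ℕ, IsNormForm F m ∧ w ≤ wgt m k)
    (η : ℝ) (hη : 0 < η) :
    Sparse (n + 1) (fun B x => (∃ c : Fin (n + 1) → ℤ, ∑ i, c i * x i = 1) ∧ eval x F ≠ 0 ∧
      (rd (eval x F).natAbs : ℝ) ≤ (B : ℝ) ^ (w - η)) := by
  have hk1 := one_le_of_irr F hk hirr
  have hn0 : (0 : ℝ) < n := by exact_mod_cast (by omega : 0 < n)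
  have h1n : (0 : ℝ) < 1 / (n : ℝ) := by positivity
  have hF0 : F ≠ 0 := by
    intro h0
    exact hirr.ne_zero (by rw [h0, map_zero])
  rcases Nat.eq_or_lt_of_le hk1 with h | h
  · -- linear forms
    subst h
    have hw1 : w ≤ 1 := by
      rcases hw with h2 | ⟨m, -, h2⟩
      · refine h2.trans ?_
        have := (wgt_adm (1 + 1 / (n : ℝ)) 1 (by linarith)).1
        exact_mod_cast this
      · refine h2.trans ?_
        rcases Nat.eq_zero_or_pos m with h3 | h3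
        · subst h3
          unfold wgt
          norm_num
        · have := (wgt_adm (m : ℝ) 1 (by exact_mod_cast h3)).1
          exact_mod_cast this
    refine sparse_rad hn F hk le_rfl hirr w η hη (by push_cast; exact hw1)
      (fun e he => Or.inl ?_) (Or.inl ?_)
    · have he' : (2 : ℝ) ≤ e := by exact_mod_cast he
      have h3 : 1 / (e : ℝ) ≤ 1 / 2 := one_div_le_one_div_of_le (by norm_num) he'
      push_cast
      nlinarith
    · push_cast
      linarith
  · rcases hw with hw | ⟨m, hF, hw⟩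
    · exact rad_gen hn F hk h hirr w η hη ((wgt_adm (1 + 1 / (n : ℝ)) k (by linarith)).mono hw)
    · obtain ⟨E, hE1, hE2, α, d, c, J, hNF, hJm, hJ, hind⟩ := NF_of_isNormForm F hF0 m hF
      have hm2 := two_le_rank F hk h hirr α d c hNF J hJ hind
      rw [← hJm] at hw
      have hmr : (2 : ℝ) ≤ J.card := by exact_mod_cast hm2
      exact (rad_norm F hk h hirr α d c hNF J hJ hind hm2 w η hη
        ((wgt_adm (J.card : ℝ) k (by linarith)).mono hw)).mono fun B x _ _ h => h.2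

theorem main_w {n r : ℕ} (hn : 2 ≤ n) (S : Finset ℕ)
    (F : Fin r → MvPolynomial (Fin (n + 1)) ℤ)
    (k : Fin r → ℕ) (m : Fin r → ℝ) (hhom : ∀ j, (F j).IsHomogeneous (k j))
    (hirr : ∀ j, Irreducible (toQ (F j)))
    (hdist : ∀ i j, i ≠ j → ¬ Associated (toQ (F i)) (toQ (F j)))
    (hw : ∀ j, m j ≤ wgt (1 + 1 / (n : ℝ)) (k j) ∨ ∃ m' : ℕ, IsNormForm (F j) m' ∧
      m j ≤ wgt m' (k j))
    (θ : ℝ) (hθ : θ < ∑ j, m j) :
    Sparse (n + 1) (fun B x => (∃ c : Fin (n + 1) → ℤ, ∑ i, c i * x i = 1) ∧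
      ((∃ j, eval x (F j) = 0) ∨ logRad S (∏ j, eval x (F j)) < θ * Real.log B)) := by
  classical
  set G : Fin r → MvPolynomial (Fin (n + 1)) ℤ := fun j => ∏ i ∈ Finset.univ.erase j, F i with hG
  have hGdvd : ∀ j, ¬ toQ (F j) ∣ toQ (G j) := by
    intro j hdvd
    rw [hG, map_prod] at hdvd
    obtain ⟨i, hi, h2⟩ := ((hirr j).prime.dvd_finsetProd_iff _).mp hdvd
    exact hdist j i (Finset.ne_of_mem_erase hi).symm ((hirr j).associated_of_dvd (hirr i) h2)
  have hF0 : ∀ j, F j ≠ 0 := by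
    intro j h0
    exact (hirr j).ne_zero (by rw [h0, map_zero])
  set Δ : ℝ := (∑ j, m j) - θ with hΔ
  have hΔ0 : 0 < Δ := by rw [hΔ]; linarith
  set η : ℝ := Δ / (4 * (r + 1)) with hη
  have hη0 : 0 < η := by positivity
  obtain ⟨B₀, hB₀⟩ : ∃ B₀ : ℕ, ∀ B : ℕ, B₀ ≤ B →
      ∑ p ∈ S, Real.log (p : ℝ) ≤ Δ / 2 * Real.log B := by
    have h1 : Filter.Tendsto (fun B : ℕ => Δ / 2 * Real.log B) Filter.atTop Filter.atTop :=
      (Real.tendsto_log_atTop.comp tendsto_natCast_atTop_atTop).const_mul_atTop (by positivity)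
    exact Filter.eventually_atTop.mp (h1.eventually_ge_atTop (∑ p ∈ S, Real.log (p : ℝ)))
  have hsp : ∀ j, Sparse (n + 1) (fun B x => eval x (F j) = 0 ∨
      (((∃ c : Fin (n + 1) → ℤ, ∑ i, c i * x i = 1) ∧ eval x (F j) ≠ 0 ∧
          (rd (eval x (F j)).natAbs : ℝ) ≤ (B : ℝ) ^ (m j - η)) ∨
        (eval x (F j) ≠ 0 ∧ (B : ℝ) ^ η < rd (Int.gcd (eval x (F j)) (eval x (G j)))))) :=
    fun j => (sparse_zeros (F j) (hF0 j)).or
      ((rad_comp hn (F j) (hhom j) (hirr j) (m j) (hw j) η hη0).or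
        (sparse_gcd (F j) (G j) (hhom j) (hirr j) (hGdvd j) hη0))
  refine (Sparse.exists_fin hsp).of_eventually B₀ ?_
  rintro B x hBB hB hx ⟨hprim, hbad⟩
  by_contra hcon
  push Not at hcon
  have hB1 : (1 : ℝ) ≤ B := by exact_mod_cast hB
  have hBpos : (0 : ℝ) < B := by linarith
  have hlogB : 0 ≤ Real.log B := Real.log_nonneg hB1
  have ha : ∀ j, eval x (F j) ≠ 0 := fun j => (hcon j).1
  have hlt : logRad S (∏ j, eval x (F j)) < θ * Real.log B := by
    rcases hbad with ⟨j, hj⟩ | h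
    · exact absurd hj (ha j)
    · exact h
  have hab : ∀ i j, i ≠ j → eval x (F i) ∣ eval x (G j) := by
    intro i j hij
    rw [hG]
    simp only [map_prod]
    exact Finset.dvd_prod_of_mem (fun i => eval x (F i))
      (Finset.mem_erase.mpr ⟨hij, Finset.mem_univ i⟩)
  have h1 := logRad_prod_ge S (fun j => eval x (F j)) ha (fun j => eval x (G j)) hab
  have hj : ∀ j, (m j - 2 * η) * Real.log B ≤
      Real.log (rd (eval x (F j)).natAbs) -
        Real.log (rd (Int.gcd (eval x (F j)) (eval x (G j)))) := by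
    intro j
    obtain ⟨-, h1, h2⟩ := hcon j
    have h3 := h1 hprim (ha j)
    have h4 := h2 (ha j)
    have e1 : (m j - η) * Real.log B ≤ Real.log (rd (eval x (F j)).natAbs) := by
      rw [← Real.log_rpow hBpos]
      exact Real.log_le_log (by positivity) h3.le
    have e2 : Real.log (rd (Int.gcd (eval x (F j)) (eval x (G j)))) ≤ η * Real.log B := by
      rw [← Real.log_rpow hBpos]
      exact Real.log_le_log (by exact_mod_cast rd_pos _) h4
    linarith
  have h2 := Finset.sum_le_sum fun j (_ : j ∈ Finset.univ) => hj j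
  rw [← Finset.sum_mul, Finset.sum_sub_distrib, Finset.sum_const, Finset.card_univ,
    Fintype.card_fin, nsmul_eq_mul] at h2
  have h8 : (r : ℝ) * (2 * η) ≤ Δ / 2 := by
    rw [hη]
    have hq : (0 : ℝ) ≤ r := Nat.cast_nonneg r
    rw [← mul_div_assoc, ← mul_div_assoc, div_le_div_iff₀ (by positivity) (by norm_num)]
    nlinarith
  have h9 := hB₀ B hBB
  have h10 : (r : ℝ) * (2 * η) * Real.log B ≤ Δ / 2 * Real.log B :=
    mul_le_mul_of_nonneg_right h8 hlogB
  have h11 : (∑ j, m j) = θ + Δ := by rw [hΔ]; ring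
  rw [h11] at h2
  have h12 : (θ + Δ - r * (2 * η)) * Real.log B = θ * Real.log B + Δ * Real.log B -
    r * (2 * η) * Real.log B := by ring
  linarith


theorem main_h {n r t : ℕ} (hn : 2 ≤ n) (S : Finset ℕ)
    (F : Fin r → MvPolynomial (Fin (n + 1)) ℤ)
    (k : Fin r → ℕ) (m : Fin r → ℝ) (hhom : ∀ j, (F j).IsHomogeneous (k j))
    (hirr : ∀ j, Irreducible (toQ (F j)))
    (hdist : ∀ i j, i ≠ j → ¬ Associated (toQ (F i)) (toQ (F j)))
    (hw : ∀ j, m j ≤ wgt (1 + 1 / (n : ℝ)) (k j) ∨ ∃ m' : ℕ, IsNormForm (F j) m' ∧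
      m j ≤ wgt m' (k j))
    (F' G' : Fin t → MvPolynomial (Fin (n + 1)) ℤ) (k' e' : Fin t → ℕ)
    (hhom' : ∀ l, (F' l).IsHomogeneous (k' l)) (hirr' : ∀ l, Irreducible (toQ (F' l)))
    (hcop : ∀ l, ¬ toQ (F' l) ∣ toQ (G' l)) (Λ : ℝ) (hΛ : 0 ≤ Λ)
    (θ : ℝ) (hθ : θ < ∑ j, m j) :
    Sparse (n + 1) (fun B x => (∃ c : Fin (n + 1) → ℤ, ∑ i, c i * x i = 1) ∧
      ((∃ j, eval x (F j) = 0) ∨ (∃ l, eval x (F' l) = 0) ∨
        logRad S (∏ j, eval x (F j)) <
          θ * Real.log B + Λ * ∑ l, ih (F' l) (G' l) (k' l) (e' l) x)) := by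
  classical
  set Δ : ℝ := (∑ j, m j) - θ with hΔ
  have hΔ0 : 0 < Δ := by rw [hΔ]; linarith
  have M0 := main_w hn S F k m hhom hirr hdist hw (θ + Δ / 2) (by
    rw [hΔ]; linarith)
  set ε : ℝ := min 1 (Δ / (4 * (Λ + 1) * (t + 1))) with hε
  have hε0 : 0 < ε := lt_min one_pos (by positivity)
  have hε1 : ε ≤ 1 := min_le_left _ _
  have hF0 : ∀ l, F' l ≠ 0 := by
    intro l h0
    exact (hirr' l).ne_zero (by rw [h0, map_zero])
  have hsp : ∀ l, Sparse (n + 1) (fun B x => eval x (F' l) = 0 ∨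
      ((eval x (F' l) ≠ 0 ∧ ((eval x (F' l)).natAbs : ℝ) ≤ (B : ℝ) ^ ((k' l : ℝ) - ε)) ∨
        (eval x (F' l) ≠ 0 ∧
          (B : ℝ) ^ ε < (Int.gcd (eval x (F' l)) (eval x (G' l)) : ℝ)))) := fun l =>
    (sparse_zeros (F' l) (hF0 l)).or ((sparse_small_value (F' l) (hhom' l) (hF0 l) hε0 hε1).or
      (sparse_gcd_full (F' l) (G' l) (hhom' l) (hirr' l) (hcop l) hε0))
  refine (M0.or (Sparse.exists_fin hsp)).mono ?_
  rintro B x hB hx ⟨hprim, hbad⟩
  by_contra hcon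
  rw [not_or] at hcon
  obtain ⟨c1, c2⟩ := hcon
  have hB1 : (1 : ℝ) ≤ B := by exact_mod_cast hB
  have hlogB : 0 ≤ Real.log B := Real.log_nonneg hB1
  push Not at c2
  have c1' : ∀ j, eval x (F j) ≠ 0 := fun j h => c1 ⟨hprim, Or.inl ⟨j, h⟩⟩
  have c1'' : (θ + Δ / 2) * Real.log B ≤ logRad S (∏ j, eval x (F j)) := by
    by_contra h
    push Not at h
    exact c1 ⟨hprim, Or.inr h⟩
  rcases hbad with ⟨j, hj⟩ | ⟨l, hl⟩ | hlt
  · exact c1' j hj
  · exact (c2 l).1 hl
  · have h1 : ∀ l, ih (F' l) (G' l) (k' l) (e' l) x ≤ 2 * ε * Real.log B := by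
      intro l
      obtain ⟨a1, a2, a3⟩ := c2 l
      exact ih_le _ _ _ _ B x hB hx hprim a1 ε (a2 a1).le (a3 a1)
    have h2 : ∑ l, ih (F' l) (G' l) (k' l) (e' l) x ≤ t * (2 * ε * Real.log B) := by
      refine (Finset.sum_le_sum fun l _ => h1 l).trans (le_of_eq ?_)
      rw [Finset.sum_const, Finset.card_univ, Fintype.card_fin, nsmul_eq_mul]
    have h3 : Λ * ∑ l, ih (F' l) (G' l) (k' l) (e' l) x ≤ Λ * (t * (2 * ε * Real.log B)) :=
      mul_le_mul_of_nonneg_left h2 hΛ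
    have h4 : Λ * (t * (2 * ε)) ≤ Δ / 2 := by
      have h5 : ε ≤ Δ / (4 * (Λ + 1) * (t + 1)) := min_le_right _ _
      rw [le_div_iff₀ (by positivity)] at h5
      have ht0 : (0 : ℝ) ≤ t := Nat.cast_nonneg t
      have h6 : Λ * t ≤ (Λ + 1) * (t + 1) := by nlinarith
      nlinarith
    have h7 : Λ * (t * (2 * ε * Real.log B)) = Λ * (t * (2 * ε)) * Real.log B := by ring
    rw [h7] at h3
    have h8 := mul_le_mul_of_nonneg_right h4 hlogB
    have h9 : (θ + Δ / 2) * Real.log B = θ * Real.log B + Δ / 2 * Real.log B := by ring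
    linarith


/-! ### the weights -/

theorem wgt_nat (a : ℝ) (k : ℕ) (h : (k : ℝ) < 3 * a) : wgt a k = k := by
  unfold wgt
  rw [if_pos h]

/-- an irreducible divisor which is a norm form of rank `m` and degree at most `3 m` -/
theorem wgt_sub_norm (m : ℝ) (k : ℕ) (hm : 0 < m) (h : (k : ℝ) ≤ 3 * m) :
    (k : ℝ) - wgt m k ≤ m := by
  by_cases h3 : (k : ℝ) < 3 * m
  · rw [wgt_nat m k h3]; linarith
  · push Not at h3
    have := wgt_two m k hm (by linarith)
    linarith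

theorem wgt_sub_gen (n k : ℕ) (hn : 2 ≤ n) (h : n * k ≤ (n + 1) * (n + 2)) :
    (k : ℝ) - wgt (1 + 1 / (n : ℝ)) k ≤ n + 1 := by
  have hn0 : (0 : ℝ) < n := by exact_mod_cast (by omega : 0 < n)
  have hnn : 0 < 1 / (n : ℝ) := by positivity
  have h1 : ((n * k : ℕ) : ℝ) ≤ (((n + 1) * (n + 2) : ℕ) : ℝ) := by exact_mod_cast h
  push_cast at h1
  have h2 : (k : ℝ) ≤ ((n : ℝ) + 1) * (n + 2) / n := by
    rw [le_div_iff₀ hn0]; linarith
  have h3 : ((n : ℝ) + 1) * (n + 2) / n = n + 3 + 2 * (1 / (n : ℝ)) := by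
    field_simp
    ring
  by_cases h4 : (k : ℝ) < 3 * (1 + 1 / (n : ℝ))
  · rw [wgt_nat _ k h4]; linarith
  · push Not at h4
    have := wgt_two (1 + 1 / (n : ℝ)) k (by linarith) (by linarith)
    linarith

end Pool.Agent.N445.DF
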