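import Mathlib
import Pool.Agent.N445.DF.A15

/-! # One exceptional set of density zero -/

set_option autoImplicit false

namespace Pool.Agent.N445.DF

open MvPolynomial Pool.Agent.TH910.Voj Pool.Agent.H813R3.Voj Pool.Agent.N445.VW NumberField

/-- the set of integer vectors has density zero -/
def DZ {N : ℕ} (Z : Set (Fin N → ℤ)) : Prop :=
  ∀ ε : ℝ, 0 < ε → ∃ B₀ : ℕ, ∀ B : ℕ, B₀ ≤ B →
    (Set.ncard {x | x ∈ box N B ∧ x ∈ Z} : ℝ) ≤ ε * (B : ℝ) ^ N

/-- the sup norm -/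
def nrm {N : ℕ} (x : Fin N → ℤ) : ℕ := Finset.univ.sup fun i => (x i).natAbs

theorem nrm_le {N : ℕ} {x : Fin N → ℤ} {B : ℕ} : nrm x ≤ B ↔ x ∈ box N B := by
  unfold nrm
  rw [Finset.sup_le_iff, mem_box]
  constructor
  · intro h i
    rw [Int.abs_eq_natAbs]
    exact_mod_cast h i (Finset.mem_univ i)
  · intro h i _
    have := h i
    rw [Int.abs_eq_natAbs] at this
    exact_mod_cast this

/-- a countable family of sparse sets -/
theorem exists_diag {N : ℕ} (P : ℕ → (Fin N → ℤ) → Prop)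
    (h : ∀ i, Sparse N (fun _ x => P i x)) :
    ∃ Z : Set (Fin N → ℤ), DZ Z ∧ ∀ i, {x | P i x ∧ x ∉ Z}.Finite := by
  classical
  choose c hc C hC hcount using h
  -- the thresholds
  have hT : ∀ i : ℕ, ∃ T : ℕ, ∀ B : ℕ, T ≤ B → 1 ≤ B →
      C i * (B : ℝ) ^ ((N : ℝ) - c i) ≤ (1 / 2) ^ i * (B : ℝ) ^ N := by
    intro i
    have h1 : Filter.Tendsto (fun B : ℕ => (B : ℝ) ^ (c i)) Filter.atTop Filter.atTop :=
      (tendsto_rpow_atTop (hc i)).comp tendsto_natCast_atTop_atTop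
    obtain ⟨T, hT⟩ := Filter.eventually_atTop.mp (h1.eventually_ge_atTop (C i * 2 ^ i))
    refine ⟨T, fun B hB hB1 => ?_⟩
    have h2 := hT B hB
    have hB0 : (0 : ℝ) < B := by exact_mod_cast hB1
    rw [Real.rpow_sub hB0, Real.rpow_natCast, ← mul_div_assoc, div_le_iff₀ (by positivity)]
    have h3 : C i ≤ (1 / 2) ^ i * (B : ℝ) ^ c i := by
      rw [one_div, inv_pow, ← div_eq_inv_mul, le_div_iff₀ (by positivity)]
      exact h2
    calc C i * (B : ℝ) ^ N ≤ ((1 / 2) ^ i * (B : ℝ) ^ c i) * (B : ℝ) ^ N :=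
          mul_le_mul_of_nonneg_right h3 (by positivity)
      _ = _ := by ring
  choose T hT using hT
  set T' : ℕ → ℕ := fun i => max (T i) (i + 1) with hT'
  set Z : Set (Fin N → ℤ) := {x | ∃ i, P i x ∧ T' i ≤ nrm x} with hZ
  refine ⟨Z, ?_, ?_⟩
  · intro ε hε
    obtain ⟨i0, hi0⟩ : ∃ i0 : ℕ, (1 / 2 : ℝ) ^ i0 < ε / 4 :=
      exists_pow_lt_of_lt_one (by positivity) (by norm_num)
    have h1 : ∀ i, ∃ B₁ : ℕ, ∀ B : ℕ, B₁ ≤ B → 1 ≤ B →
        C i * (B : ℝ) ^ ((N : ℝ) - c i) ≤ ε / (2 * (i0 + 1)) * (B : ℝ) ^ N := by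
      intro i
      have h1 : Filter.Tendsto (fun B : ℕ => (B : ℝ) ^ (c i)) Filter.atTop Filter.atTop :=
        (tendsto_rpow_atTop (hc i)).comp tendsto_natCast_atTop_atTop
      obtain ⟨T, hT⟩ := Filter.eventually_atTop.mp
        (h1.eventually_ge_atTop (C i / (ε / (2 * (i0 + 1)))))
      refine ⟨T, fun B hB hB1 => ?_⟩
      have h2 := hT B hB
      have hB0 : (0 : ℝ) < B := by exact_mod_cast hB1
      have he : 0 < ε / (2 * ((i0 : ℝ) + 1)) := by positivity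
      rw [div_le_iff₀ he] at h2
      rw [Real.rpow_sub hB0, Real.rpow_natCast, ← mul_div_assoc, div_le_iff₀ (by positivity)]
      calc C i * (B : ℝ) ^ N ≤ ((B : ℝ) ^ c i * (ε / (2 * (i0 + 1)))) * (B : ℝ) ^ N :=
            mul_le_mul_of_nonneg_right h2 (by positivity)
        _ = _ := by ring
    choose B₁ hB₁ using h1
    refine ⟨(∑ i ∈ Finset.range i0, B₁ i) + i0 + 1, fun B hB => ?_⟩
    have hB1 : 1 ≤ B := by omega
    have hB0 : (0 : ℝ) < B := by exact_mod_cast hB1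
    set A : ℕ → Set (Fin N → ℤ) := fun i => {x | x ∈ box N B ∧ P i x ∧ T' i ≤ nrm x} with hA
    have hAfin : ∀ i, (A i).Finite := fun i => finite_sub N B _
    have hsub : {x | x ∈ box N B ∧ x ∈ Z} ⊆ ⋃ i ∈ Finset.range B, A i := by
      rintro x ⟨hx, i, hi1, hi2⟩
      simp only [Set.mem_iUnion]
      refine ⟨i, ?_, hx, hi1, hi2⟩
      rw [Finset.mem_range]
      have h2 : nrm x ≤ B := nrm_le.2 hx
      have h3 : i + 1 ≤ T' i := le_max_right _ _
      omega
    have hcard : (Set.ncard {x | x ∈ box N B ∧ x ∈ Z} : ℝ) ≤ ∑ i ∈ Finset.range B, ((A i).ncard : ℝ) := by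
      have h2 := Set.ncard_le_ncard hsub (Set.Finite.biUnion (Finset.finite_toSet _) fun i _ => hAfin i)
      have h3 : (⋃ i ∈ Finset.range B, A i).ncard ≤ ∑ i ∈ Finset.range B, (A i).ncard :=
        Finset.set_ncard_biUnion_le _ _
      exact_mod_cast h2.trans h3
    have hAi : ∀ i, ((A i).ncard : ℝ) ≤ C i * (B : ℝ) ^ ((N : ℝ) - c i) := by
      intro i
      refine le_trans ?_ (hcount i B hB1)
      have hsub : A i ⊆ {x | x ∈ box N B ∧ P i x} := fun x hx => ⟨hx.1, hx.2.1⟩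
      exact_mod_cast Set.ncard_le_ncard hsub (finite_sub N B _)
    have hAi2 : ∀ i, ((A i).ncard : ℝ) ≤ (1 / 2) ^ i * (B : ℝ) ^ N := by
      intro i
      by_cases hTB : T' i ≤ B
      · exact (hAi i).trans (hT i B ((le_max_left _ _).trans hTB) hB1)
      · have h2 : A i = ∅ := by
          rw [Set.eq_empty_iff_forall_notMem]
          rintro x ⟨hx, -, h3⟩
          exact hTB (h3.trans (nrm_le.2 hx))
        rw [h2, Set.ncard_empty, Nat.cast_zero]
        positivity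
    have hsplit : ∑ i ∈ Finset.range B, ((A i).ncard : ℝ) =
        ∑ i ∈ Finset.range i0, ((A i).ncard : ℝ) + ∑ i ∈ Finset.Ico i0 B, ((A i).ncard : ℝ) :=
      (Finset.sum_range_add_sum_Ico _ (by omega)).symm
    have e1 : ∑ i ∈ Finset.range i0, ((A i).ncard : ℝ) ≤ ε / 2 * (B : ℝ) ^ N := by
      have h2 : ∀ i ∈ Finset.range i0, ((A i).ncard : ℝ) ≤ ε / (2 * (i0 + 1)) * (B : ℝ) ^ N := by
        intro i hi
        refine (hAi i).trans (hB₁ i B ?_ hB1)
        have h3 : B₁ i ≤ ∑ i ∈ Finset.range i0, B₁ i :=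
          Finset.single_le_sum (fun _ _ => Nat.zero_le _) hi
        omega
      refine (Finset.sum_le_sum h2).trans ?_
      rw [Finset.sum_const, Finset.card_range, nsmul_eq_mul, ← mul_assoc]
      refine mul_le_mul_of_nonneg_right ?_ (by positivity)
      rw [← mul_div_assoc, div_le_div_iff₀ (by positivity) (by norm_num)]
      nlinarith
    have e2 : ∑ i ∈ Finset.Ico i0 B, ((A i).ncard : ℝ) ≤ ε / 2 * (B : ℝ) ^ N := by
      refine (Finset.sum_le_sum fun i _ => hAi2 i).trans ?_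
      rw [← Finset.sum_mul]
      refine mul_le_mul_of_nonneg_right ?_ (by positivity)
      have h2 := geom_sum_Ico_le_of_lt_one (x := (1 / 2 : ℝ)) (m := i0) (n := B) (by norm_num)
        (by norm_num)
      refine h2.trans ?_
      have h3 : (1 / 2 : ℝ) ^ i0 / (1 - 1 / 2) = 2 * (1 / 2 : ℝ) ^ i0 := by ring
      rw [h3]
      linarith
    rw [hsplit] at hcard
    calc _ ≤ _ := hcard
      _ ≤ ε / 2 * (B : ℝ) ^ N + ε / 2 * (B : ℝ) ^ N := add_le_add e1 e2
      _ = _ := by ring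
  · intro i
    refine (Finset.finite_toSet (box N (T' i))).subset ?_
    rintro x ⟨h1, h2⟩
    rw [Finset.mem_coe, ← nrm_le]
    by_contra h3
    push Not at h3
    exact h2 ⟨i, h1, h3.le⟩

theorem exists_diag' {N : ℕ} {ι : Type} [Countable ι] (P : ι → (Fin N → ℤ) → Prop)
    (h : ∀ i, Sparse N (fun _ x => P i x)) :
    ∃ Z : Set (Fin N → ℤ), DZ Z ∧ ∀ i, {x | P i x ∧ x ∉ Z}.Finite := by
  obtain ⟨g, hg⟩ := Countable.exists_injective_nat ι
  obtain ⟨Z, hZ, hfin⟩ := exists_diag (fun m x => ∃ i, g i = m ∧ P i x) (fun m => by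
    by_cases hm : ∃ i, g i = m
    · obtain ⟨i, rfl⟩ := hm
      refine (h i).mono ?_
      rintro B x - - ⟨j, hj, hP⟩
      rw [hg hj] at hP
      exact hP
    · refine (Sparse.false N).mono ?_
      rintro B x - - ⟨i, hi, -⟩
      exact hm ⟨i, hi⟩)
  refine ⟨Z, hZ, fun i => (hfin (g i)).subset ?_⟩
  rintro x ⟨h1, h2⟩
  exact ⟨⟨i, rfl, h1⟩, h2⟩

end Pool.Agent.N445.DF
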