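import Mathlib
import Pool.Agent.N445.DF.A16

/-! # One exceptional set for all divisors -/

set_option autoImplicit false

namespace Pool.Agent.N445.DF

open MvPolynomial Pool.Agent.TH910.Voj Pool.Agent.H813R3.Voj Pool.Agent.N445.VW NumberField

instance countable_mv (n : ℕ) : Countable (MvPolynomial (Fin n) ℤ) := by
  rw [← Cardinal.mk_le_aleph0_iff]
  refine (MvPolynomial.cardinalMk_le_max).trans ?_
  simp

/-- the data of the divisor and of the ideals -/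
abbrev Dat (n : ℕ) : Type := (r : ℕ) × (t : ℕ) × (Finset ℕ × (Fin r → MvPolynomial (Fin (n + 1)) ℤ) ×
  (Fin t → MvPolynomial (Fin (n + 1)) ℤ) × (Fin t → MvPolynomial (Fin (n + 1)) ℤ) ×
  (Fin t → ℕ) × (Fin t → ℕ) × ℕ × ℚ)

instance (n : ℕ) : Countable (Dat n) := inferInstance

theorem nrm_eq_ht {n : ℕ} (x : Fin (n + 1) → ℤ) : nrm x = ht x := rfl

theorem ih_ge {n : ℕ} (F G : MvPolynomial (Fin (n + 1)) ℤ) (k e : ℕ) (hF : F.IsHomogeneous k)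
    (hG : G.IsHomogeneous e) : ∃ C : ℝ, ∀ x : Fin (n + 1) → ℤ,
      (∃ c : Fin (n + 1) → ℤ, ∑ i, c i * x i = 1) → eval x F ≠ 0 → -C ≤ ih F G k e x := by
  obtain ⟨c1, hc1, h1⟩ := exists_eval_bound F (hF.totalDegree_le)
  obtain ⟨c2, hc2, h2⟩ := exists_eval_bound G (hG.totalDegree_le)
  refine ⟨Real.log (c1 + c2 : ℝ), fun x hprim hx => ?_⟩
  have hht : 1 ≤ ht x := by
    by_contra hcon
    have h0 : ht x = 0 := by omega
    obtain ⟨c, hc⟩ := hprim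
    have hx0 : ∀ i, x i = 0 := by
      intro i
      have h3 : (x i).natAbs ≤ ht x := Finset.le_sup (f := fun i => (x i).natAbs) (Finset.mem_univ i)
      rw [h0] at h3
      exact Int.natAbs_eq_zero.1 (by omega)
    simp [hx0] at hc
  have hbox : x ∈ box (n + 1) (ht x) := nrm_le.1 le_rfl
  have hht0 : (0 : ℝ) < ht x := by exact_mod_cast hht
  have hval : ∀ z : ℤ, |(z : ℝ)| = ((z.natAbs : ℕ) : ℝ) := by
    intro z
    rw [Nat.cast_natAbs, Int.cast_abs]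
  have b1 : |(eval x F : ℝ)| / (ht x : ℝ) ^ k ≤ c1 + c2 := by
    rw [div_le_iff₀ (by positivity), hval]
    have h3 : (((eval x F).natAbs : ℕ) : ℝ) ≤ c1 * (ht x : ℝ) ^ k := by
      exact_mod_cast h1 (ht x) hht x hbox
    refine h3.trans (mul_le_mul_of_nonneg_right ?_ (by positivity))
    have : (0 : ℝ) ≤ c2 := Nat.cast_nonneg _
    linarith
  have b2 : |(eval x G : ℝ)| / (ht x : ℝ) ^ e ≤ c1 + c2 := by
    rw [div_le_iff₀ (by positivity), hval]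
    have h3 : (((eval x G).natAbs : ℕ) : ℝ) ≤ c2 * (ht x : ℝ) ^ e := by
      exact_mod_cast h2 (ht x) hht x hbox
    refine h3.trans (mul_le_mul_of_nonneg_right ?_ (by positivity))
    have : (0 : ℝ) ≤ c1 := Nat.cast_nonneg _
    linarith
  have hpos : 0 < |(eval x F : ℝ)| / (ht x : ℝ) ^ k := by
    have : (eval x F : ℝ) ≠ 0 := by exact_mod_cast hx
    positivity
  have e1 : Real.log (max (|(eval x F : ℝ)| / (ht x : ℝ) ^ k) (|(eval x G : ℝ)| / (ht x : ℝ) ^ e)) ≤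
      Real.log (c1 + c2 : ℝ) :=
    Real.log_le_log (lt_max_of_lt_left hpos) (max_le b1 b2)
  have hg0 : 0 < Int.gcd (eval x F) (eval x G) := Int.gcd_pos_of_ne_zero_left _ hx
  have e2 : 0 ≤ Real.log (Int.gcd (eval x F) (eval x G)) :=
    Real.log_nonneg (by exact_mod_cast hg0)
  unfold ih
  linarith

/-- **One exceptional set for all divisors.** -/
theorem one_set {n : ℕ} (hn : 2 ≤ n) : ∃ Z : Set (Fin (n + 1) → ℤ), DZ Z ∧
    ∀ (r t : ℕ) (S : Finset ℕ) (F : Fin r → MvPolynomial (Fin (n + 1)) ℤ)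
      (k : Fin r → ℕ) (w : Fin r → ℝ) (_ : ∀ j, (F j).IsHomogeneous (k j))
      (_ : ∀ j, Irreducible (toQ (F j)))
      (_ : ∀ i j, i ≠ j → ¬ Associated (toQ (F i)) (toQ (F j)))
      (_ : ∀ j, w j ≤ wgt (1 + 1 / (n : ℝ)) (k j) ∨ ∃ m : ℕ, IsNormForm (F j) m ∧
        w j ≤ wgt m (k j))
      (F' G' : Fin t → MvPolynomial (Fin (n + 1)) ℤ) (k' e' : Fin t → ℕ)
      (_ : ∀ l, (F' l).IsHomogeneous (k' l)) (_ : ∀ l, (G' l).IsHomogeneous (e' l))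
      (_ : ∀ l, Irreducible (toQ (F' l)))
      (_ : ∀ l, ¬ toQ (F' l) ∣ toQ (G' l)) (Λ : ℝ) (_ : 0 ≤ Λ) (_ : 0 < ∑ j, w j)
      (θ : ℝ) (_ : θ < ∑ j, w j), ∃ C : ℝ, ∀ x : Fin (n + 1) → ℤ,
        (∃ c : Fin (n + 1) → ℤ, ∑ i, c i * x i = 1) → x ∉ Z → (∀ j, eval x (F j) ≠ 0) →
        (∀ l, eval x (F' l) ≠ 0) →
        θ * Real.log (ht x) + Λ * ∑ l, ih (F' l) (G' l) (k' l) (e' l) x ≤
          logRad S (∏ j, eval x (F j)) + C := by
  classical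
  set P : Dat n → (Fin (n + 1) → ℤ) → Prop := fun D x =>
    match D with
    | ⟨r, t, S, F, F', G', k', e', Λ, θ⟩ =>
      0 ≤ (θ : ℝ) ∧ (∃ (k : Fin r → ℕ) (w : Fin r → ℝ), (∀ j, (F j).IsHomogeneous (k j)) ∧
        (∀ j, Irreducible (toQ (F j))) ∧
        (∀ i j, i ≠ j → ¬ Associated (toQ (F i)) (toQ (F j))) ∧
        (∀ j, w j ≤ wgt (1 + 1 / (n : ℝ)) (k j) ∨ ∃ m : ℕ, IsNormForm (F j) m ∧
          w j ≤ wgt m (k j)) ∧ (θ : ℝ) < ∑ j, w j) ∧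
      (∀ l, (F' l).IsHomogeneous (k' l)) ∧ (∀ l, Irreducible (toQ (F' l))) ∧
      (∀ l, ¬ toQ (F' l) ∣ toQ (G' l)) ∧
      (∃ c : Fin (n + 1) → ℤ, ∑ i, c i * x i = 1) ∧
      logRad S (∏ j, eval x (F j)) <
        (θ : ℝ) * Real.log (ht x) + (Λ : ℝ) * ∑ l, ih (F' l) (G' l) (k' l) (e' l) x with hP
  obtain ⟨Z, hZ, hfin⟩ := exists_diag' P (by
    rintro ⟨r, t, S, F, F', G', k', e', Λ, θ⟩
    by_cases hv : 0 ≤ (θ : ℝ) ∧ (∃ (k : Fin r → ℕ) (w : Fin r → ℝ), (∀ j, (F j).IsHomogeneous (k j)) ∧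
        (∀ j, Irreducible (toQ (F j))) ∧
        (∀ i j, i ≠ j → ¬ Associated (toQ (F i)) (toQ (F j))) ∧
        (∀ j, w j ≤ wgt (1 + 1 / (n : ℝ)) (k j) ∨ ∃ m : ℕ, IsNormForm (F j) m ∧
          w j ≤ wgt m (k j)) ∧ (θ : ℝ) < ∑ j, w j) ∧
      (∀ l, (F' l).IsHomogeneous (k' l)) ∧ (∀ l, Irreducible (toQ (F' l))) ∧
      (∀ l, ¬ toQ (F' l) ∣ toQ (G' l))
    · obtain ⟨hθ0, ⟨k, w, h1, h2, h3, h4, h5⟩, h6, h7, h8⟩ := hv
      refine (main_h hn S F k w h1 h2 h3 h4 F' G' k' e' h6 h7 h8 (Λ : ℝ) (Nat.cast_nonneg _)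
        (θ : ℝ) h5).mono ?_
      rintro B x hB hx ⟨-, -, -, -, -, hprim, hlt⟩
      refine ⟨hprim, Or.inr (Or.inr (lt_of_lt_of_le hlt ?_))⟩
      have hht : ht x ≤ B := nrm_le.2 hx
      have hlog : Real.log (ht x) ≤ Real.log B := by
        rcases Nat.eq_zero_or_pos (ht x) with h0 | h0
        · rw [h0, Nat.cast_zero, Real.log_zero]
          exact Real.log_nonneg (by exact_mod_cast hB)
        · exact Real.log_le_log (by exact_mod_cast h0) (by exact_mod_cast hht)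
      have := mul_le_mul_of_nonneg_left hlog hθ0
      linarith
    · refine (Sparse.false (n + 1)).mono ?_
      rintro B x - - ⟨g1, g2, g3, g4, g5, -, -⟩
      exact hv ⟨g1, g2, g3, g4, g5⟩)
  refine ⟨Z, hZ, ?_⟩
  intro r t S F k w h1 h2 h3 h4 F' G' k' e' h5 h6 h7 h8 Λ hΛ hw0 θ hθ
  obtain ⟨θ', hθ1, hθ2⟩ := exists_rat_btwn (max_lt hθ hw0)
  have hθ0 : (0 : ℝ) ≤ θ' := ((le_max_right _ _).trans_lt hθ1).le
  have hθθ : θ ≤ θ' := ((le_max_left _ _).trans_lt hθ1).le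
  set Λ' : ℕ := ⌈Λ⌉₊ with hΛ'
  have hΛΛ : Λ ≤ Λ' := Nat.le_ceil Λ
  have hfin1 := hfin ⟨r, t, S, F, F', G', k', e', Λ', θ'⟩
  -- the lower bounds
  have hih : ∀ l, ∃ C : ℝ, ∀ x : Fin (n + 1) → ℤ,
      (∃ c : Fin (n + 1) → ℤ, ∑ i, c i * x i = 1) → eval x (F' l) ≠ 0 →
      -C ≤ ih (F' l) (G' l) (k' l) (e' l) x := fun l => ih_ge _ _ _ _ (h5 l) (h6 l)
  choose Cl hCl using hih
  set C1 : ℝ := (Λ' - Λ) * ∑ l, Cl l with hC1
  set f : (Fin (n + 1) → ℤ) → ℝ := fun x =>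
    (θ' : ℝ) * Real.log (ht x) + (Λ' : ℝ) * ∑ l, ih (F' l) (G' l) (k' l) (e' l) x -
      logRad S (∏ j, eval x (F j)) with hf
  obtain ⟨C2, hC2⟩ := (hfin1.image f).bddAbove
  refine ⟨C1 + max C2 0, fun x hprim hxZ hxF hxF' => ?_⟩
  have e1 : f x ≤ max C2 0 := by
    by_cases hlt : logRad S (∏ j, eval x (F j)) <
        (θ' : ℝ) * Real.log (ht x) + (Λ' : ℝ) * ∑ l, ih (F' l) (G' l) (k' l) (e' l) x
    · refine le_trans (hC2 ⟨x, ⟨?_, hxZ⟩, rfl⟩) (le_max_left _ _)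
      exact ⟨hθ0, ⟨k, w, h1, h2, h3, h4, hθ2⟩, h5, h7, h8, hprim, hlt⟩
    · push Not at hlt
      refine le_trans ?_ (le_max_right _ _)
      rw [hf]
      simp only
      linarith
  have hlog : 0 ≤ Real.log (ht x) := Real.log_natCast_nonneg _
  have e2 : θ * Real.log (ht x) ≤ (θ' : ℝ) * Real.log (ht x) :=
    mul_le_mul_of_nonneg_right hθθ hlog
  have e3 : -∑ l, Cl l ≤ ∑ l, ih (F' l) (G' l) (k' l) (e' l) x := by
    rw [← Finset.sum_neg_distrib]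
    exact Finset.sum_le_sum fun l _ => hCl l x hprim (hxF' l)
  have e4 : (Λ' - Λ) * -∑ l, Cl l ≤ (Λ' - Λ) * ∑ l, ih (F' l) (G' l) (k' l) (e' l) x :=
    mul_le_mul_of_nonneg_left e3 (by linarith)
  rw [hf] at e1
  simp only at e1
  rw [hC1]
  linarith

end Pool.Agent.N445.DF
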